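import Pool.Agent.ATR.Defs

/-!
ATR, row D (helper86): the tip lemma for the words whose start is in a class `Q` decided inside of the ball of radius `ρ`;
the first letter; the end of a word with a good decomposition.
-/

set_option autoImplicit false

namespace HexObs

namespace ATR

open Finset TS SDN SIM NTA NTW TIP Nf

open scoped ENNReal

open NTF (JJ)

lemma bd_app {ρ : ℝ} {Q : Set (List Bool)} (hQ : StC ρ Q) {L x : List Bool} (h : L ∈ Bd Q) : L ++ x ∈ Bd Q := by
  rcases h with h | h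
  · exact Or.inl (hQ.app L x h)
  · rcases Nat.eq_zero_or_pos L.length with h0 | h0
    · rw [List.length_eq_zero_iff] at h0
      rw [h0] at h ⊢
      exact Or.inl (hQ.app [] x h)
    · refine Or.inr ?_
      rw [List.drop_append_of_le_length (by omega)]
      exact hQ.app _ x h

/-- a class of starts sees only the word up to a long bridge -/
lemma bd_on {b : ℕ} {ρ : ℝ} {Q : Set (List Bool)} (hQ : StC ρ Q) {A Z1 Z2 : List Bool} (hρ : 2 * (ρ + 1) < 2 ^ b)
    (hA : OnB b A) (h : A ++ (Z1 ++ Z2) ∈ Bd Q) : A ++ Z1 ∈ Bd Q := by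
  obtain ⟨i, i1, i2, i3⟩ := NQ.on_far hA hρ
  have hlA : A.length ≤ (A ++ Z1).length := by rw [List.length_append]; omega
  have i4 : ρ + 1 < ‖JJ (vx oo up (A ++ Z1) i)‖ := by rwa [vx_append (by omega)]
  rcases h with h | h
  · left
    rw [← List.append_assoc] at h
    exact hQ.dec (A ++ Z1) Z2 i (by omega) (by linarith) h
  · right
    have g0 : 1 ≤ (A ++ Z1).length := by omega
    have g1 : (A ++ (Z1 ++ Z2)).drop 1 = (A ++ Z1).drop 1 ++ Z2 := by
      rw [← List.append_assoc, List.drop_append_of_le_length g0]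
    rw [g1] at h
    have g2 : ρ < ‖JJ (vx oo up ((A ++ Z1).drop 1) (i - 1))‖ := by
      have := (NQ.drop1_norm (A ++ Z1) (i - 1)).1
      rw [show 1 + (i - 1) = i by omega] at this
      linarith
    have g3 : ((A ++ Z1).drop 1).length = (A ++ Z1).length - 1 := by rw [List.length_drop]
    exact hQ.dec _ Z2 (i - 1) (by omega) g2 h

/-- **row D1**: the tip lemma for the classes of starts -/
theorem tipC : TipC := by
  intro η hη
  obtain ⟨C, lam, j0, hC, hlam, h⟩ := tipxoJ η hη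
  refine ⟨C, lam, j0, hC, hlam, fun b j K ρ Q hQ h1 h2 h3 h0 h4 => ?_⟩
  have key := h b j K (WL K ∩ Bd Q) (WL K ∩ Bd Q) ∅ 0 (gf (WL (K + 3) ∩ Bd Q)) h1 h2 h3
    Set.inter_subset_left (fun A Z1 Z2 a1 a2 a3 a4 _ a6 => ⟨⟨?_, fun i hi dir => ?_⟩, bd_on hQ h4 a6 a1.2⟩) le_rfl ?_ ?_
  · rwa [add_zero] at key
  · have := SA_take a1.1.1 (A ++ Z1).length
    rwa [← List.append_assoc, List.take_left' rfl] at this
  · have := a1.1.2 i (by
      rw [← List.append_assoc, List.length_append]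
      omega) dir
    rwa [← List.append_assoc, vx_append (by omega)] at this
  · have e : {Z : List Bool | Z ∈ BU ∧ hgt Z ≤ 2 ^ b ∧ Z ∈ (∅ : Set (List Bool))} = ∅ := by
      ext Z
      simp
    rw [e]
    simp [gf]
  · refine gf_mono ?_
    rintro t ⟨ht, L, hL, x, hx, rfl⟩
    refine ⟨EnsW.glue_WL (R := 2 ^ b) (Nat.pow_le_pow_right (by norm_num) h3) hL.1 ?_ ht, bd_app hQ hL.2⟩
    exact hx

/-- **row D2**: the first letter -/
theorem bdC : BdC := by
  intro K Q
  obtain ⟨T, hT⟩ : ∃ T : Set (List Bool), T = WL (K + 3) ∩ Q := ⟨_, rfl⟩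
  obtain ⟨S, hS⟩ : ∃ S : Set (List Bool), S = {L | L ∈ WL K ∧ L.drop 1 ∈ Q} := ⟨_, rfl⟩
  have hcov : WL K ∩ Bd Q ⊆ T ∪ S := by
    rintro L ⟨h1, h2 | h2⟩
    · left
      rw [hT]
      exact ⟨⟨h1.1, fun i hi dir => (h1.2 i hi dir).trans (pow_le_pow_right₀ (by norm_num) (by omega))⟩, h2⟩
    · right
      rw [hS]
      exact ⟨h1, h2⟩
  have k2 : gf S ≤ 1 * (gf T * gf {t : List Bool | t.length ≤ 1}) := by
    refine gf_le_pair 1 (fun L => L.drop 1) (fun L => L.take 1) ?_ ?_ ?_ ?_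
    · intro L hL
      rw [hS] at hL
      rw [hT]
      exact ⟨NQ.drop1_WL hL.1, hL.2⟩
    · intro L _
      show (L.take 1).length ≤ 1
      rw [List.length_take]
      omega
    · intro s _ t _ h2 h3
      rw [← List.take_append_drop 1 s, ← List.take_append_drop 1 t]
      exact congrArg₂ (· ++ ·) h3 h2
    · intro L _
      rw [one_mul, mul_comm, ← wE_append, List.take_append_drop]
  rw [← hT]
  calc gf (WL K ∩ Bd Q) ≤ gf T + gf S := (gf_mono hcov).trans (gf_union_le _ _)
    _ ≤ gf T + 1 * (gf T * 3) := add_le_add_right (k2.trans (mul_le_mul_right (mul_le_mul_right RevM.gf_short _) _)) _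
    _ = 4 * gf T := by ring

/-- **row D3**: the end of a word with a good decomposition -/
theorem decC : DecC := by
  intro b D η ρ Q t hQ hη hρ ht
  obtain ⟨A, Y, rfl, hG, -, hY⟩ := ht
  have hY : ¬ (rev Y).drop 1 ∈ Q := hY
  have h1 : 0 < ((cs b (rev Y)).card : ℝ) := lt_of_lt_of_le (mul_pos hη (Ub_pos b)) hG
  have h2 : 0 < (cs b (rev Y)).card := by exact_mod_cast h1
  obtain ⟨j, hj⟩ := card_pos.1 h2
  obtain ⟨c1, c2, c3, c4⟩ := mem_cs.1 hj
  obtain ⟨i, i1, i2, i3⟩ := NQ.on_far c4 hρ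
  rw [List.length_take] at i2
  have i4 : ρ + 1 < ‖JJ (vx oo up (rev Y) i)‖ := by
    have e : (rev Y).take j ++ (rev Y).drop j = rev Y := List.take_append_drop _ _
    rw [← e, vx_append (by rw [List.length_take]; omega)]
    exact i3
  have h3 := (NQ.drop1_norm (rev Y) (i - 1)).1
  rw [show 1 + (i - 1) = i by omega] at h3
  have h4 : ((rev Y).drop 1).length = (rev Y).length - 1 := by rw [List.length_drop]
  have h6 := rev_length Y
  obtain ⟨R, hR⟩ := NQ.rvw_take (A := A) (Y := Y) (by omega)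
  rw [hR]
  intro hc
  exact hY (hQ.dec _ R (i - 1) (by omega) (by linarith) hc)

end ATR

end HexObs
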