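import Pool.Agent.ATR.Bad
import Pool.Agent.IW.Trans

/-!
ATR, row C (helper86): comparison of the start of the walk with n steps, n → ∞, with the words of the box.
-/

set_option autoImplicit false

namespace HexObs

namespace ATR

open Finset TS SDN NTA NTW TIP Nf TIW

open scoped ENNReal

open NTF (JJ)

open Pool.Agent.IW (rvw rvw_app)

/-- the vertices of the reversed word, seen from the tip -/
lemma rev_key (s : List Bool) : ∃ u : Pt, nrm u = 1 ∧ ∀ j, j ≤ s.length + 1 → vx oo up s (s.length + 1 - j) =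
    tip oo up s + mulE u (vx oo up (rev s) j) := by
  have hd : -(dx up s s.length) ∈ dirs := neg_mem_dirs (dx_mem SDN.up_dirs s s.length)
  obtain ⟨-, he⟩ := SDN.frame_dir hd
  refine ⟨rotTo up (-(dx up s s.length)), nrm_rotTo upd' hd, fun j hj => ?_⟩
  rw [← vx_rev oo up s j hj, ← SDN.vx_frameN, ← he]

lemma JJ_mulE {u : Pt} (hu : nrm u = 1) (v : Pt) : ‖JJ (mulE u v)‖ = ‖JJ v‖ := by
  have e1 := NTF.JJ_norm (mulE u v)
  have e2 := NTF.JJ_norm v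
  rw [nrm_mulE, hu, one_mul, ← e2] at e1
  exact (sq_eq_sq₀ (norm_nonneg _) (norm_nonneg _)).1 e1

/-- the reversed end leaves every ball -/
lemma rev_far (s : List Bool) (c : Bool) : ‖JJ (TIW.en (s ++ [c]))‖ - 1 ≤ ‖JJ (vx oo up (rev s) s.length)‖ := by
  obtain ⟨u, hu, h⟩ := rev_key s
  have h1 := h s.length (by omega)
  rw [show s.length + 1 - s.length = 1 by omega] at h1
  have e1 : vx oo up s 1 = up := by
    have h2 : vx oo up s 1 = oo + up := rfl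
    rw [h2]
    decide
  have e2 : TIW.en (s ++ [c]) = tip oo up s := by
    have e : TIW.en (s ++ [c]) = vx oo up (s ++ [c]) (s.length + 1) := by
      unfold TIW.en
      rw [List.length_append, List.length_singleton]
    rw [e, vx_append (by omega)]
    rfl
  rw [e1] at h1
  have h2 := congrArg JJ h1
  rw [NTF.JJ_add] at h2
  have h3 : JJ (tip oo up s) = JJ up - JJ (mulE u (vx oo up (rev s) s.length)) := by
    rw [h2]
    ring
  have h4 : ‖JJ (tip oo up s)‖ ≤ 1 + ‖JJ (vx oo up (rev s) s.length)‖ := by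
    rw [h3]
    refine (norm_sub_le _ _).trans ?_
    rw [JJ_mulE hu, NQ.JJ_dir up_dirs]
  rw [e2]
  linarith

lemma chi_pos {r : ℕ} {E : List Bool} (hr : 0 < r) (h : chi r E ≠ 0) : (r : ℝ) < 32 * (ip (TIW.en E) up : ℝ) := by
  by_contra hc
  apply h
  have hr0 : (0 : ℝ) < r := by exact_mod_cast hr
  have h1 : cl1 (32 * (ip (TIW.en E) up : ℝ) / r - 1) = 0 := by
    unfold cl1
    refine max_eq_left ((min_le_right _ _).trans ?_)
    rw [sub_nonpos, div_le_iff₀ hr0, one_mul]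
    exact not_lt.1 hc
  have h2 : 0 ≤ cl1 (16 - 32 * (hn (TIW.en E) : ℝ) / r) := le_max_left _ _
  unfold chi
  rw [h1]
  exact min_eq_left h2

/-- a class of starts is, for the reversed words, an event near the tip -/
lemma inside_rvw {ρ : ℝ} {Q : Set (List Bool)} (hQ : StC ρ Q) : ∃ r0, ∀ r, r0 ≤ r → Inside r {t | rvw t ∈ Q} := by
  obtain ⟨r0, hr0⟩ := exists_nat_gt (64 * (|ρ| + 2))
  refine ⟨r0, fun r hr A E _ _ _ hchi => ?_⟩
  have hr1 : (r0 : ℝ) ≤ r := by exact_mod_cast hr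
  have hr2 : (0 : ℝ) < r := by
    have := abs_nonneg ρ
    linarith
  have h1 := chi_pos (by exact_mod_cast hr2) hchi
  have h2 : |((lvl false (TIW.en E) : ℤ) : ℝ)| ≤ 2 * ‖JJ (TIW.en E)‖ := NTSF.lvl_le_norm false (TIW.en E)
  have h3 : ((ip (TIW.en E) up : ℤ) : ℝ) ≤ 2 * ‖JJ (TIW.en E)‖ := (le_abs_self _).trans h2
  have h4 : |ρ| + 2 < ‖JJ (TIW.en E)‖ := by linarith
  rcases E.eq_nil_or_concat' with rfl | ⟨s, c, rfl⟩
  · exfalso
    have e0 : ‖JJ (TIW.en [])‖ = 0 := NQ.JJ_oo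
    rw [e0] at h4
    have := abs_nonneg ρ
    linarith
  · have h5 := rev_far s c
    have h6 : ρ < ‖JJ (vx oo up (rev s) s.length)‖ := by
      have := le_abs_self ρ
      linarith
    have key : ∀ x : List Bool, rev s ++ x ∈ Q ↔ rev s ∈ Q := fun x =>
      ⟨fun h => hQ.dec (rev s) x s.length (by rw [rev_length]) h6 h, fun h => hQ.app (rev s) x h⟩
    have e1 : rvw (A ++ (s ++ [c])) = rev s ++ (rev A ++ [c]) := by
      rw [← List.append_assoc, rvw_app, rev_append, List.append_assoc]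
    have e2 : rvw (s ++ [c]) = rev s ++ [c] := rvw_app s c
    show rvw (A ++ (s ++ [c])) ∈ Q ↔ rvw (s ++ [c]) ∈ Q
    rw [e1, e2]
    exact (key _).trans (key _).symm

/-- the mass of the ends of the scale b that start in the class -/
theorem q_mass (hT : TipC) (hB : BdC) {η : ℝ} (hη : 0 < η) : ∃ (C D lam : ℝ) (j0 : ℕ), 1 ≤ C ∧ 1 ≤ D ∧ 1 < lam ∧
    ∀ (b m j : ℕ) (ρ q : ℝ) (Q : Set (List Bool)), StC ρ Q → 1 ≤ j → j + j0 ≤ b → 0 ≤ ρ → 2 * (ρ + 1) < 2 ^ b → 0 ≤ q →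
      gf (WL (b + m + 9) ∩ Q) ≤ ENNReal.ofReal (q * Ub (b + m + 9)) * Xb (b + m + 9) ^ 2 →
      gf {Y | Y ∈ SA ∧ rev Y ∈ GT b η ∧ In (2 ^ (b + m)) Y ∧ Y ∈ {Y | (rev Y).drop 1 ∈ Q}} ≤
        ENNReal.ofReal (4 * (C * (lam ^ j)⁻¹ * D ^ (m + 3) + C ^ j * (4 * (q * D ^ (m + 9)))) * Ub b) * Xb b := by
  obtain ⟨C, lam, j0, hC, hlam, hT⟩ := hT η hη
  obtain ⟨D, hD, hup⟩ := EnsW.ref_up
  have hC0 : 0 < C := by linarith
  have hD0 : 0 < D := by linarith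
  refine ⟨C, D, lam, j0, hC, hD, hlam, fun b m j ρ q Q hQ hj1 hb2 hρ0 hρ hq hm => ?_⟩
  have hU := Ub_pos b
  have h1 := TIP.rev_le (b := b) (D := 2 ^ (b + m)) (K := b + (m + 3)) (η := η)
    (Q := {Y | (rev Y).drop 1 ∈ Q}) (Q' := Bd Q) (by
      have e : (2 : ℕ) ^ (b + (m + 3)) = 8 * 2 ^ (b + m) := by rw [show b + (m + 3) = b + m + 3 by ring, pow_add]; ring
      have : 1 ≤ 2 ^ (b + m) := Nat.one_le_two_pow
      omega) (fun Y h _ _ => Or.inr h) (fun Y h _ => Or.inl h)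
  have h2 := hT b j (b + (m + 3)) ρ Q hQ hj1 hb2 (by omega) hρ0 hρ
  have h3 := hB (b + (m + 3) + 3) Q
  have h4 : gf (WL (b + (m + 3) + 3 + 3) ∩ Q) ≤ ENNReal.ofReal (q * D ^ (m + 9) * Ub b) * Xb b ^ 2 := by
    have e : b + (m + 3) + 3 + 3 = b + m + 9 := by ring
    rw [e]
    refine hm.trans ?_
    have h := hup b (m + 9)
    rw [show b + (m + 9) = b + m + 9 by ring] at h
    rw [ENNReal.ofReal_mul hq, mul_assoc]
    refine (mul_le_mul_right h _).trans (le_of_eq ?_)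
    rw [← mul_assoc, ← ENNReal.ofReal_mul hq, ← mul_assoc, ← ENNReal.ofReal_mul (by positivity)]
  have h5 : gf ((WL (b + (m + 3)) ∩ Bd Q) ∩ GT b η) * Xb b ≤
      ENNReal.ofReal ((C * (lam ^ j)⁻¹ * D ^ (m + 3) + C ^ j * (4 * (q * D ^ (m + 9)))) * Ub b) * Xb b * Xb b := by
    refine h2.trans ?_
    have h6 : ENNReal.ofReal (C * (lam ^ j)⁻¹ * Ub (b + (m + 3))) * Xb (b + (m + 3)) ^ 2 ≤
        ENNReal.ofReal (C * (lam ^ j)⁻¹ * D ^ (m + 3) * Ub b) * Xb b ^ 2 := by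
      rw [ENNReal.ofReal_mul (by positivity), mul_assoc]
      refine (mul_le_mul_right (hup b (m + 3)) _).trans (le_of_eq ?_)
      rw [← mul_assoc, ← ENNReal.ofReal_mul (by positivity), ← mul_assoc, ← ENNReal.ofReal_mul (by positivity)]
    have h7 : ENNReal.ofReal (C ^ j) * gf (WL (b + (m + 3) + 3) ∩ Bd Q) ≤
        ENNReal.ofReal (C ^ j * (4 * (q * D ^ (m + 9))) * Ub b) * Xb b ^ 2 := by
      refine (mul_le_mul_right (h3.trans (mul_le_mul_right h4 _)) _).trans (le_of_eq ?_)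
      rw [← mul_assoc, ← mul_assoc, show (4 : ℝ≥0∞) = ENNReal.ofReal 4 by simp, ← ENNReal.ofReal_mul (by positivity),
        ← ENNReal.ofReal_mul (by positivity)]
      congr 2
      ring
    refine (add_le_add h6 h7).trans (le_of_eq ?_)
    rw [← add_mul, ← ENNReal.ofReal_add (by positivity) (by positivity), sq, ← mul_assoc, ← add_mul]
  have h8 := (ENNReal.mul_le_mul_iff_left (Xb_ne_zero b) (Xb_ne_top b)).1 h5
  have h9 : {L | L ∈ WL (b + (m + 3)) ∧ L ∈ GT b η ∧ L ∈ Bd Q} ⊆ (WL (b + (m + 3)) ∩ Bd Q) ∩ GT b η :=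
    fun L hL => ⟨⟨hL.1, hL.2.2⟩, hL.2.1⟩
  calc gf {Y | Y ∈ SA ∧ rev Y ∈ GT b η ∧ In (2 ^ (b + m)) Y ∧ Y ∈ {Y | (rev Y).drop 1 ∈ Q}}
      ≤ 4 * gf {L | L ∈ WL (b + (m + 3)) ∧ L ∈ GT b η ∧ L ∈ Bd Q} := h1
    _ ≤ 4 * gf ((WL (b + (m + 3)) ∩ Bd Q) ∩ GT b η) :=
        mul_le_mul_right (gf_mono h9) _
    _ ≤ 4 * (ENNReal.ofReal ((C * (lam ^ j)⁻¹ * D ^ (m + 3) + C ^ j * (4 * (q * D ^ (m + 9)))) * Ub b) * Xb b) :=
        mul_le_mul_right h8 _
    _ = _ := by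
        rw [← mul_assoc, show (4 : ℝ≥0∞) = ENNReal.ofReal 4 by simp, ← ENNReal.ofReal_mul (by norm_num)]
        congr 2
        ring

/-- **row C** -/
theorem cmp_of (hDom : Dom) (hLoc : Loc) (hT : TipC) (hB : BdC) (hDec : DecC) : Cmp := by
  obtain ⟨CD, hCD, hDom⟩ := hDom
  obtain ⟨η, CL, m0, b0, hη, hCL, hLoc⟩ := hLoc
  obtain ⟨C1, D, lam, j0, hC1, hD, hlam, hq⟩ := q_mass hT hB hη
  obtain ⟨C, hC⟩ : ∃ C : ℝ, C = CD * CL * (16 * C1 * D ^ 9) + 8 * (CD * CL) + D + C1 := ⟨_, rfl⟩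
  have hC10 : 0 < C1 := by linarith
  have hD0 : 0 < D := by linarith
  have p1 : 0 ≤ CD * CL * (16 * C1 * D ^ 9) := by positivity
  have p2 : 0 ≤ 8 * (CD * CL) := by positivity
  have c1 : CD * CL * (16 * C1 * D ^ 9) ≤ C := by linarith
  have c2 : 8 * (CD * CL) ≤ C := by linarith
  have c3 : D ≤ C := by linarith
  have c4 : C1 ≤ C := by linarith
  have hC0 : 0 < C := by linarith
  refine ⟨C, lam, m0 + 3, j0, b0, by linarith, hlam, fun b m j ρ q Q hQ hb hm hj hj0 hρ0 hρ hq0 hM e he => ?_⟩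
  obtain ⟨m', rfl⟩ : ∃ m', m = m' + 3 := ⟨m - 3, by omega⟩
  have hlj : 0 < (lam ^ j)⁻¹ := by
    have : 0 < lam := by linarith
    positivity
  obtain ⟨y, hy⟩ : ∃ y : ℝ, y = 4 * (C1 * (lam ^ j)⁻¹ * D ^ (m' + 3) + C1 ^ j * (4 * (q * D ^ (m' + 9)))) := ⟨_, rfl⟩
  have hy0 : 0 ≤ y := by rw [hy]; positivity
  have h1 := hq b m' j ρ q Q hQ hj hj0 hρ0 hρ hq0 (by
    rw [show b + m' + 9 = b + (m' + 3) + 6 by ring]
    exact hM)
  rw [← hy] at h1
  obtain ⟨l0, hl0⟩ := hLoc b m' y {Y | (rev Y).drop 1 ∈ Q} hb (by omega) hy0 h1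
  have h2 := hDom {t | rvw t ∈ Q} (CL * (y + (1 / 2) ^ m')) l0 (inside_rvw hQ) (by positivity) (fun l hl => ?_) e he
  · obtain ⟨n0, hn0⟩ := h2
    refine ⟨max n0 1, fun n hn => ?_⟩
    have hn1 : 0 < n := by
      have : 1 ≤ n := (le_max_right _ _).trans hn
      omega
    have h3 := hn0 n ((le_max_left _ _).trans hn)
    rw [Pool.Agent.IW.Pn_rvw hn1] at h3
    refine h3.trans (add_le_add ?_ le_rfl)
    -- the constants
    have e1 : (1 / 2 : ℝ) ^ m' = 8 * (1 / 2) ^ (m' + 3) := by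
      rw [pow_add]
      norm_num
      ring
    have e2 : D ^ (m' + 3) * D ^ 6 = D ^ (m' + 9) := by
      rw [← pow_add]
    have e3 : D ^ (m' + 3) ≤ C ^ (m' + 3) := pow_le_pow_left₀ hD0.le c3 _
    have e4 : C1 ^ j ≤ C ^ j := pow_le_pow_left₀ hC10.le c4 _
    have e5 : 0 < D ^ (m' + 3) := by positivity
    have e6 : (1 : ℝ) ≤ D ^ 9 := one_le_pow₀ hD
    have e7 : D ^ 6 ≤ D ^ 9 := pow_le_pow_right₀ hD (by norm_num)
    have e8 : (0 : ℝ) < C1 ^ j := by positivity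
    have g1 : CD * CL * (4 * C1) ≤ C := by
      refine le_trans ?_ c1
      have : 4 * C1 ≤ 16 * C1 * D ^ 9 := by nlinarith
      exact mul_le_mul_of_nonneg_left this (by positivity)
    have g2 : CD * CL * (16 * D ^ 6) ≤ C := by
      refine le_trans ?_ c1
      have : 16 * D ^ 6 ≤ 16 * C1 * D ^ 9 := by
        have : D ^ 6 ≤ C1 * D ^ 9 := by nlinarith
        linarith
      exact mul_le_mul_of_nonneg_left this (by positivity)
    have t1 : CD * CL * (4 * C1) * (D ^ (m' + 3) * (lam ^ j)⁻¹) ≤ C * (C ^ (m' + 3) * (lam ^ j)⁻¹) := by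
      refine mul_le_mul g1 (mul_le_mul_of_nonneg_right e3 hlj.le) (by positivity) hC0.le
    have t2 : CD * CL * (16 * D ^ 6) * (D ^ (m' + 3) * (C1 ^ j * q)) ≤ C * (C ^ (m' + 3) * (C ^ j * q)) := by
      refine mul_le_mul g2 (mul_le_mul e3 (mul_le_mul_of_nonneg_right e4 hq0) (by positivity) (by positivity))
        (by positivity) hC0.le
    have t3 : 8 * (CD * CL) * (1 / 2 : ℝ) ^ (m' + 3) ≤ C * (1 / 2) ^ (m' + 3) := mul_le_mul_of_nonneg_right c2 (by positivity)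
    calc CD * (CL * (y + (1 / 2) ^ m')) = CD * CL * (4 * C1) * (D ^ (m' + 3) * (lam ^ j)⁻¹) +
          CD * CL * (16 * D ^ 6) * (D ^ (m' + 3) * (C1 ^ j * q)) + 8 * (CD * CL) * (1 / 2) ^ (m' + 3) := by
          rw [hy, e1, ← e2]
          ring
      _ ≤ C * (C ^ (m' + 3) * (lam ^ j)⁻¹) + C * (C ^ (m' + 3) * (C ^ j * q)) + C * (1 / 2) ^ (m' + 3) :=
          add_le_add (add_le_add t1 t2) t3
      _ = _ := by ring
  · have h4 := hl0 l hl
    refine (gf_mono ?_).trans h4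
    rintro t ⟨ht, hr⟩
    exact ⟨ht, fun hd => hDec b (2 ^ (b + m')) η ρ Q t hQ hη hρ hd hr⟩

end ATR

end HexObs
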