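import Pool.Agent.TIW.Lim

/-!
ATR, row A (helper45): the soft part of `TIW.lim_pair` with the scale: the number of the walk with `n` steps is the law `nuW` of
a scale `2 ^ l` that is as large as we like.
-/

set_option autoImplicit false

namespace HexObs

namespace TIW

open Finset TS SDN Filter

open LimA

/-- two ensembles, one number: the law of the scale `2 ^ l`, `l` as large as we like (copy of `TIW.lim_pair`) -/
theorem lim_pairL (hFe : FeTog) (hNw : NwTog) (hNi : NiceSt) {Q : Set (List Bool)} (hQ : ∃ r0, ∀ r, r0 ≤ r → Inside r Q)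
    {e : ℝ} (he : 0 < e) (L0 : ℕ) (P Q' : Bool → ℕ → List Bool → ℝ) (hE : ∀ b, Ens (P b) (Q' b))
    (hP1 : ∀ b n t, P b n t ≤ 1 / cS n) :
    ∃ n0 : ℕ, ∀ nn : Bool → ℕ, (∀ b, n0 ≤ nn b) → ∃ l : ℕ, L0 ≤ l ∧ ∀ b,
      |∑ t ∈ sawF (nn b), P b (nn b) t * TIP.ind (t ∈ Q) - nuW (2 ^ l) Q * ∑ t ∈ sawF (nn b), P b (nn b) t| ≤ e := by
  classical
  obtain ⟨r0, hr0⟩ := hQ
  -- the constants
  obtain ⟨κ, CY, m, lN, hκ, hnice⟩ := hNi (e / 4) (by positivity)
  obtain ⟨C0, l1, hC0, hlow⟩ := lowSt_of hFe m κ CY hκ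
  obtain ⟨C2, hC2, hmom⟩ := mom2_of hFe
  have hinn := innSt hFe
  obtain ⟨M, hM⟩ := exists_nat_gt (2 * (4 * C0 * C2 / e) ^ 2)
  have hMR : (0 : ℝ) < M := lt_of_le_of_lt (by positivity) hM
  have hM0 : 0 < M := by exact_mod_cast hMR
  obtain ⟨δ, hδd⟩ : ∃ δ : ℝ, δ = e / (16 * C0) := ⟨_, rfl⟩
  have hδ : 0 < δ := by rw [hδd]; positivity
  obtain ⟨s, hsd⟩ : ∃ s : ℝ, s = e / (16 * C0) := ⟨_, rfl⟩
  have hs : 0 < s := by rw [hsd]; positivity
  -- the admissible mass of the unstable cuts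
  obtain ⟨τ, hτd⟩ : ∃ τ : ℝ, τ = s / (32 * (M : ℝ) ^ 2) := ⟨_, rfl⟩
  have hτ : 0 < τ := by rw [hτd]; positivity
  obtain ⟨l, hl0, hl⟩ := windows (fun a => 128 * (2 ^ (m + 9) * 2 ^ a) +
    64 * (2 ^ (m + 9) * 2 ^ a) * (C2 ^ 2 * Ub a) / (δ * τ)) (max L0 (max (max lN l1) r0))
  obtain ⟨N, hN⟩ := exists_nat_gt (∑ i ∈ range M, 2 * (C2 * Ub (l i)) / τ + 1)
  have hNs : 0 ≤ ∑ i ∈ range M, 2 * (C2 * Ub (l i)) / τ := sum_nonneg fun i _ => by
    have := DL.Ub_pos (l i)
    positivity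
  have hNR : (0 : ℝ) < N := by linarith
  have hN1 : 1 ≤ N := by
    have : (0 : ℕ) < N := by exact_mod_cast hNR
    omega
  have hU1 : ∀ i, 1 ≤ Ub (l i) := fun i => one_le_Ub _
  have hU0 : ∀ i, 0 < Ub (l i) := fun i => DL.Ub_pos _
  have hlN : ∀ i, lN ≤ l i := fun i => (((le_max_left _ _).trans (le_max_left _ _)).trans (le_max_right _ _)).trans (hl0 i)
  have hl1 : ∀ i, l1 ≤ l i := fun i => (((le_max_right _ _).trans (le_max_left _ _)).trans (le_max_right _ _)).trans (hl0 i)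
  have hlr : ∀ i, r0 ≤ 2 ^ l i := fun i => (((le_max_right _ _).trans (le_max_right _ _)).trans (hl0 i)).trans Nat.lt_two_pow_self.le
  have hth0 : ∀ i, 0 ≤ 64 * (2 ^ (m + 9) * 2 ^ l i) * (C2 ^ 2 * Ub (l i)) / (δ * τ) := fun i => by
    have := hU0 i
    positivity
  have hRj : ∀ i j, i < j → 128 * (2 ^ (m + 9) * 2 ^ l i) ≤ 2 ^ l j := fun i j hij => by
    have h1 := (hl i j hij).2
    have h2 := hth0 i
    have h3 : (128 * (2 ^ (m + 9) * 2 ^ l i) : ℝ) ≤ 2 ^ l j := by linarith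
    exact_mod_cast h3
  -- the ends
  choose YY hSz hgf nN hnN using fun i => hnice (l i) (hlN i)
  obtain ⟨R0, hR0d⟩ : ∃ R0 : ℕ, R0 = ∑ j ∈ range M, (8 * 2 ^ l j + 8) := ⟨_, rfl⟩
  have hR0 : ∀ j, j < M → 8 * 2 ^ l j + 8 ≤ R0 := fun j hj => by
    rw [hR0d]
    exact single_le_sum (f := fun j => 8 * 2 ^ l j + 8) (fun _ _ => Nat.zero_le _) (mem_range.2 hj)
  choose nA hnA using fun (b : Bool) (i : ℕ) => hmom (P b) (Q' b) (hE b) (2 ^ l i) Nat.one_le_two_pow
  choose nB hnB using fun (b : Bool) (i : ℕ) => hinn (P b) (Q' b) (hE b) (2 ^ l i) R0 Q (s / 2) Nat.one_le_two_pow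
    (by positivity) (hr0 _ (hlr i))
  choose nC hnC using fun (b : Bool) (i : ℕ) => hlow (P b) (Q' b) (hE b) (l i) R0 (YY i) (C0 * s / 2) (hl1 i)
    (by positivity) (hSz i) (hgf i)
  refine ⟨∑ b : Bool, ∑ i ∈ range M, (nN i + nA b i + nB b i + nC b i), fun nn hnn => ?_⟩
  have hall : ∀ b i, i < M → nN i + nA b i + nB b i + nC b i ≤ nn b := fun b i hi => by
    refine le_trans ?_ (hnn b)
    refine le_trans ?_ (single_le_sum (f := fun b => ∑ i ∈ range M, (nN i + nA b i + nB b i + nC b i))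
      (fun _ _ => Nat.zero_le _) (mem_univ b))
    exact single_le_sum (f := fun i => nN i + nA b i + nB b i + nC b i) (fun _ _ => Nat.zero_le _) (mem_range.2 hi)
  -- the offset
  obtain ⟨v, hv0, hv1, hv⟩ := offI Bool univ (fun b => sawF (nn b)) (fun b => P b (nn b)) (fun b t => (hE b).p0 _ t)
    (fun b _ t ht => sawF_SA ht) M N (fun i => 2 ^ l i) (fun i => 2 ^ (m + 9) * 2 ^ l i) (fun j => 2 ^ l j)
    (fun j => δ * Ub (l j)) hN1 (fun j => mul_pos hδ (hU0 j))
    (fun i => ⟨Nat.one_le_two_pow, Nat.le_mul_of_pos_left _ (by positivity)⟩) (fun i j hij _ => hRj i j hij)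
  have hmass : ∀ b, ∑ t ∈ sawF (nn b), P b (nn b) t ≤ 1 := fun b => (hE b).p1 _
  have hNP : ∀ b i, i < M → ∑ t ∈ sawF (nn b), P b (nn b) t * NP (2 ^ l i) t ≤ C2 * Ub (l i) := fun b i hi => by
    have h1 := hnA b i (nn b) (by have := hall b i hi; omega)
    have h2 := TIP.cs_wt (S := sawF (nn b)) (p := P b (nn b)) ((hE b).p0 _) (NP (2 ^ l i)) (fun _ => 1)
      (A := C2 * Ub (l i)) (B := 1) (by have := hU0 i; positivity) h1 (by simpa using hmass b)
    rw [Real.sqrt_one, mul_one] at h2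
    refine le_trans (le_of_eq ?_) ((le_abs_self _).trans h2)
    exact sum_congr rfl fun t _ => by ring
  have hNN : ∀ b i j, i < M → j < M → ∑ t ∈ sawF (nn b), P b (nn b) t * (NP (2 ^ l i) t * NP (2 ^ l j) t) ≤
      C2 * Ub (l i) * (C2 * Ub (l j)) := fun b i j hi hj => by
    have h1 := hnA b i (nn b) (by have := hall b i hi; omega)
    have h1' := hnA b j (nn b) (by have := hall b j hj; omega)
    have hj0 := hU0 j
    have h2 := TIP.cs_wt (S := sawF (nn b)) (p := P b (nn b)) ((hE b).p0 _) (NP (2 ^ l i)) (NP (2 ^ l j))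
      (A := C2 * Ub (l i)) (B := (C2 * Ub (l j)) ^ 2) (by have := hU0 i; positivity) h1 h1'
    rw [Real.sqrt_sq (by positivity)] at h2
    exact (le_abs_self _).trans h2
  have hbad : ∑ b : Bool, ∑ i ∈ range M, ∑ j ∈ (range M).filter (fun j => i < j),
      2 * ∑ t ∈ sawF (nn b), P b (nn b) t * (NP (2 ^ l i) t * (64 * ((2 ^ (m + 9) * 2 ^ l i : ℕ) : ℝ) /
        (((2 ^ l j : ℕ) : ℝ) * (δ * Ub (l j))) * NP (2 ^ l j) t + 2 / N)) ≤ s / 4 := by
    have hterm : ∀ b, ∀ i ∈ range M, ∀ j ∈ (range M).filter (fun j => i < j),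
        2 * ∑ t ∈ sawF (nn b), P b (nn b) t * (NP (2 ^ l i) t * (64 * ((2 ^ (m + 9) * 2 ^ l i : ℕ) : ℝ) /
        (((2 ^ l j : ℕ) : ℝ) * (δ * Ub (l j))) * NP (2 ^ l j) t + 2 / N)) ≤ 4 * τ := by
      intro b i hi j hj
      rw [mem_range] at hi
      rw [mem_filter, mem_range] at hj
      have hi0 := hU0 i
      have hj0 := hU0 j
      obtain ⟨α, hα⟩ : ∃ α : ℝ, α = 64 * ((2 ^ (m + 9) * 2 ^ l i : ℕ) : ℝ) / (((2 ^ l j : ℕ) : ℝ) * (δ * Ub (l j))) :=
        ⟨_, rfl⟩
      rw [← hα]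
      have hα0 : 0 ≤ α := by rw [hα]; positivity
      have h1 : ∑ t ∈ sawF (nn b), P b (nn b) t * (NP (2 ^ l i) t * (α * NP (2 ^ l j) t + 2 / N)) =
          α * ∑ t ∈ sawF (nn b), P b (nn b) t * (NP (2 ^ l i) t * NP (2 ^ l j) t) +
            2 / N * ∑ t ∈ sawF (nn b), P b (nn b) t * NP (2 ^ l i) t := by
        rw [mul_sum, mul_sum, ← sum_add_distrib]
        exact sum_congr rfl fun t _ => by ring
      rw [h1]
      have h2 : α * ∑ t ∈ sawF (nn b), P b (nn b) t * (NP (2 ^ l i) t * NP (2 ^ l j) t) ≤ τ := by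
        refine (mul_le_mul_of_nonneg_left (hNN b i j hi hj.1) hα0).trans ?_
        have h3 := (hl i j hj.2).2
        have h4 : 64 * (2 ^ (m + 9) * 2 ^ l i) * (C2 ^ 2 * Ub (l i)) / (δ * τ) ≤ 2 ^ l j := by
          have : (0 : ℝ) ≤ 128 * (2 ^ (m + 9) * 2 ^ l i) := by positivity
          linarith
        rw [div_le_iff₀ (by positivity)] at h4
        rw [hα, div_mul_eq_mul_div, div_le_iff₀ (by positivity)]
        push_cast
        calc 64 * (2 ^ (m + 9) * 2 ^ l i) * (C2 * Ub (l i) * (C2 * Ub (l j))) =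
            64 * (2 ^ (m + 9) * 2 ^ l i) * (C2 ^ 2 * Ub (l i)) * Ub (l j) := by ring
          _ ≤ 2 ^ l j * (δ * τ) * Ub (l j) := mul_le_mul_of_nonneg_right h4 hj0.le
          _ = τ * (2 ^ l j * (δ * Ub (l j))) := by ring
      have h3 : 2 / N * ∑ t ∈ sawF (nn b), P b (nn b) t * NP (2 ^ l i) t ≤ τ := by
        refine (mul_le_mul_of_nonneg_left (hNP b i hi) (by positivity)).trans ?_
        have h4 : 2 * (C2 * Ub (l i)) / τ ≤ N := by
          have h5 := single_le_sum (f := fun i => 2 * (C2 * Ub (l i)) / τ) (s := range M) (fun k _ => by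
            have := hU0 k
            positivity) (mem_range.2 hi)
          linarith
        rw [div_le_iff₀ hτ] at h4
        rw [div_mul_eq_mul_div, div_le_iff₀ hNR]
        linarith
      linarith
    calc _ ≤ ∑ _b : Bool, ∑ i ∈ range M, ∑ _j ∈ (range M).filter (fun j => i < j), 4 * τ :=
          sum_le_sum fun b _ => sum_le_sum fun i hi => sum_le_sum fun j hj => hterm b i hi j hj
      _ ≤ ∑ _b : Bool, ∑ _i ∈ range M, M * (4 * τ) := by
          refine sum_le_sum fun b _ => sum_le_sum fun i _ => ?_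
          rw [sum_const, nsmul_eq_mul]
          refine mul_le_mul_of_nonneg_right ?_ (by positivity)
          exact_mod_cast (card_le_card (filter_subset _ _)).trans (le_of_eq (card_range M))
      _ = 8 * (M : ℝ) ^ 2 * τ := by
          simp only [sum_const, nsmul_eq_mul, card_range, card_univ, Fintype.card_bool]
          push_cast
          ring
      _ = s / 4 := by
          rw [hτd]
          field_simp
          norm_num
  have hun : ∀ b i, i < M → unM (P b) (nn b) (2 ^ l i)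
      (UnI M i (2 ^ (m + 9) * 2 ^ l i) (fun j => 2 ^ l j) (fun j => δ * Ub (l j)) v) ≤ s / 4 := fun b i hi =>
    (hv b (mem_univ b) i hi).trans hbad
  -- the soft part
  obtain ⟨i, hi, hfin⟩ := TIP.softw_fam (univ : Finset Bool) (S := fun b => sawF (nn b)) (p := fun b => P b (nn b))
    (fun b _ t => (hE b).p0 _ t) (fun b _ => hmass b) (Q := fun _ => Q)
    (D := fun _ j t => Dw (2 ^ l j) 0 (δ * Ub (l j)) v t) (W := fun _ i t => Nw (2 ^ l i) 0 t / Ub (l i))
    (N := fun _ i => Nc (2 ^ l i) κ (YY i)) hM0 (c := 1 / C0) (ε := e / 4) (δ := δ) (C := C2) (s := s)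
    (ν := fun i => nuW (2 ^ l i) Q) (by positivity) hC2.le hδ.le (fun i => nuW_nonneg _ _) (fun i => nuW_le _ _)
    (fun b _ i hi => by
      have hUi := hU0 i
      have hUi1 := hU1 i
      have hpat : ∀ φ : (ℕ → ℤ) → ℝ, (∀ x, |φ x| ≤ 1) →
          Pat (2 ^ (m + 9) * 2 ^ l i) R0 (fun y t => φ (TIP.pd (fun j t => Dw (2 ^ l j) y (δ * Ub (l j)) v t) (i + 1) M t))
            (UnI M i (2 ^ (m + 9) * 2 ^ l i) (fun j => 2 ^ l j) (fun j => δ * Ub (l j)) v) := fun φ hφ =>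
        patI hNw M i (2 ^ (m + 9) * 2 ^ l i) R0 (fun j => 2 ^ l j) (fun j => δ * Ub (l j)) v φ hφ
          (Nat.one_le_iff_ne_zero.2 (by positivity)) (fun j => mul_pos hδ (hU0 j)) (fun j hj _ => hRj i j hj)
          (fun j _ hj => hR0 j hj)
      have hu := hun b i hi
      refine ⟨fun t _ => div_nonneg (Nw_nonneg _ _ _) hUi.le, fun t _ => disc hδ hUi hv0 hv1, ?_, fun φ hφ => ?_,
        fun φ hφ => ?_, ?_⟩
      · have h1 := hnA b i (nn b) (by have := hall b i hi; omega)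
        have h2 : ∑ t ∈ sawF (nn b), P b (nn b) t * (Nw (2 ^ l i) 0 t / Ub (l i)) ^ 2 ≤
            (∑ t ∈ sawF (nn b), P b (nn b) t * NP (2 ^ l i) t ^ 2) / Ub (l i) ^ 2 := by
          rw [sum_div]
          refine sum_le_sum fun t _ => ?_
          rw [div_pow, mul_div_assoc]
          refine mul_le_mul_of_nonneg_left ?_ ((hE b).p0 _ t)
          refine div_le_div_of_nonneg_right ?_ (by positivity)
          exact pow_le_pow_left₀ (Nw_nonneg _ _ _) (Nw_le_NP _ _ _) 2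
        refine h2.trans ?_
        rw [div_le_iff₀ (by positivity)]
        calc _ ≤ (C2 * UU (2 ^ l i)) ^ 2 := h1
          _ = C2 ^ 2 * Ub (l i) ^ 2 := by
            rw [mul_pow]
            rfl
      · have h1 := hnB b i (nn b) (by have := hall b i hi; omega) (2 ^ (m + 9) * 2 ^ l i) _ _
          (Nat.le_mul_of_pos_left _ (by positivity)) (hpat φ hφ)
        have h2 : ∑ t ∈ sawF (nn b), P b (nn b) t * (Nw (2 ^ l i) 0 t / Ub (l i) * ((TIP.ind (t ∈ Q) - nuW (2 ^ l i) Q) *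
            φ (TIP.pd (fun j t => Dw (2 ^ l j) 0 (δ * Ub (l j)) v t) (i + 1) M t))) =
            (∑ t ∈ sawF (nn b), P b (nn b) t * (Nw (2 ^ l i) 0 t * ((TIP.ind (t ∈ Q) - nuW (2 ^ l i) Q) *
            φ (TIP.pd (fun j t => Dw (2 ^ l j) 0 (δ * Ub (l j)) v t) (i + 1) M t)))) / Ub (l i) := by
          rw [sum_div]
          exact sum_congr rfl fun t _ => by ring
        rw [h2, abs_div, abs_of_pos hUi, div_le_iff₀ hUi]
        refine h1.trans ?_
        nlinarith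
      · have h1 := hnC b i (nn b) (by have := hall b i hi; omega) (2 ^ (m + 9) * 2 ^ l i) _ _ le_rfl
          (fun y t => (hφ _).1) (hpat φ fun x => by rw [abs_of_nonneg (hφ x).1]; exact (hφ x).2)
        have h2 : ∑ t ∈ sawF (nn b), P b (nn b) t * (Nw (2 ^ l i) 0 t / Ub (l i) *
            φ (TIP.pd (fun j t => Dw (2 ^ l j) 0 (δ * Ub (l j)) v t) (i + 1) M t)) =
            (∑ t ∈ sawF (nn b), P b (nn b) t * (Nw (2 ^ l i) 0 t *
            φ (TIP.pd (fun j t => Dw (2 ^ l j) 0 (δ * Ub (l j)) v t) (i + 1) M t))) / Ub (l i) := by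
          rw [sum_div]
          exact sum_congr rfl fun t _ => by ring
        rw [h2]
        obtain ⟨X, hX⟩ : ∃ X, X = ∑ t ∈ sawF (nn b), P b (nn b) t * (TIP.ind (t ∈ Nc (2 ^ l i) κ (YY i)) *
            φ (TIP.pd (fun j t => Dw (2 ^ l j) 0 (δ * Ub (l j)) v t) (i + 1) M t)) := ⟨_, rfl⟩
        obtain ⟨S, hS⟩ : ∃ S, S = ∑ t ∈ sawF (nn b), P b (nn b) t * (Nw (2 ^ l i) 0 t *
            φ (TIP.pd (fun j t => Dw (2 ^ l j) 0 (δ * Ub (l j)) v t) (i + 1) M t)) := ⟨_, rfl⟩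
        rw [← hX, ← hS] at h1
        rw [← hX, ← hS]
        have h3 : Ub (l i) * X ≤ Ub (l i) * (C0 * (S / Ub (l i) + s)) := by
          have e1 : Ub (l i) * (C0 * (S / Ub (l i) + s)) = C0 * S + C0 * (Ub (l i) * s) := by
            field_simp
          rw [e1]
          have h4 : C0 * unM (P b) (nn b) (2 ^ l i) (UnI M i (2 ^ (m + 9) * 2 ^ l i) (fun j => 2 ^ l j)
              (fun j => δ * Ub (l j)) v) ≤ C0 * (s / 4) := mul_le_mul_of_nonneg_left hu hC0.le
          have h5 : C0 * (1 * s) ≤ C0 * (Ub (l i) * s) :=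
            mul_le_mul_of_nonneg_left (mul_le_mul_of_nonneg_right hUi1 hs.le) hC0.le
          have h6 : 0 < C0 * s := by positivity
          linarith
        have h4 := le_of_mul_le_mul_left h3 hUi
        rw [one_div, inv_mul_le_iff₀ hC0]
        exact h4
      · refine (ms_le (hP1 b) (nn b) {t | t ∉ Nc (2 ^ l i) κ (YY i)}).trans ?_
        exact hnN i (nn b) (by have := hall b i hi; omega))
  refine ⟨l i, (le_max_left _ _).trans (hl0 i), fun b => ?_⟩
  refine (hfin b (mem_univ b)).trans ?_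
  have h1 : Real.sqrt ((univ : Finset Bool).card / M) ≤ e / (4 * C0 * C2) := by
    rw [Real.sqrt_le_left (by positivity)]
    rw [card_univ, Fintype.card_bool, div_le_iff₀ hMR]
    push_cast
    have h2 : (4 * C0 * C2 / e) ^ 2 * (e / (4 * C0 * C2)) ^ 2 = 1 := by
      field_simp
    have h3 : 0 < (e / (4 * C0 * C2)) ^ 2 := by positivity
    nlinarith
  have h2 : C2 * Real.sqrt ((univ : Finset Bool).card / M) ≤ C2 * (e / (4 * C0 * C2)) :=
    mul_le_mul_of_nonneg_left h1 hC2.le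
  have h3 : (2 * s + 2 * δ + C2 * Real.sqrt ((univ : Finset Bool).card / M)) / (1 / C0) ≤
      (2 * s + 2 * δ + C2 * (e / (4 * C0 * C2))) / (1 / C0) :=
    div_le_div_of_nonneg_right (by linarith) (by positivity)
  have h4 : (2 * s + 2 * δ + C2 * (e / (4 * C0 * C2))) / (1 / C0) = e / 2 := by
    rw [hsd, hδd]
    field_simp
    norm_num
  linarith

end TIW

end HexObs
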