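import Pool.Agent.ATR.Defs
import Pool.Agent.ATR.DomL
import Pool.Agent.TIW.IWF
import Pool.Agent.TIW.Hpm
import Pool.Agent.TIW.ZBu
import Pool.Agent.TPC.NaC
import Pool.Agent.TIP.RevM

/-!
ATR, row A (helper45): **`dom`**: the infinite walk is dominated by the words of large boxes.

The number of `lim_pairL` is `nuW (2 ^ l) Q`, the law of the half plane words of the scale `2 ^ l`, `l` as large as we like. In
front of such a word `E` we put the reversal `A` of a half plane word without a cut of the same scale (`RA`): all of `A` is behind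
its tip, so `A ++ E` is a word of the box `l + J` of the class `Q`, and the decomposition is unique for a given direction of the
tip (`unq`).
-/

set_option autoImplicit false

namespace HexObs

namespace ATR

open Finset TS SDN NTA TIW

open scoped ENNReal

namespace DomA

/-- the words whose reversal, with one more letter, is in V -/
def RA (V : Set (List Bool)) : Set (List Bool) := {A | ∃ c, rev A ++ [c] ∈ V}

/-- mass of the reversed words -/
lemma gf_RA {V : Set (List Bool)} (hV : ∀ v ∈ V, v ≠ []) : gf V ≤ 2 * gf (RA V) := by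
  have h1 : gf V ≤ gf {e | ∃ c, e ++ [c] ∈ V} * gf {t : List Bool | t = [true] ∨ t = [false]} := by
    refine gf_le_mul fun v hv => ?_
    obtain ⟨x, hx⟩ := TPF.last_split (hV v hv)
    refine ⟨v.dropLast, ⟨x, by rw [← hx]; exact hv⟩, [x], ?_, hx⟩
    cases x
    · exact Or.inr rfl
    · exact Or.inl rfl
  have h2 : gf {e | ∃ c, e ++ [c] ∈ V} = gf (RA V) := (TD.gf_rev_eq {e | ∃ c, e ++ [c] ∈ V}).symm
  rw [h2, mul_comm] at h1
  exact h1.trans (mul_le_mul' TPF.gf_let le_rfl)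

section

variable {m : ℕ} {A : List Bool} {c : Bool}

/-- vertices of the reversed word -/
lemma vx_RA (A : List Bool) (c : Bool) : ∃ u : Pt, nrm u = 1 ∧ mulE u up = -de A ∧ ∀ i, i ≤ A.length + 1 →
    vx oo up A (A.length + 1 - i) = en A + de A + mulE u (vx oo up (rev A ++ [c]) i) := by
  have he : -(de A) ∈ dirs := by
    have h := de_mem A
    revert h
    generalize de A = d
    revert d
    decide
  obtain ⟨h1, h2⟩ := frame_dir he
  refine ⟨_, mem_dirs.1 h1, h2.symm, fun i hi => ?_⟩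
  have h3 := vx_rev oo up A i hi
  have e1 : dx up A A.length = de A := rfl
  rw [e1, h2, vx_frameN] at h3
  have e2 : tip oo up A = en A + de A := rfl
  rw [vx_append (by rw [rev_length]; exact hi), ← e2]
  exact h3.symm

lemma RA_SA (h : rev A ++ [c] ∈ SSt m) : A ∈ SA := by
  obtain ⟨h1, h2⟩ := BAR13.mem_SSt.1 h
  have hv : rev A ++ [c] ∈ SA := ⟨fun _ _ _ => Set.mem_univ _, h2⟩
  have h3 := TIP.RevM.rev_SA hv
  rw [TOG.rev_append', rev_rev] at h3
  have e : (rev [c] ++ A).drop 1 = A := by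
    cases c <;> rfl
  rwa [e] at h3

/-- all vertices are behind the tip -/
lemma RA_front (h : rev A ++ [c] ∈ SSt m) {i : ℕ} (hi : i ≤ A.length) : ip (vx oo up A i - en A) (de A) ≤ 0 := by
  obtain ⟨h1, -⟩ := BAR13.mem_SSt.1 h
  obtain ⟨u, hu, hup, hf⟩ := vx_RA A c
  have hl : (rev A ++ [c]).length = A.length + 1 := by rw [List.length_append, rev_length, List.length_singleton]
  have h2 := h1 (A.length + 1 - i) (by omega) (by omega)
  have h3 := lev_mod (rev A ++ [c]) (A.length + 1 - i)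
  have h4 : 2 ≤ lev (rev A ++ [c]) (A.length + 1 - i) := by
    split_ifs at h3 <;> omega
  have h5 := hf (A.length + 1 - i) (by omega)
  have e1 : A.length + 1 - (A.length + 1 - i) = i := by omega
  rw [e1] at h5
  have h6 : ip (mulE u (vx oo up (rev A ++ [c]) (A.length + 1 - i))) (mulE u up) =
      lev (rev A ++ [c]) (A.length + 1 - i) := by
    rw [ip_mulE, hu, one_mul]
    rfl
  have h7 : vx oo up A i - en A = de A + mulE u (vx oo up (rev A ++ [c]) (A.length + 1 - i)) := by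
    rw [h5]
    abel
  have h8 : ip (de A) (de A) = 2 := by
    have hd := de_mem A
    revert hd
    generalize de A = d
    revert d
    decide
  have h9 : ip (mulE u (vx oo up (rev A ++ [c]) (A.length + 1 - i))) (de A) =
      -ip (mulE u (vx oo up (rev A ++ [c]) (A.length + 1 - i))) (mulE u up) := by
    rw [hup]
    unfold ip
    simp only [Prod.fst_neg, Prod.snd_neg]
    ring
  rw [h7, ip_add_left, h8, h9, h6]
  linarith

lemma RA_Fe (h : rev A ++ [c] ∈ SSt m) (r : ℕ) : A ∈ Fe r := fun _ hi h0 =>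
  absurd (RA_front h hi) (not_le.2 h0)

/-- size -/
lemma RA_hn {L : ℕ} (h : rev A ++ [c] ∈ WL L) {i : ℕ} (hi : i ≤ A.length) : hn (vx oo up A i) ≤ 12 * 2 ^ L + 8 := by
  obtain ⟨u, hu, -, hf⟩ := vx_RA A c
  have hl : (rev A ++ [c]).length = A.length + 1 := by rw [List.length_append, rev_length, List.length_singleton]
  have h1 := hf (A.length + 1 - i) (by omega)
  have h2 := hf (A.length + 1) le_rfl
  have e1 : A.length + 1 - (A.length + 1 - i) = i := by omega
  rw [e1] at h1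
  rw [Nat.sub_self] at h2
  have e0 : vx oo up A 0 = 0 := rfl
  rw [e0] at h2
  have h3 : vx oo up A i = mulE u (vx oo up (rev A ++ [c]) (A.length + 1 - i)) -
      mulE u (vx oo up (rev A ++ [c]) (A.length + 1)) := by
    rw [h1]
    have h4 : en A + de A = -mulE u (vx oo up (rev A ++ [c]) (A.length + 1)) := eq_neg_of_add_eq_zero_left h2.symm
    rw [h4]
    abel
  rw [h3]
  refine (hn_sub _ _).trans ?_
  rw [hn_mulE hu, hn_mulE hu]
  have h5 := hn_WL h (i := A.length + 1 - i) (by omega)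
  have h6 := hn_WL h (i := A.length + 1) (by omega)
  linarith

end

/-- **uniqueness of the decomposition, given the direction of the tip** -/
lemma unq {m r : ℕ} {A A' E E' : List Bool} (hA : A ∈ RA (BAR.NA m)) (hA' : A' ∈ RA (BAR.NA m)) (hd : de A = de A')
    (hE' : E' ∈ Hp r) (h : A ++ E = A' ++ E') (hle : A'.length ≤ A.length) : A = A' := by
  obtain ⟨c, hc⟩ := hA
  obtain ⟨c', hc'⟩ := hA'
  obtain ⟨Z, rfl⟩ : ∃ Z, A = A' ++ Z := by
    rcases List.append_eq_append_iff.1 h with ⟨X, h1, -⟩ | ⟨X, h1, -⟩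
    · have h2 := congrArg List.length h1
      rw [List.length_append] at h2
      have h3 : X = [] := List.eq_nil_iff_length_eq_zero.2 (by omega)
      rw [h3, List.append_nil] at h1
      exact ⟨[], by rw [List.append_nil, h1]⟩
    · exact ⟨X, h1⟩
  have hZE : E' = Z ++ E := by
    rw [List.append_assoc] at h
    exact (List.append_cancel_left h).symm
  by_contra hne
  have hZ0 : Z ≠ [] := fun h0 => hne (by rw [h0, List.append_nil])
  have hZl : 1 ≤ Z.length := List.length_pos_iff.2 hZ0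
  have hZB : Z ∈ BU := (zbu r A' Z E (RA_Fe hc.1 (2 * r)) (hZE ▸ hE') hd).1
  obtain ⟨n, hn⟩ := SDN.BU_rev hZB
  have e1 : rev (A' ++ Z) ++ [c] = rev Z ++ (rev A' ++ [c]) := by rw [TOG.rev_append', List.append_assoc]
  have hv := hc
  rw [e1] at hv
  obtain ⟨h1, -⟩ := BAR13.mem_SSt.1 hv.1
  have hrl : (rev Z).length = Z.length := rev_length Z
  have hn1 : 1 ≤ n := by
    have h2 := (h1 (rev Z).length (by omega) (by rw [List.length_append]; omega)).1
    rw [lev_append (by omega), (mem_Brd.1 hn).2.2.2] at h2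
    omega
  refine hv.2 n hn1 ⟨rev Z, rev A' ++ [c], hn, fun i hi1 hi2 => ?_, rfl⟩
  have h3 := BAR.pos_SSt hc'.1 i hi1 (by
    rw [List.length_append, List.length_singleton] at hi2 ⊢
    exact hi2)
  rw [List.length_append, List.length_singleton] at hi2
  rw [lev_append (by omega)] at h3 ⊢
  exact h3

/-- words of the box from the norm -/
lemma WL_of_hn {K : ℕ} {t : List Bool} (ht : t ∈ SA) (h : ∀ i, i ≤ t.length → hn (vx oo up t i) ≤ 2 ^ K) : t ∈ WL K := by
  refine ⟨ht, fun i hi dir => ?_⟩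
  have hd : SDN.hd dir ∈ dirs := by cases dir <;> decide
  have h1 := ip_le_hn (vx oo up t i) hd
  have hd' : -SDN.hd dir ∈ dirs := by cases dir <;> decide
  have h2 := ip_le_hn (vx oo up t i) hd'
  have h3 : ip (vx oo up t i) (-SDN.hd dir) = -ip (vx oo up t i) (SDN.hd dir) := by
    unfold ip
    simp only [Prod.fst_neg, Prod.snd_neg]
    ring
  rw [h3] at h2
  have h4 := h i hi
  unfold row lvl
  rw [abs_le]
  constructor <;> omega

/-- half plane words of the class Q with the cutoff -/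
def EQ (l : ℕ) (Q : Set (List Bool)) : Set (List Bool) :=
  {E | (E ∈ Hp (2 ^ l) ∧ E.length % 2 = 0) ∧ chi (2 ^ l) E ≠ 0 ∧ E ∈ Q}

/-- **the gluing** -/
theorem glue {l J : ℕ} {Q : Set (List Bool)} (hQ : Inside (2 ^ l) Q) :
    gf {v | v ∈ TPF.NAb true (2 ^ l) ∧ v ∈ WL (l + J)} * gf (EQ l Q) ≤ 12 * gf (WL (l + J + 5) ∩ Q) := by
  obtain ⟨V, hV⟩ : ∃ V, V = {v | v ∈ TPF.NAb true (2 ^ l) ∧ v ∈ WL (l + J)} := ⟨_, rfl⟩
  rw [← hV]
  have hsub : RA V ⊆ ⋃ d ∈ dirs, {A | A ∈ RA V ∧ de A = d} := by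
    intro A hA
    rw [Set.mem_iUnion₂]
    exact ⟨de A, de_mem A, hA, rfl⟩
  have hVN : ∀ {A : List Bool} {c : Bool}, rev A ++ [c] ∈ V → rev A ++ [c] ∈ BAR.NA (2 ^ l) ∧ rev A ++ [c] ∈ WL (l + J) := by
    intro A c h
    rw [hV] at h
    exact ⟨h.1.1, h.2⟩
  have hone : ∀ d ∈ dirs, gf {A | A ∈ RA V ∧ de A = d} * gf (EQ l Q) ≤ gf (WL (l + J + 5) ∩ Q) := by
    intro d _
    refine mul_le_gf (fun A hA E hE => ?_) fun A hA E hE A' hA' E' hE' h => ?_
    · obtain ⟨⟨c, hc⟩, -⟩ := hA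
      obtain ⟨h1, h2⟩ := hVN hc
      obtain ⟨⟨hE1, -⟩, hE2, hE3⟩ := hE
      have hAS := RA_SA h1.1
      have hAE : A ++ E ∈ SA := glue_SA le_rfl hAS (RA_Fe h1.1 (2 ^ l)) hE1
      refine ⟨WL_of_hn hAE fun i hi => ?_, (hQ A E (RA_Fe h1.1 _) hE1 hAE hE2).2 hE3⟩
      have hp : (1 : ℤ) ≤ 2 ^ (l + J) := one_le_pow₀ (by norm_num)
      have hp2 : (2 : ℤ) ^ l ≤ 2 ^ (l + J) := pow_le_pow_right₀ (by norm_num) (by omega)
      have hp3 : (2 : ℤ) ^ (l + J + 5) = 32 * 2 ^ (l + J) := by rw [pow_add]; ring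
      rcases Nat.lt_or_ge A.length i with h3 | h3
      · rw [List.length_append] at hi
        obtain ⟨j, rfl⟩ : ∃ j, i = A.length + j := ⟨i - A.length, by omega⟩
        rw [vx_app]
        refine (hn_add _ _).trans ?_
        rw [hn_mulE (nrm_rt A)]
        have h4 := RA_hn h2 (le_refl A.length)
        have h5 := hE1.2 j (by omega)
        have e : vx oo up A A.length = en A := rfl
        rw [e] at h4
        push_cast at h5
        rw [hp3]
        linarith
      · rw [vx_append (by omega)]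
        have h4 := RA_hn h2 h3
        rw [hp3]
        linarith
    · obtain ⟨⟨c, hc⟩, hd⟩ := hA
      obtain ⟨⟨c', hc'⟩, hd'⟩ := hA'
      have g1 : A ∈ RA (BAR.NA (2 ^ l)) := ⟨c, (hVN hc).1⟩
      have g2 : A' ∈ RA (BAR.NA (2 ^ l)) := ⟨c', (hVN hc').1⟩
      rcases Nat.le_total A'.length A.length with hle | hle
      · exact unq g1 g2 (hd.trans hd'.symm) hE'.1.1 h hle
      · exact (unq g2 g1 (hd'.trans hd.symm) hE.1.1 h.symm hle).symm
  have hne : ∀ v ∈ V, v ≠ [] := by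
    rintro v hv rfl
    rw [hV] at hv
    have := hv.1.2
    simp at this
  calc gf V * gf (EQ l Q) ≤ (2 * ∑ d ∈ dirs, gf {A | A ∈ RA V ∧ de A = d}) * gf (EQ l Q) :=
        mul_le_mul' ((gf_RA hne).trans (mul_le_mul' le_rfl ((gf_mono hsub).trans (BAR.gf_bi_le _ _)))) le_rfl
    _ = 2 * ∑ d ∈ dirs, gf {A | A ∈ RA V ∧ de A = d} * gf (EQ l Q) := by rw [mul_assoc, Finset.sum_mul]
    _ ≤ 2 * ∑ _d ∈ dirs, gf (WL (l + J + 5) ∩ Q) := mul_le_mul' le_rfl (Finset.sum_le_sum hone)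
    _ = 12 * gf (WL (l + J + 5) ∩ Q) := by
        rw [Finset.sum_const, nsmul_eq_mul, ← mul_assoc]
        congr 1
        have : dirs.card = 6 := by decide
        rw [this]
        norm_num

end DomA

open DomA

/-- the law of the scale 2 ^ l is dominated by the words of the box -/
theorem nuW_dom : ∃ (C : ℝ) (J l1 : ℕ), 0 < C ∧ ∀ (l : ℕ) (Q : Set (List Bool)) (y : ℝ), l1 ≤ l → Inside (2 ^ l) Q → 0 ≤ y →
    gf (WL (l + J + 5) ∩ Q) ≤ ENNReal.ofReal (y * Ub (l + J + 5)) * Xb (l + J + 5) ^ 2 → nuW (2 ^ l) Q ≤ C * y := by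
  obtain ⟨c, l0, hc, hlow⟩ := hpLow
  obtain ⟨J, k0, hJ⟩ := TPC.na_half
  obtain ⟨D, hD, hX⟩ := NTA.Xb_pow
  have hD0 : (0 : ℝ) < D := by linarith
  refine ⟨192 * 2 ^ (J + 5) * (D ^ (J + 5)) ^ 2 / c, J, max l0 k0, by positivity, fun l Q y hl hQ hy hG => ?_⟩
  have hl0 : l0 ≤ l := (le_max_left _ _).trans hl
  have hk0 : k0 ≤ l := (le_max_right _ _).trans hl
  have hX0 : Xb l ≠ 0 := Xb_ne_zero l
  have hXt : Xb l ≠ ⊤ := Xb_ne_top l
  obtain ⟨X, hXd⟩ : ∃ X : ℝ, X = (Xb l).toReal := ⟨_, rfl⟩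
  have hXp : 0 < X := by rw [hXd]; exact ENNReal.toReal_pos hX0 hXt
  have hXe : Xb l = ENNReal.ofReal X := by rw [hXd, ENNReal.ofReal_toReal hXt]
  have hU0 := DL.Ub_pos l
  -- the words with the cutoff
  have h1 : Xb l * gf (EQ l Q) ≤ ENNReal.ofReal (192 * 2 ^ (J + 5) * (D ^ (J + 5)) ^ 2 * y * Ub l) * Xb l ^ 2 := by
    have h2 : Xb l ≤ 16 * gf {v | v ∈ TPF.NAb true (2 ^ l) ∧ v ∈ WL (l + J)} := by
      refine (TPC.Xb_le_NAb true le_rfl).trans ?_
      have h3 := hJ l (2 ^ l) (l + J) true hk0 le_rfl (Nat.pow_lt_pow_right (by norm_num) (by omega)) le_rfl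
      calc 8 * gf (TPF.NAb true (2 ^ l)) ≤ 8 * (2 * gf {v | v ∈ TPF.NAb true (2 ^ l) ∧ v ∈ WL (l + J)}) :=
            mul_le_mul' le_rfl h3
        _ = _ := by ring
    have h4 : Xb (l + J + 5) ≤ ENNReal.ofReal (D ^ (J + 5)) * Xb l := by
      rw [add_assoc]
      exact hX l (J + 5)
    have h5 : Ub (l + J + 5) ≤ 2 ^ (J + 5) * Ub l := by
      rw [add_assoc]
      exact TPC.Ub_pow l (J + 5)
    calc Xb l * gf (EQ l Q) ≤ 16 * gf {v | v ∈ TPF.NAb true (2 ^ l) ∧ v ∈ WL (l + J)} * gf (EQ l Q) :=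
          mul_le_mul' h2 le_rfl
      _ ≤ 16 * (12 * gf (WL (l + J + 5) ∩ Q)) := by
          rw [mul_assoc]
          exact mul_le_mul' le_rfl (glue hQ)
      _ ≤ 16 * (12 * (ENNReal.ofReal (y * (2 ^ (J + 5) * Ub l)) * (ENNReal.ofReal (D ^ (J + 5)) * Xb l) ^ 2)) := by
          refine mul_le_mul' le_rfl (mul_le_mul' le_rfl (hG.trans ?_))
          refine mul_le_mul' (ENNReal.ofReal_le_ofReal (mul_le_mul_of_nonneg_left h5 hy)) ?_
          gcongr
      _ = _ := by
          rw [mul_pow, ← ENNReal.ofReal_pow (by positivity), ← mul_assoc (ENNReal.ofReal _) (ENNReal.ofReal _),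
            ← ENNReal.ofReal_mul (by positivity), ← mul_assoc, ← mul_assoc,
            show (16 : ℝ≥0∞) * 12 = ENNReal.ofReal 192 by
              rw [show (16 : ℝ≥0∞) = ENNReal.ofReal 16 by simp, show (12 : ℝ≥0∞) = ENNReal.ofReal 12 by simp,
                ← ENNReal.ofReal_mul (by norm_num)]
              norm_num, ← ENNReal.ofReal_mul (by norm_num)]
          congr 2
          ring
  have h2 : gf (EQ l Q) ≤ ENNReal.ofReal (192 * 2 ^ (J + 5) * (D ^ (J + 5)) ^ 2 * y * Ub l) * Xb l := by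
    rw [sq (Xb l), ← mul_assoc, mul_comm (Xb l)] at h1
    exact (ENNReal.mul_le_mul_iff_left hX0 hXt).1 h1
  have h3 : (gf (EQ l Q)).toReal ≤ 192 * 2 ^ (J + 5) * (D ^ (J + 5)) ^ 2 * y * Ub l * X := by
    refine ENNReal.toReal_le_of_le_ofReal (by positivity) (h2.trans (le_of_eq ?_))
    rw [hXe, ← ENNReal.ofReal_mul (by positivity)]
  -- the numerator
  have hEf : (EQ l Q).Finite := ((FE (2 ^ l)).finite_toSet).subset fun E hE => by
    rw [Finset.mem_coe, mem_FE]
    exact hE.1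
  have h4 : ∑ E ∈ FE (2 ^ l), chi (2 ^ l) E * xc ^ E.length * TIP.ind (E ∈ Q) ≤ (gf (EQ l Q)).toReal := by
    classical
    have e1 : EQ l Q = ((FE (2 ^ l)).filter fun E => chi (2 ^ l) E ≠ 0 ∧ E ∈ Q : Finset (List Bool)) := by
      ext E
      rw [Finset.mem_coe, Finset.mem_filter, mem_FE]
      exact Iff.rfl
    rw [e1, gf_finset, ENNReal.toReal_ofReal (Finset.sum_nonneg fun _ _ => pow_nonneg xc_pos.le _), Finset.sum_filter]
    refine Finset.sum_le_sum fun E _ => ?_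
    have hx := pow_nonneg xc_pos.le E.length
    by_cases hE : chi (2 ^ l) E ≠ 0 ∧ E ∈ Q
    · rw [if_pos hE]
      have g1 := chi_le (2 ^ l) E
      have g0 := chi_nonneg (2 ^ l) E
      have g2 := TIP.ind_le_one (E ∈ Q)
      have g3 := TIP.ind_nonneg (E ∈ Q)
      calc chi (2 ^ l) E * xc ^ E.length * TIP.ind (E ∈ Q) ≤ 1 * xc ^ E.length * 1 := by gcongr
        _ = xc ^ E.length := by ring
    · rw [if_neg hE]
      rw [not_and_or, not_not] at hE
      rcases hE with h0 | h0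
      · rw [h0]
        simp
      · rw [TIP.ind_neg h0]
        simp
  -- the denominator
  have h5 : c * Ub l * X ≤ ∑ E ∈ FE (2 ^ l), chi (2 ^ l) E * xc ^ E.length := by
    classical
    have g1 := hlow l hl0
    obtain ⟨T, hT⟩ : ∃ T : Finset (List Bool), T = (FE (2 ^ l)).filter fun E =>
      (2 : ℤ) ^ l ≤ 16 * ip (en E) up ∧ 32 * hn (en E) ≤ 15 * 2 ^ l := ⟨_, rfl⟩
    have e1 : {E | E ∈ Hp (2 ^ l) ∧ E.length % 2 = 0 ∧ (2 : ℤ) ^ l ≤ 16 * ip (en E) up ∧ 32 * hn (en E) ≤ 15 * 2 ^ l} =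
        (T : Set (List Bool)) := by
      ext E
      rw [hT, Finset.mem_coe, Finset.mem_filter, mem_FE]
      exact ⟨fun h => ⟨⟨h.1, h.2.1⟩, h.2.2⟩, fun h => ⟨h.1.1, h.1.2, h.2⟩⟩
    have hs : 0 ≤ ∑ E ∈ T, xc ^ E.length := Finset.sum_nonneg fun _ _ => pow_nonneg xc_pos.le _
    rw [e1, gf_finset, hXe, ← ENNReal.ofReal_mul (by positivity), ENNReal.ofReal_le_ofReal_iff hs] at g1
    refine g1.trans ?_
    have hTs : T ⊆ FE (2 ^ l) := by rw [hT]; exact Finset.filter_subset _ _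
    refine le_trans (le_of_eq ?_) (Finset.sum_le_sum_of_subset_of_nonneg hTs fun E _ _ =>
      mul_nonneg (chi_nonneg _ _) (pow_nonneg xc_pos.le _))
    refine Finset.sum_congr rfl fun E hE => ?_
    rw [hT, Finset.mem_filter] at hE
    obtain ⟨-, k1, k2⟩ := hE
    have hp : (0 : ℝ) < ((2 ^ l : ℕ) : ℝ) := by positivity
    have k1' : (((2 ^ l : ℕ) : ℝ)) ≤ 16 * (ip (en E) up : ℝ) := by
      push_cast
      exact_mod_cast k1
    have k2' : 32 * (hn (en E) : ℝ) ≤ 15 * ((2 ^ l : ℕ) : ℝ) := by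
      push_cast
      exact_mod_cast k2
    have k3 : 1 ≤ 32 * (ip (en E) up : ℝ) / ((2 ^ l : ℕ) : ℝ) - 1 := by
      rw [le_sub_iff_add_le, le_div_iff₀ hp]
      linarith
    have k4 : 1 ≤ 16 - 32 * (hn (en E) : ℝ) / ((2 ^ l : ℕ) : ℝ) := by
      have : 32 * (hn (en E) : ℝ) / ((2 ^ l : ℕ) : ℝ) ≤ 15 := by
        rw [div_le_iff₀ hp]
        exact k2'
      linarith
    have k5 : ∀ x : ℝ, 1 ≤ x → cl1 x = 1 := fun x hx => by
      unfold cl1
      rw [min_eq_left hx]
      exact max_eq_right zero_le_one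
    have k6 : chi (2 ^ l) E = 1 := by
      unfold chi
      rw [k5 _ k3, k5 _ k4, min_self]
    rw [k6, one_mul]
  have hden : 0 < c * Ub l * X := by positivity
  rw [nuW_eq, div_le_iff₀ (hden.trans_le h5)]
  calc _ ≤ 192 * 2 ^ (J + 5) * (D ^ (J + 5)) ^ 2 * y * Ub l * X := h4.trans h3
    _ = 192 * 2 ^ (J + 5) * (D ^ (J + 5)) ^ 2 / c * y * (c * Ub l * X) := by field_simp
    _ ≤ _ := mul_le_mul_of_nonneg_left h5 (by positivity)

/-- **row A** -/
theorem dom : Dom := by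
  obtain ⟨C, J, l1, hC, hν⟩ := nuW_dom
  refine ⟨C, hC, fun Q y l0 hQ hy hG e he => ?_⟩
  obtain ⟨r0, hr0⟩ := hQ
  obtain ⟨n0, h⟩ := lim_pairL feTog nwTog niceSt ⟨r0, hr0⟩ he (max (max l0 l1) r0) (fun _ n _ => 1 / cS n) (fun _ => _)
    (fun _ => ens_one) (fun _ _ _ => le_rfl)
  refine ⟨n0, fun n hn => ?_⟩
  obtain ⟨l, hl, h1⟩ := h (fun _ => n) fun _ => hn
  have h2 := h1 true
  have hm : ∑ _t ∈ sawF n, (1 / cS n : ℝ) = 1 := by
    rw [sum_const, card_sawF, nsmul_eq_mul]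
    have : (0 : ℝ) < cS n := by exact_mod_cast TOG.cS_pos n
    field_simp
  rw [hm, mul_one, ← Pn_eq] at h2
  have h3 := hν l Q y (((le_max_right _ _).trans (le_max_left _ _)).trans hl)
    (hr0 _ (((le_max_right _ _).trans hl).trans Nat.lt_two_pow_self.le)) hy
    (hG _ ((((le_max_left _ _).trans (le_max_left _ _)).trans hl).trans (by omega)))
  have := (abs_le.1 h2).2
  linarith

end ATR

end HexObs
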