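import Pool.Agent.ATR.Defs
import Pool.Agent.TIP.NgC

/-!
ATR, row B (helper57): near the tip of a word of a large box there is a good decomposition of the scale b with an end outside
of every class of small mass. The skeleton is `NQ.nEndQ_of`; the walks with n letters are replaced by the words of the box,
`ExN` by the tip lemma `tip_WL` (constant, no exceptional set).
-/

set_option autoImplicit false

namespace HexObs

namespace ATR

open Finset TS SDN HexObs.SIM NTA NTW TIP Nf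

open scoped ENNReal

namespace LocB

lemma wl_pre {l : ℕ} {A Y : List Bool} (h : A ++ Y ∈ WL l) : A ∈ WL l := by
  refine ⟨?_, fun i hi dir => ?_⟩
  · have := SA_take h.1 A.length
    rwa [List.take_left'] at this
    rfl
  · have := h.2 i (by rw [List.length_append]; omega) dir
    rwa [vx_append (by omega)] at this

/-- a word in a small box -/
lemma in_WL {D K : ℕ} {t : List Bool} (ht : t ∈ SA) (h : In D t) (hK : 2 * D + 2 ≤ 2 ^ K) : t ∈ WL K := by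
  refine ⟨ht, fun i hi dir => ?_⟩
  obtain ⟨h1, h2⟩ := h i hi
  have hK' : 2 * (D : ℤ) + 2 ≤ 2 ^ K := by exact_mod_cast hK
  generalize vx oo up t i = v at h1 h2 ⊢
  obtain ⟨x, y⟩ := v
  have e1 : (oo : Pt).1 = 0 := rfl
  have e2 : (oo : Pt).2 = 0 := rfl
  rw [e1] at h1
  rw [e2] at h2
  simp only [sub_zero] at h1 h2
  unfold row lvl ip hd up
  rw [abs_le] at *
  cases dir <;> simp only [Bool.false_eq_true, if_false, if_true] <;> constructor <;> omega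

/-- the words with many decompositions -/
lemma mass_nD {η Ct q y : ℝ} {l b D : ℕ} {ρ : List Bool → List Bool → Prop}
    (hT : gf (WL l ∩ GT b η) * Xb b ≤ ENNReal.ofReal (Ct * Ub l) * Xb l ^ 2) (hρ : ∀ A Y, ρ A Y → A ∈ GT b η)
    (hx : ∀ A, gf {Y | ρ A Y ∧ In D Y} ≤ ENNReal.ofReal y * Xb b) (hq : 0 < q) (hy : 0 ≤ y) :
    gf {t | t ∈ WL l ∧ q ≤ (nD D ρ t : ℝ)} ≤ ENNReal.ofReal (Ct * y / q * Ub l) * Xb l ^ 2 := by
  have h1 := NgC.right_part (RR := WL l) (TA := WL l ∩ GT b η) (σ := fun A Y => ρ A Y ∧ In D Y) (q := q)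
    (fun R hR A Y e h => ⟨wl_pre (e ▸ hR), hρ A Y h.1⟩) hx
  have e1 : {R | R ∈ WL l ∧ q ≤ (NgC.nS (fun A Y => ρ A Y ∧ In D Y) R : ℝ)} = {t | t ∈ WL l ∧ q ≤ (nD D ρ t : ℝ)} := rfl
  rw [e1] at h1
  have hq0 : ENNReal.ofReal q ≠ 0 := by
    rw [Ne, ENNReal.ofReal_eq_zero, not_le]
    exact hq
  refine (ENNReal.mul_le_mul_iff_right hq0 ENNReal.ofReal_ne_top).1 ?_
  calc ENNReal.ofReal q * gf {t | t ∈ WL l ∧ q ≤ (nD D ρ t : ℝ)}
      ≤ gf (WL l ∩ GT b η) * (ENNReal.ofReal y * Xb b) := h1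
    _ = ENNReal.ofReal y * (gf (WL l ∩ GT b η) * Xb b) := by ring
    _ ≤ ENNReal.ofReal y * (ENNReal.ofReal (Ct * Ub l) * Xb l ^ 2) := mul_le_mul_right hT _
    _ = _ := by
        rw [← mul_assoc, ← mul_assoc, ← ENNReal.ofReal_mul hy, ← ENNReal.ofReal_mul hq.le]
        congr 2
        field_simp

/-- the words of the small box -/
lemma small_mass (a : ℕ) {e : ℝ} (he : 0 < e) : ∃ J0 : ℕ, ∀ b J : ℕ, J0 ≤ J →
    gf {t | t ∈ WL (b + J) ∧ In (a * J * 2 ^ b) t} ≤ ENNReal.ofReal (e * Ub (b + J)) * Xb (b + J) ^ 2 := by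
  obtain ⟨C, hC, hW⟩ := tot_WL
  have hk := kap0_pos
  obtain ⟨N, hN⟩ := pow_unbounded_of_one_lt (2 * C / e)
    (Real.one_lt_rpow (by norm_num : (1 : ℝ) < 2) hk)
  refine ⟨8 * (16 * a + 2) + 2 * N, fun b J hJ => ?_⟩
  obtain ⟨s, hs⟩ : ∃ s, s = J / 2 := ⟨_, rfl⟩
  obtain ⟨u, hu⟩ : ∃ u, u = J / 8 + 1 := ⟨_, rfl⟩
  have h1 : 2 * (a * J) + 2 ≤ 2 ^ s := by
    have g1 : u ≤ 2 ^ (J / 8) := by
      rw [hu]
      exact Nat.lt_two_pow_self
    have g2 : u ^ 4 ≤ 2 ^ s := by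
      calc u ^ 4 ≤ (2 ^ (J / 8)) ^ 4 := Nat.pow_le_pow_left g1 4
        _ = 2 ^ (J / 8 * 4) := by rw [← pow_mul]
        _ ≤ 2 ^ s := Nat.pow_le_pow_right (by norm_num) (by omega)
    have g3 : J ≤ 8 * u := by omega
    have g4 : 16 * a + 2 ≤ u := by omega
    have g5 : (16 * a + 2) * u ≤ u ^ 4 := by
      calc (16 * a + 2) * u ≤ u * u := Nat.mul_le_mul_right _ g4
        _ = u ^ 2 := by ring
        _ ≤ u ^ 4 := Nat.pow_le_pow_right (by omega) (by norm_num)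
    have g6 : 2 * (a * J) + 2 ≤ (16 * a + 2) * u := by
      have := Nat.mul_le_mul_left a g3
      nlinarith
    omega
  have h2 : 2 * (a * J * 2 ^ b) + 2 ≤ 2 ^ (b + s) := by
    have g1 : 1 ≤ 2 ^ b := Nat.one_le_two_pow
    have g2 := Nat.mul_le_mul_right (2 ^ b) h1
    rw [pow_add, mul_comm (2 ^ b) (2 ^ s)]
    nlinarith
  have h3 : {t | t ∈ WL (b + J) ∧ In (a * J * 2 ^ b) t} ⊆ WL (b + s) := fun t ht => in_WL ht.1.1 ht.2 h2
  refine (gf_mono h3).trans ((hW _).trans ?_)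
  have hU := Ub_pos (b + J)
  have hUs := Ub_pos (b + s)
  rw [← mul_assoc, ← ENNReal.ofReal_mul (by linarith)]
  refine mul_le_mul' (ENNReal.ofReal_le_ofReal ?_) (pow_le_pow_left' (Xb_mono (by omega)) 2)
  have h4 := Ub_growth (show b + s ≤ b + J by omega)
  have h5 : (((b + J : ℕ) : ℝ) - ((b + s : ℕ) : ℝ)) = ((J - s : ℕ) : ℝ) := by
    rw [Nat.cast_sub (by omega)]
    push_cast
    ring
  rw [h5, Real.rpow_mul (by norm_num), Real.rpow_natCast] at h4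
  have h6 : 2 * C / e ≤ ((2 : ℝ) ^ kap0) ^ (J - s) := by
    refine hN.le.trans (pow_le_pow_right₀ ?_ (by omega))
    exact (Real.one_lt_rpow (by norm_num) hk).le
  have h7 : Ub (b + s) * (2 * C / e) ≤ 2 * Ub (b + J) := (mul_le_mul_of_nonneg_left h6 hUs.le).trans h4
  rw [mul_div_assoc', div_le_iff₀ he] at h7
  nlinarith

/-- the words with a long factor without good local bridges -/
lemma lz_mass {κ : ℝ} {C : ℕ} (h : RegZ κ C) : ∃ a b0 : ℕ, 1 ≤ a ∧ ∃ J0 : ℕ, ∀ b J : ℕ, b0 ≤ b → J0 ≤ J →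
    gf {t | t ∈ WL (b + J) ∧ t ∈ Lz κ C b (a * J)} ≤ ENNReal.ofReal ((1 / 2) ^ J * Ub (b + J)) * Xb (b + J) ^ 2 := by
  obtain ⟨C', c, b0, J0, n0, hC', hc, h⟩ := h
  have h2c : (2 : ℝ) ^ (-c) < 1 := Real.rpow_lt_one_of_one_lt_of_neg (by norm_num) (by linarith)
  obtain ⟨a0, ha0⟩ := exists_pow_lt_of_lt_one (show (0 : ℝ) < 1 / (2 * C') by positivity) h2c
  refine ⟨a0 + 1, b0, by omega, max J0 n0, fun b J hb hJ => ?_⟩
  have h1 := h b J ((a0 + 1) * J) hb ((le_max_left _ _).trans hJ) (by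
    have : n0 ≤ J := (le_max_right _ _).trans hJ
    nlinarith)
  refine h1.trans (mul_le_mul' (ENNReal.ofReal_le_ofReal ?_) le_rfl)
  refine mul_le_mul_of_nonneg_right ?_ (Ub_pos _).le
  have e1 : (2 : ℝ) ^ (-(c * (((a0 + 1) * J : ℕ) : ℝ))) = (((2 : ℝ) ^ (-c)) ^ (a0 + 1)) ^ J := by
    rw [← pow_mul, ← Real.rpow_natCast, ← Real.rpow_mul (by norm_num)]
    congr 1
    ring
  rw [e1, ← mul_pow]
  refine pow_le_pow_left₀ (by positivity) ?_ J
  have h3 : ((2 : ℝ) ^ (-c)) ^ (a0 + 1) ≤ 1 / (2 * C') := by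
    refine le_trans ?_ ha0.le
    exact pow_le_pow_of_le_one (by positivity) h2c.le (by omega)
  calc C' * ((2 : ℝ) ^ (-c)) ^ (a0 + 1) ≤ C' * (1 / (2 * C')) := mul_le_mul_of_nonneg_left h3 (by linarith)
    _ = 1 / 2 := by field_simp

end LocB

open LocB

open Classical in
/-- **row B** -/
theorem loc : Loc := by
  obtain ⟨κ, hκ, C, -, hR⟩ := regZ_all
  have hW := neW
  have hYb := yBad hR
  obtain ⟨η, hηd⟩ : ∃ η : ℝ, η = κ / 8 := ⟨_, rfl⟩
  have hη : 0 < η := by rw [hηd]; positivity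
  obtain ⟨J1, b1, hY⟩ := hYb η 1 2 hη
  obtain ⟨Ct, hCt, hT⟩ := tip_WL η hη
  obtain ⟨a, bL, ha, JL, hLz⟩ := lz_mass hR
  obtain ⟨bU, hbU⟩ : ∃ bU : ℕ, ∀ b, bU ≤ b → 8 ≤ κ * Ub b := by
    obtain ⟨B, hB⟩ := Ub_big
    obtain ⟨n, hn⟩ := exists_nat_ge (8 / κ)
    refine ⟨B * n, fun b hb => ?_⟩
    have h1 := hB b n hb
    have h2 : (n : ℝ) ≤ 8 ^ n := by
      exact_mod_cast (Nat.lt_pow_self (by norm_num : 1 < 8)).le
    have h3 : 8 / κ ≤ Ub b := hn.trans (h2.trans h1)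
    rw [div_le_iff₀ hκ] at h3
    linarith
  refine ⟨η, 2 + 24 * Ct / κ, max J1 (2 * C + 3) + 1, max (max b1 bL) bU, hη, by positivity,
    fun b m' y Q hb hm' hy hQ => ?_⟩
  obtain ⟨m, rfl⟩ : ∃ m, m' = m + 1 := ⟨m' - 1, by omega⟩
  have hb1 : b1 ≤ b := ((le_max_left _ _).trans (le_max_left _ _)).trans hb
  have hbL : bL ≤ b := ((le_max_right _ _).trans (le_max_left _ _)).trans hb
  have hbU' : bU ≤ b := (le_max_right _ _).trans hb
  have hm1 : J1 ≤ m := (le_max_left J1 (2 * C + 3)).trans (by omega)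
  have hmC : 2 * C + 3 ≤ m := (le_max_right J1 (2 * C + 3)).trans (by omega)
  have hm2 : 2 * C ≤ 2 ^ m := by
    have := Nat.lt_two_pow_self (n := m)
    omega
  obtain ⟨JS, hS⟩ := small_mass a (show (0 : ℝ) < (1 / 2) ^ (m + 1) by positivity)
  refine ⟨b + (max JS (max JL (m + 1))), fun l hl => ?_⟩
  obtain ⟨J0, rfl⟩ : ∃ J0, l = b + J0 := ⟨l - b, by omega⟩
  have hJ : max JS (max JL (m + 1)) ≤ J0 := by omega
  have hJS : JS ≤ J0 := (le_max_left _ _).trans hJ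
  have hJL : JL ≤ J0 := ((le_max_left _ _).trans (le_max_right _ _)).trans hJ
  have hJm : m + 1 ≤ J0 := ((le_max_right _ _).trans (le_max_right _ _)).trans hJ
  have hLz := hLz b J0 hbL hJL
  have hS := hS b J0 hJS
  have hT := hT (b + J0) b (by omega)
  obtain ⟨l, hld⟩ : ∃ l, l = b + J0 := ⟨_, rfl⟩
  obtain ⟨m1, hm1d⟩ : ∃ m1, m1 = a * J0 := ⟨_, rfl⟩
  rw [← hld, ← hm1d] at hLz hS
  rw [← hld] at hT ⊢
  have hU : 0 < Ub b := Ub_pos b
  have hUl : 0 < Ub l := Ub_pos l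
  have h8 := hbU b hbU'
  -- the numbers
  obtain ⟨h, hh⟩ : ∃ h : ℕ, h = ⌈κ * Ub b / 8⌉₊ := ⟨_, rfl⟩
  have hh1 : 1 ≤ h := by
    rw [hh, Nat.one_le_iff_ne_zero, Nat.ne_zero_iff_zero_lt, Nat.ceil_pos]
    positivity
  have hq : κ * Ub b / 8 ≤ (h : ℝ) := by
    rw [hh]
    exact Nat.le_ceil _
  have hh2 : (h : ℝ) < κ * Ub b / 8 + 1 := by
    rw [hh]
    exact Nat.ceil_lt_add_one (by positivity)
  have hηh : η * Ub b ≤ (h : ℝ) := by
    rw [hηd]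
    calc κ / 8 * Ub b = κ * Ub b / 8 := by ring
      _ ≤ h := hq
  -- the events
  obtain ⟨EJ, hEJ⟩ : ∃ EJ : ℕ → Set (List Bool), EJ = fun J => {t | t ∈ WL l ∧ κ * Ub b / 8 ≤
    (nD (2 ^ (b + (J + 1))) (RB κ C b (J + 1) (C * 2 ^ b) η) t : ℝ)} := ⟨_, rfl⟩
  obtain ⟨EA, hEA⟩ : ∃ EA : Set (List Bool), EA = {t | t ∈ WL l ∧ κ * Ub b / 8 ≤
    (nD (2 ^ (b + (m + 1))) (NQ.RQ b (C * 2 ^ b) η Q) t : ℝ)} := ⟨_, rfl⟩
  obtain ⟨Js, hJs⟩ : ∃ Js : Finset ℕ, Js = (range (4 * m1 + 1)).filter fun J => m ≤ J ∧ 2 ^ J ≤ 4 * m1 := ⟨_, rfl⟩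
  -- the covering
  have hcov : {t | t ∈ WL l ∧ t ∉ NQ.DecQ b (2 ^ (b + (m + 1))) η Q} ⊆
      (({t | t ∈ WL l ∧ t ∈ Lz κ C b m1} ∪ {t | t ∈ WL l ∧ In (m1 * 2 ^ b) t}) ∪ ⋃ J ∈ Js, EJ J) ∪ EA := by
    rintro t ⟨ht, hbad⟩
    by_cases hLt : t ∈ Lz κ C b m1
    · exact Or.inl (Or.inl (Or.inl ⟨ht, hLt⟩))
    by_cases hIt : In (m1 * 2 ^ b) t
    · exact Or.inl (Or.inl (Or.inr ⟨ht, hIt⟩))
    have hNz : t ∉ Nz κ C b := fun hN => hLt ⟨[], t, [], by rw [List.nil_append, List.append_nil], hN, hIt⟩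
    obtain ⟨X, Z1, Z2, Z3, Y0, hd⟩ := dt_of hW ht.1 hNz
    have h4 : 4 * h ≤ nc Z2 := by
      have h5 : (4 : ℝ) * h ≤ nc Z2 := by
        have := hd.n2
        linarith
      exact_mod_cast h5
    have hY0 : In (m1 * 2 ^ b) Y0 := by
      by_contra hcon
      refine hLt ⟨X ++ (Z1 ++ (Z2 ++ Z3)), Y0, [], ?_, hd.nz, hcon⟩
      rw [hd.eq]
      simp only [List.append_assoc, List.append_nil]
    have hex : ∃ J, In (2 ^ (b + J)) Y0 := by
      refine ⟨m1, in_mono hY0 ?_⟩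
      rw [pow_add, mul_comm]
      exact Nat.mul_le_mul_left _ Nat.lt_two_pow_self.le
    rcases Nat.lt_or_ge m (Nat.find hex) with hJ | hJ
    · -- case B
      have h5 := Nat.find_spec hex
      have h6 := Nat.find_min hex (m := Nat.find hex - 1) (by omega)
      obtain ⟨J, hJd⟩ : ∃ J, J = Nat.find hex := ⟨_, rfl⟩
      rw [← hJd] at h5 h6 hJ
      have h7 : ¬ In (2 ^ (J - 1) * 2 ^ b) Y0 := by
        rwa [← pow_add, add_comm (J - 1) b]
      have h8' : 2 ^ (J - 1) < m1 := by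
        by_contra hcon
        exact h7 (in_mono hY0 (Nat.mul_le_mul_right _ (not_lt.1 hcon)))
      have h9 : 2 ^ J = 2 * 2 ^ (J - 1) := by
        rw [← pow_succ']
        congr 1
        omega
      have h10 : J < 2 ^ J := Nat.lt_two_pow_self
      refine Or.inl (Or.inr (Set.mem_iUnion₂.2 ⟨J, ?_, ?_⟩))
      · rw [hJs, mem_filter, mem_range]
        omega
      · rw [hEJ]
        refine ⟨ht, hq.trans ?_⟩
        have h11 : 2 * C ≤ 2 ^ J := hm2.trans (Nat.pow_le_pow_right (by norm_num) (by omega))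
        have h12 : 2 ^ (J + 1) ≤ 2 ^ (J - 1) * 2 ^ 2 := by
          rw [pow_succ, h9]
          omega
        exact_mod_cast caseB hW hd hh1 hηh h4 h12 h5 h7 h11
    · -- case Q
      refine Or.inr ?_
      rw [hEA]
      refine ⟨ht, hq.trans ?_⟩
      have h5 : In (2 ^ (b + m)) Y0 := in_mono (Nat.find_spec hex) (Nat.pow_le_pow_right (by norm_num) (by omega))
      exact_mod_cast NQ.caseQ hW hd hh1 hηh h4 h5 hm2 hbad
  -- the mass of the cases B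
  have hB1 : ∀ J ∈ Js, gf (EJ J) ≤ ENNReal.ofReal (8 * Ct / κ * (1 / 2) ^ (J + 1) * Ub l) * Xb l ^ 2 := by
    intro J hJ
    rw [hJs, mem_filter, mem_range] at hJ
    obtain ⟨-, j1, j2⟩ := hJ
    rw [hEJ]
    have h5 := mass_nD (D := 2 ^ (b + (J + 1))) (ρ := RB κ C b (J + 1) (C * 2 ^ b) η) (q := κ * Ub b / 8)
      (y := Ub b / (2 : ℝ) ^ (1 * (J + 1))) hT (fun A Y h => h.1.gt) (fun A => ?_) (by positivity) (by positivity)
    · refine h5.trans (le_of_eq ?_)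
      congr 2
      rw [one_mul, one_div, inv_pow]
      field_simp
    · refine le_trans (gf_mono ?_) (hY b (J + 1) hb1 (by omega))
      rintro Y ⟨⟨-, y1, y2, y3⟩, y4⟩
      exact ⟨y1, y2, y4, y3⟩
  -- the mass of the case Q
  have hA1 : gf EA ≤ ENNReal.ofReal (8 * Ct / κ * y * Ub l) * Xb l ^ 2 := by
    rw [hEA]
    have h5 := mass_nD (D := 2 ^ (b + (m + 1))) (ρ := NQ.RQ b (C * 2 ^ b) η Q) (q := κ * Ub b / 8) (y := y * Ub b) hT
      (fun A Y h => h.1.gt) (fun A => ?_) (by positivity) (by positivity)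
    · refine h5.trans (le_of_eq ?_)
      congr 2
      field_simp
    · refine le_trans (gf_mono ?_) hQ
      rintro Y ⟨⟨-, y1, y2, y3⟩, y4⟩
      exact ⟨y1, y2, y4, y3⟩
  -- the sum over the cases B
  have h7 : gf (⋃ J ∈ Js, EJ J) ≤ ENNReal.ofReal (8 * Ct / κ * (1 / 2) ^ m * Ub l) * Xb l ^ 2 := by
    refine (JumpVaux.gf_biUnion_le _ _).trans ((sum_le_sum hB1).trans ?_)
    rw [← Finset.sum_mul, ← ENNReal.ofReal_sum_of_nonneg (fun J _ => by positivity), ← Finset.sum_mul, ← Finset.mul_sum]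
    refine mul_le_mul' (ENNReal.ofReal_le_ofReal ?_) le_rfl
    refine mul_le_mul_of_nonneg_right (mul_le_mul_of_nonneg_left (sum_two m Js fun J hJ => ?_) (by positivity)) hUl.le
    rw [hJs, mem_filter] at hJ
    exact hJ.2.1
  -- the sum
  refine (gf_mono hcov).trans ((gf_union_le _ _).trans ?_)
  refine (add_le_add ((gf_union_le _ _).trans (add_le_add ((gf_union_le _ _).trans (add_le_add hLz hS)) h7)) hA1).trans ?_
  rw [← add_mul, ← add_mul, ← add_mul, ← ENNReal.ofReal_add (by positivity) (by positivity),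
    ← ENNReal.ofReal_add (by positivity) (by positivity), ← ENNReal.ofReal_add (by positivity) (by positivity)]
  refine mul_le_mul' (ENNReal.ofReal_le_ofReal ?_) le_rfl
  have h9 : (1 / 2 : ℝ) ^ J0 ≤ (1 / 2) ^ (m + 1) := pow_le_pow_of_le_one (by norm_num) (by norm_num) hJm
  have h10 : (1 / 2 : ℝ) ^ m = 2 * (1 / 2) ^ (m + 1) := by
    rw [pow_succ]
    ring
  rw [h10]
  have h11 : (0 : ℝ) < (1 / 2) ^ (m + 1) := by positivity
  obtain ⟨p, hp⟩ : ∃ p : ℝ, p = (1 / 2) ^ (m + 1) := ⟨_, rfl⟩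
  rw [← hp] at h9 h11 ⊢
  have h12 : 0 ≤ Ct / κ := by positivity
  have e2 : 8 * Ct / κ = 8 * (Ct / κ) := by ring
  have e3 : 24 * Ct / κ = 24 * (Ct / κ) := by ring
  rw [e2, e3]
  obtain ⟨z, hz⟩ : ∃ z : ℝ, z = Ct / κ := ⟨_, rfl⟩
  rw [← hz] at h12 ⊢
  have h13 : (1 / 2 : ℝ) ^ J0 + p + 8 * z * (2 * p) + 8 * z * y ≤ (2 + 24 * z) * (y + p) := by nlinarith [mul_nonneg h12 hy, mul_nonneg h12 h11.le]
  have h14 := mul_le_mul_of_nonneg_right h13 hUl.le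
  linarith

end ATR

end HexObs
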