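import Pool.Agent.ATR.Defs
import Pool.Agent.IW.AsUp
import Pool.Agent.IW.WinZ

/-!
# ATR, row E4: words with a fast factor have little mass (helper82)

Crude: a word of the box with the length n that has a fast factor of l letters behind its first i letters is split in three;
each part has at most a power of the number of its letters, and the middle part is far with the probability `C lam ^ (-Q)`
for every Q (`asUp`).
-/

set_option autoImplicit false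

namespace HexObs

namespace ATR

open Finset TS SDN NTA NTW TIP

open scoped ENNReal

open NTF (JJ)

lemma saw_crude : ∃ (C : ℝ) (a : ℕ), 1 ≤ C ∧ ∀ n : ℕ, gf (SawN n) ≤ ENNReal.ofReal (C * ((n : ℝ) + 1) ^ a) := by
  obtain ⟨C, a, hC, h⟩ := NQ.cS_poly
  refine ⟨C + 1, a, by linarith, fun n => ?_⟩
  have hn0 : (0 : ℝ) ≤ n := Nat.cast_nonneg n
  rcases Nat.eq_zero_or_pos n with hn | hn
  · have h1 : SawN n ⊆ {t : List Bool | t = []} := by
      rintro t ⟨h2, -⟩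
      rw [hn] at h2
      exact List.length_eq_zero_iff.1 h2
    have h2 : gf {t : List Bool | t = []} = 1 := by
      unfold gf
      rw [tsum_eq_single (⟨[], rfl⟩ : {t : List Bool | t = []})]
      · simp [wE]
      · rintro ⟨b, hb⟩ hne
        have hb' : b = [] := hb
        exact absurd (Subtype.ext hb') hne
    refine (gf_mono h1).trans ?_
    rw [h2]
    refine ENNReal.one_le_ofReal.2 ?_
    have h3 : (1 : ℝ) ≤ ((n : ℝ) + 1) ^ a := one_le_pow₀ (by linarith)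
    nlinarith
  · rw [NTF.gf_card (n := n) (B := SawN n) (fun t ht => ht.1), ← ENNReal.ofReal_natCast,
      ← ENNReal.ofReal_mul (Nat.cast_nonneg _)]
    refine ENNReal.ofReal_le_ofReal ?_
    have h1 := h n hn
    have h2 : (n : ℝ) ^ a ≤ ((n : ℝ) + 1) ^ a := pow_le_pow_left₀ hn0 (by linarith) a
    have h3 : (0 : ℝ) ≤ ((n : ℝ) + 1) ^ a := by positivity
    calc ((SawN n).ncard : ℝ) * xc ^ n = (cS n : ℝ) * xc ^ n := rfl
      _ ≤ C * (n : ℝ) ^ a := h1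
      _ ≤ C * ((n : ℝ) + 1) ^ a := mul_le_mul_of_nonneg_left h2 hC.le
      _ ≤ (C + 1) * ((n : ℝ) + 1) ^ a := by nlinarith

/-- the words of l letters with a far end -/
def FarW (l : ℕ) (x : ℝ) : Set (List Bool) := {t | t ∈ SawN l ∧ x ≤ ‖JJ (vx oo up t l)‖}

lemma far_crude {C : ℝ} {a : ℕ} (hS : ∀ n : ℕ, gf (SawN n) ≤ ENNReal.ofReal (C * ((n : ℝ) + 1) ^ a)) (Q : ℕ) :
    ∃ A : ℝ, 0 < A ∧ ∀ (l : ℕ) (lam : ℝ), 1 ≤ l → 1 ≤ lam →
      gf (FarW l (lam * (l : ℝ) ^ (3 / 4 : ℝ))) ≤ ENNReal.ofReal (A / lam ^ Q * (C * ((l : ℝ) + 1) ^ a)) := by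
  obtain ⟨A, hA, hup⟩ := NQ.asUp Q
  refine ⟨A, hA, fun l lam hl hlam => ?_⟩
  have hlam0 : 0 < lam := by linarith
  have h1 := hup l lam hl hlam
  obtain ⟨B, hB⟩ : ∃ B : Set (List Bool), B = {t | ∃ i, i ≤ l ∧ lam * (l : ℝ) ^ (3 / 4 : ℝ) ≤ ‖JJ (vx oo up t i)‖} :=
    ⟨_, rfl⟩
  rw [← hB] at h1
  have h2 : FarW l (lam * (l : ℝ) ^ (3 / 4 : ℝ)) ⊆ {t | t ∈ SawN l ∧ t ∈ B} := by
    rintro t ⟨h3, h4⟩
    exact ⟨h3, by rw [hB]; exact ⟨l, le_rfl, h4⟩⟩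
  have h3 : gf {t | t ∈ SawN l ∧ t ∈ B} = ENNReal.ofReal (TOG.Pn l B) * gf (SawN l) := by
    rw [NTF.gf_card (n := l) (fun t ht => ht.1.1), NTF.gf_card (n := l) (B := SawN l) (fun t ht => ht.1), ← mul_assoc]
    congr 1
    rw [← ENNReal.ofReal_natCast, ← ENNReal.ofReal_natCast, ← ENNReal.ofReal_mul (by unfold TOG.Pn; positivity)]
    congr 1
    unfold TOG.Pn
    have h4 := cS_pos' hl
    have e1 : (((SawN l).ncard : ℕ) : ℝ) = (cS l : ℝ) := rfl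
    rw [e1]
    field_simp
  calc gf (FarW l (lam * (l : ℝ) ^ (3 / 4 : ℝ))) ≤ gf {t | t ∈ SawN l ∧ t ∈ B} := gf_mono h2
    _ = ENNReal.ofReal (TOG.Pn l B) * gf (SawN l) := h3
    _ ≤ ENNReal.ofReal (A / lam ^ Q) * ENNReal.ofReal (C * ((l : ℝ) + 1) ^ a) :=
        mul_le_mul' (ENNReal.ofReal_le_ofReal h1) (hS l)
    _ = _ := (ENNReal.ofReal_mul (by positivity)).symm

/-- a vertex outside of the box about another vertex is far from it -/
lemma far_of_notMem {p q : Pt} {d : ℕ} (h : q ∉ SIM.Bl p d) : (d : ℝ) / 2 ≤ ‖JJ (q - p)‖ := by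
  have h1 := NTF.JJ_norm (q - p)
  have h2 : ((nrm (q - p) : ℤ) : ℝ) = ((q.1 - p.1 : ℤ) : ℝ) ^ 2 + ((q.1 - p.1 : ℤ) : ℝ) * ((q.2 - p.2 : ℤ) : ℝ) +
      ((q.2 - p.2 : ℤ) : ℝ) ^ 2 := by
    have e1 := NTF.JJ_norm (q - p)
    rw [Complex.sq_norm, Complex.normSq_apply, NTF.JJ_re, NTF.JJ_im, Prod.fst_sub, Prod.snd_sub] at e1
    rw [← e1]
    have h : Real.sqrt 3 * Real.sqrt 3 = 3 := Real.mul_self_sqrt (by norm_num)
    nlinarith
  rw [h2] at h1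
  have h3 : (d : ℝ) ^ 2 ≤ ((q.1 - p.1 : ℤ) : ℝ) ^ 2 ∨ (d : ℝ) ^ 2 ≤ ((q.2 - p.2 : ℤ) : ℝ) ^ 2 := by
    by_contra hc
    push Not at hc
    apply h
    have h4 : |q.1 - p.1| ≤ (d : ℤ) := by
      have h5 := abs_lt_of_sq_lt_sq hc.1 (Nat.cast_nonneg d)
      rw [← Int.cast_abs] at h5
      have h6 : |q.1 - p.1| < (d : ℤ) := by exact_mod_cast h5
      exact h6.le
    have h5 : |q.2 - p.2| ≤ (d : ℤ) := by
      have h5 := abs_lt_of_sq_lt_sq hc.2 (Nat.cast_nonneg d)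
      rw [← Int.cast_abs] at h5
      have h6 : |q.2 - p.2| < (d : ℤ) := by exact_mod_cast h5
      exact h6.le
    exact ⟨h4, h5⟩
  have h4 : ((d : ℝ) / 2) ^ 2 ≤ ‖JJ (q - p)‖ ^ 2 := by
    rw [h1]
    rcases h3 with h3 | h3
    · nlinarith [sq_nonneg (((q.1 - p.1 : ℤ) : ℝ) / 2 + ((q.2 - p.2 : ℤ) : ℝ)), sq_nonneg (d : ℝ)]
    · nlinarith [sq_nonneg (((q.1 - p.1 : ℤ) : ℝ) + ((q.2 - p.2 : ℤ) : ℝ) / 2), sq_nonneg (d : ℝ)]
  exact le_of_sq_le_sq h4 (norm_nonneg _)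

/-- the factor of a word between two of its vertices -/
lemma fac_far {t : List Bool} (ht : t ∈ SA) {i j d : ℕ} (hij : i ≤ j) (hj : j ≤ t.length)
    (h : vx oo up t j ∉ SIM.Bl (vx oo up t i) d) : i < j ∧ (t.drop i).take (j - i) ∈ FarW (j - i) ((d : ℝ) / 2) := by
  have hlt : i < j := by
    rcases hij.lt_or_eq with h1 | h1
    · exact h1
    · exfalso
      apply h
      rw [h1, SIM.mem_Bl]
      refine ⟨⟨?_, ?_⟩, ?_, ?_⟩ <;> omega
  refine ⟨hlt, ⟨?_, ?_⟩, ?_⟩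
  · rw [List.length_take, List.length_drop]
    omega
  · exact SA_take (SA_drop ht i) (j - i)
  · obtain ⟨c, hc, -, hf⟩ := drop_frame' t i
    have h1 := hf (j - i)
    rw [show i + (j - i) = j by omega] at h1
    have h2 : vx oo up ((t.drop i).take (j - i)) (j - i) = vx oo up (t.drop i) (j - i) := by
      have h3 : j - i ≤ ((t.drop i).take (j - i)).length := by
        rw [List.length_take, List.length_drop]
        omega
      have h4 := vx_append (v0 := oo) (d0 := up) (t := (t.drop i).take (j - i)) (s := (t.drop i).drop (j - i)) (i := j - i)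
        (h3.trans (Nat.le_succ _))
      rw [List.take_append_drop] at h4
      exact h4.symm
    rw [h2, ← NQ.JJ_rot hc]
    have h3 : mulE c (vx oo up (t.drop i) (j - i)) = vx oo up t j - vx oo up t i := by
      rw [h1]
      abel
    rw [h3]
    exact far_of_notMem h

/-- the three parts -/
lemma split_le {C A : ℝ} {a : ℕ} (hC : 0 ≤ C) (hS : ∀ n : ℕ, gf (SawN n) ≤ ENNReal.ofReal (C * ((n : ℝ) + 1) ^ a))
    {x : ℝ} {i l r T : ℕ} (hi : i ≤ T) (hl : l ≤ T) (hr : r ≤ T) (hA : 0 ≤ A)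
    (hF : gf (FarW l x) ≤ ENNReal.ofReal (A * (C * ((l : ℝ) + 1) ^ a))) :
    gf {t | t ∈ SA ∧ t.length = i + (l + r) ∧ (t.drop i).take l ∈ FarW l x} ≤
      ENNReal.ofReal (A * (C * ((T : ℝ) + 1) ^ a) ^ 3) := by
  have h1 : gf {t | t ∈ SA ∧ t.length = i + (l + r) ∧ (t.drop i).take l ∈ FarW l x} ≤
      gf (SawN i) * gf {s | s ∈ SA ∧ s.length = l + r ∧ s.take l ∈ FarW l x} := by
    refine gf_le_mul ?_
    rintro t ⟨h1, h2, h3⟩
    refine ⟨t.take i, ⟨?_, SA_take h1 i⟩, t.drop i, ⟨SA_drop h1 i, ?_, h3⟩, (List.take_append_drop i t).symm⟩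
    · rw [List.length_take]
      omega
    · rw [List.length_drop]
      omega
  have h2 : gf {s | s ∈ SA ∧ s.length = l + r ∧ s.take l ∈ FarW l x} ≤ gf (FarW l x) * gf (SawN r) := by
    refine gf_le_mul ?_
    rintro s ⟨h1, h2, h3⟩
    refine ⟨s.take l, h3, s.drop l, ⟨?_, SA_drop h1 l⟩, (List.take_append_drop l s).symm⟩
    rw [List.length_drop]
    omega
  have hm : ∀ n : ℕ, n ≤ T → C * ((n : ℝ) + 1) ^ a ≤ C * ((T : ℝ) + 1) ^ a := by
    intro n hn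
    have : (n : ℝ) ≤ T := by exact_mod_cast hn
    exact mul_le_mul_of_nonneg_left (pow_le_pow_left₀ (by positivity) (by linarith) a) hC
  calc gf {t | t ∈ SA ∧ t.length = i + (l + r) ∧ (t.drop i).take l ∈ FarW l x}
      ≤ gf (SawN i) * (gf (FarW l x) * gf (SawN r)) := h1.trans (mul_le_mul_right h2 _)
    _ ≤ ENNReal.ofReal (C * ((T : ℝ) + 1) ^ a) * (ENNReal.ofReal (A * (C * ((T : ℝ) + 1) ^ a)) *
          ENNReal.ofReal (C * ((T : ℝ) + 1) ^ a)) := by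
        refine mul_le_mul' ((hS i).trans (ENNReal.ofReal_le_ofReal (hm i hi))) (mul_le_mul' (hF.trans ?_)
          ((hS r).trans (ENNReal.ofReal_le_ofReal (hm r hr))))
        exact ENNReal.ofReal_le_ofReal (mul_le_mul_of_nonneg_left (hm l hl) hA)
    _ = _ := by
        rw [← ENNReal.ofReal_mul (by positivity), ← ENNReal.ofReal_mul (by positivity)]
        congr 1
        ring

lemma ref_low (K : ℕ) (x : ℝ) (hx : 0 ≤ x) : ENNReal.ofReal x ≤ ENNReal.ofReal (4 * x * Ub K) * Xb K ^ 2 := by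
  have h1 : 1 ≤ 2 * Xb K := NTA.one_le_Xb K
  have h2 : (1 : ℝ) ≤ Ub K := NTA.one_le_Ub K
  calc ENNReal.ofReal x = ENNReal.ofReal x * 1 ^ 2 := by rw [one_pow, mul_one]
    _ ≤ ENNReal.ofReal x * (2 * Xb K) ^ 2 := mul_le_mul_right (pow_le_pow_left' h1 2) _
    _ = ENNReal.ofReal (4 * x) * Xb K ^ 2 := by
        rw [mul_pow, ← mul_assoc, show (4 : ℝ) * x = x * 4 by ring, ENNReal.ofReal_mul hx]
        congr 2
        norm_num
    _ ≤ ENNReal.ofReal (4 * x * Ub K) * Xb K ^ 2 :=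
        mul_le_mul_left (ENNReal.ofReal_le_ofReal (le_mul_of_one_le_right (by positivity) h2)) _

/-- **row E4** -/
theorem fastM : FastM := by
  intro δ hδ
  obtain ⟨C, a, hC, hS⟩ := saw_crude
  obtain ⟨Q, hQ⟩ := exists_nat_ge (((6 * a + 8 : ℕ) : ℝ) / δ)
  obtain ⟨A, hA, hfar⟩ := far_crude hS Q
  -- the constant
  obtain ⟨M, hM⟩ : ∃ M : ℝ, M = 4 * (8000000 * (A * 2 ^ Q * (C * 200 ^ a) ^ 3)) := ⟨_, rfl⟩
  obtain ⟨K1, hK1⟩ := pow_unbounded_of_one_lt M (one_lt_two (α := ℝ))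
  obtain ⟨K2, hK2⟩ := exists_nat_ge (1 / δ)
  refine ⟨max K1 K2, fun K m d hK hd => ?_⟩
  have hKδ : (1 : ℝ) ≤ δ * K := by
    have h1 : (K2 : ℝ) ≤ K := by exact_mod_cast (le_max_right _ _).trans hK
    have h2 : 1 / δ ≤ K := hK2.trans h1
    rw [div_le_iff₀ hδ] at h2
    linarith
  obtain ⟨lam, hlam⟩ : ∃ lam : ℝ, lam = (2 : ℝ) ^ (δ * K) / 2 := ⟨_, rfl⟩
  have hlam1 : 1 ≤ lam := by
    rw [hlam, le_div_iff₀ (by norm_num), one_mul]
    calc (2 : ℝ) = (2 : ℝ) ^ (1 : ℝ) := (Real.rpow_one 2).symm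
      _ ≤ (2 : ℝ) ^ (δ * K) := Real.rpow_le_rpow_of_exponent_le (by norm_num) hKδ
  have hlam0 : 0 < lam := by linarith
  obtain ⟨T, hT⟩ : ∃ T : ℕ, T = 100 * 4 ^ K := ⟨_, rfl⟩
  obtain ⟨I, hI⟩ : ∃ I : Finset (ℕ × ℕ × ℕ), I = (range (T + 1)) ×ˢ ((range (T + 1)) ×ˢ (range (T + 1))) := ⟨_, rfl⟩
  obtain ⟨E, hE⟩ : ∃ E : ℕ × ℕ × ℕ → Set (List Bool), E = fun p =>
    if 1 ≤ p.2.1 ∧ p.2.1 ≤ m then {t | t ∈ SA ∧ t.length = p.1 + (p.2.1 + p.2.2) ∧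
      (t.drop p.1).take p.2.1 ∈ FarW p.2.1 ((d : ℝ) / 2)} else ∅ := ⟨_, rfl⟩
  have h1 : WL K ∩ Fast m d ⊆ ⋃ p ∈ I, E p := by
    rintro t ⟨ht, i, j, h2, h3, h4, h5⟩
    have h6 := WL_length ht
    rw [← hT] at h6
    obtain ⟨h7, h8⟩ := fac_far ht.1 h2 h3 h5
    simp only [Set.mem_iUnion]
    refine ⟨(i, j - i, t.length - j), ?_, ?_⟩
    · rw [hI, mem_product, mem_product, mem_range, mem_range, mem_range]
      exact ⟨show i < T + 1 by omega, show j - i < T + 1 by omega, show t.length - j < T + 1 by omega⟩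
    · rw [hE]
      show t ∈ if 1 ≤ j - i ∧ j - i ≤ m then _ else _
      rw [if_pos ⟨by omega, by omega⟩]
      exact ⟨ht.1, by show t.length = i + (j - i + (t.length - j)); omega, h8⟩
  have h2 : ∀ p ∈ I, gf (E p) ≤ ENNReal.ofReal (A / lam ^ Q * (C * ((T : ℝ) + 1) ^ a) ^ 3) := by
    intro p hp
    rw [hI, mem_product, mem_product, mem_range, mem_range, mem_range] at hp
    rw [hE]
    show gf (if 1 ≤ p.2.1 ∧ p.2.1 ≤ m then _ else _) ≤ _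
    split_ifs with hc
    · refine split_le (by linarith) hS (by omega) (by omega) (by omega) (by positivity) ?_
      refine (gf_mono ?_).trans (hfar p.2.1 lam hc.1 hlam1)
      rintro t ⟨g1, g2⟩
      refine ⟨g1, le_trans ?_ g2⟩
      have g3 : (p.2.1 : ℝ) ^ (3 / 4 : ℝ) ≤ (m : ℝ) ^ (3 / 4 : ℝ) :=
        Real.rpow_le_rpow (Nat.cast_nonneg _) (by exact_mod_cast hc.2) (by norm_num)
      calc lam * (p.2.1 : ℝ) ^ (3 / 4 : ℝ) ≤ lam * (m : ℝ) ^ (3 / 4 : ℝ) := mul_le_mul_of_nonneg_left g3 hlam0.le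
        _ = (2 : ℝ) ^ (δ * K) * (m : ℝ) ^ (3 / 4 : ℝ) / 2 := by rw [hlam]; ring
        _ ≤ d / 2 := div_le_div_of_nonneg_right hd (by norm_num)
    · have e3 : gf (∅ : Set (List Bool)) = 0 := by unfold gf; exact tsum_empty
      rw [e3]
      exact bot_le
  have hcard : (I.card : ℝ) = ((T : ℝ) + 1) ^ 3 := by
    rw [hI, card_product, card_product, card_range]
    push_cast
    ring
  have hTK : (T : ℝ) + 1 ≤ 200 * 4 ^ K := by
    rw [hT]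
    have : (1 : ℝ) ≤ 4 ^ K := one_le_pow₀ (by norm_num)
    push_cast
    linarith
  have hT0 : (0 : ℝ) ≤ (T : ℝ) + 1 := by positivity
  -- the numbers
  have hQK : (2 : ℝ) ^ ((6 * a + 8) * K) ≤ 2 ^ Q * lam ^ Q := by
    have e1 : (2 : ℝ) ^ Q * lam ^ Q = ((2 : ℝ) ^ (δ * K)) ^ Q := by
      rw [← mul_pow, hlam]
      congr 1
      ring
    rw [e1, ← Real.rpow_natCast ((2 : ℝ) ^ (δ * K)) Q, ← Real.rpow_mul (by norm_num), ← Real.rpow_natCast]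
    refine Real.rpow_le_rpow_of_exponent_le (by norm_num) ?_
    rw [div_le_iff₀ hδ] at hQ
    have hK0 : (0 : ℝ) ≤ K := Nat.cast_nonneg _
    push_cast at hQ ⊢
    nlinarith
  have hfin : ((T : ℝ) + 1) ^ 3 * (A / lam ^ Q * (C * ((T : ℝ) + 1) ^ a) ^ 3) ≤ (2 : ℝ) ^ (-(K : ℝ)) / 4 := by
    have e1 : ((T : ℝ) + 1) ^ 3 * (A / lam ^ Q * (C * ((T : ℝ) + 1) ^ a) ^ 3) ≤
        (200 * 4 ^ K) ^ 3 * (A / lam ^ Q * (C * (200 * 4 ^ K) ^ a) ^ 3) := by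
      have hC0 : 0 ≤ C := by linarith
      gcongr
    have e2 : (200 * 4 ^ K) ^ 3 * (A / lam ^ Q * (C * (200 * 4 ^ K) ^ a) ^ 3) =
        M / 4 * (2 : ℝ) ^ ((6 * a + 6) * K) / (2 ^ Q * lam ^ Q) := by
      have e3 : (2 : ℝ) ^ ((6 * a + 6) * K) = ((4 : ℝ) ^ K) ^ 3 * (((4 : ℝ) ^ K) ^ a) ^ 3 := by
        have e5 : (4 : ℝ) ^ K = (2 : ℝ) ^ (2 * K) := by rw [show (4 : ℝ) = 2 ^ 2 by norm_num, ← pow_mul]
        rw [e5, ← pow_mul, ← pow_mul, ← pow_mul, ← pow_add]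
        congr 1
        ring
      obtain ⟨x, hx⟩ : ∃ x : ℝ, x = (4 : ℝ) ^ K := ⟨_, rfl⟩
      rw [hM, e3, ← hx, mul_pow 200 x a]
      field_simp
      ring
    have e4 : M * (2 : ℝ) ^ ((6 * a + 6) * K) * 2 ^ K ≤ 2 ^ Q * lam ^ Q := by
      refine le_trans ?_ hQK
      have h3 : M ≤ 2 ^ K := hK1.le.trans (pow_le_pow_right₀ (by norm_num) ((le_max_left _ _).trans hK))
      calc M * (2 : ℝ) ^ ((6 * a + 6) * K) * 2 ^ K ≤ 2 ^ K * (2 : ℝ) ^ ((6 * a + 6) * K) * 2 ^ K := by gcongr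
        _ = (2 : ℝ) ^ ((6 * a + 8) * K) := by
            rw [← pow_add, ← pow_add]
            congr 1
            ring
    refine e1.trans ?_
    rw [e2, Real.rpow_neg (by norm_num), Real.rpow_natCast, div_le_iff₀ (by positivity)]
    have h2K : (0 : ℝ) < 2 ^ K := by positivity
    calc M / 4 * (2 : ℝ) ^ ((6 * a + 6) * K) = M * (2 : ℝ) ^ ((6 * a + 6) * K) * 2 ^ K * ((2 ^ K)⁻¹ / 4) := by
          field_simp
      _ ≤ 2 ^ Q * lam ^ Q * ((2 ^ K)⁻¹ / 4) := mul_le_mul_of_nonneg_right e4 (by positivity)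
      _ = _ := by ring
  calc gf (WL K ∩ Fast m d) ≤ gf (⋃ p ∈ I, E p) := gf_mono h1
    _ ≤ ∑ p ∈ I, gf (E p) := JumpVaux.gf_biUnion_le I E
    _ ≤ ∑ _p ∈ I, ENNReal.ofReal (A / lam ^ Q * (C * ((T : ℝ) + 1) ^ a) ^ 3) := sum_le_sum h2
    _ = ENNReal.ofReal (((T : ℝ) + 1) ^ 3 * (A / lam ^ Q * (C * ((T : ℝ) + 1) ^ a) ^ 3)) := by
        rw [sum_const, nsmul_eq_mul, ← ENNReal.ofReal_natCast, hcard, ← ENNReal.ofReal_mul (by positivity)]
    _ ≤ ENNReal.ofReal ((2 : ℝ) ^ (-(K : ℝ)) / 4) := ENNReal.ofReal_le_ofReal hfin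
    _ ≤ ENNReal.ofReal (4 * ((2 : ℝ) ^ (-(K : ℝ)) / 4) * Ub K) * Xb K ^ 2 := ref_low K _ (by positivity)
    _ = _ := by
        congr 3
        ring

end ATR

end HexObs
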