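import Mathlib

/-!
# ATR, row E: the numbers of the last step (helper59)
-/

set_option autoImplicit false

namespace HexObs

namespace ATR

open Filter Topology

/-- a linear function is smaller than an exponential one -/
lemma lin_exp {x : ℝ} (hx : 0 < x) (A B : ℝ) : ∃ K0 : ℕ, ∀ K : ℕ, K0 ≤ K → A * K + B ≤ (2 : ℝ) ^ (x * K) := by
  have hb : (1 : ℝ) < 2 ^ x := Real.one_lt_rpow (by norm_num) hx
  have h1 := tendsto_pow_const_div_const_pow_of_one_lt 1 hb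
  have h0 := tendsto_pow_const_div_const_pow_of_one_lt 0 hb
  have h2 : Tendsto (fun n : ℕ => A * ((n : ℝ) ^ 1 / ((2 : ℝ) ^ x) ^ n) + B * ((n : ℝ) ^ 0 / ((2 : ℝ) ^ x) ^ n)) atTop (𝓝 0) := by
    have := (h1.const_mul A).add (h0.const_mul B)
    simpa using this
  have h3 : ∀ᶠ n : ℕ in atTop, A * ((n : ℝ) ^ 1 / ((2 : ℝ) ^ x) ^ n) + B * ((n : ℝ) ^ 0 / ((2 : ℝ) ^ x) ^ n) < 1 :=
    h2.eventually (gt_mem_nhds (by norm_num))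
  obtain ⟨K0, hK0⟩ := eventually_atTop.1 h3
  refine ⟨K0, fun K hK => ?_⟩
  have h4 := hK0 K hK
  have h5 : (0 : ℝ) < ((2 : ℝ) ^ x) ^ K := by positivity
  have h6 : (2 : ℝ) ^ (x * K) = ((2 : ℝ) ^ x) ^ K := by rw [Real.rpow_mul (by norm_num), Real.rpow_natCast]
  rw [h6]
  have h7 : A * ((K : ℝ) ^ 1 / ((2 : ℝ) ^ x) ^ K) + B * ((K : ℝ) ^ 0 / ((2 : ℝ) ^ x) ^ K) = (A * K + B) / ((2 : ℝ) ^ x) ^ K := by
    rw [pow_one, pow_zero]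
    ring
  rw [h7, div_lt_one h5] at h4
  exact h4.le

lemma const_exp {x : ℝ} (hx : 0 < x) (B : ℝ) : ∃ K0 : ℕ, ∀ K : ℕ, K0 ≤ K → B ≤ (2 : ℝ) ^ (x * K) := by
  obtain ⟨K0, h⟩ := lin_exp hx 0 B
  refine ⟨K0, fun K hK => ?_⟩
  have := h K hK
  linarith

/-- a floor is at least half -/
lemma half_floor {z : ℝ} (hz : 1 ≤ z) : z / 2 ≤ (⌊z⌋₊ : ℝ) := by
  have h1 : z < ⌊z⌋₊ + 1 := Nat.lt_floor_add_one z
  have h2 : (1 : ℝ) ≤ ⌊z⌋₊ := by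
    have : 1 ≤ ⌊z⌋₊ := Nat.le_floor (by simpa using hz)
    exact_mod_cast this
  linarith

/-- the number of (M5) -/
lemma num_M5 {θ τ : ℝ} {s K : ℕ} (hθ1 : θ ≤ 1 / 2) (hτ : 0 ≤ τ) (hsK : s ≤ K) (hz : 1 ≤ ((⌈2 * (2 : ℝ) ^ ((1 - θ) * s)⌉₊ : ℝ) *
      (2 : ℝ) ^ (-(τ * K))) ^ (4 / 3 : ℝ)) :
    (((⌈(2 : ℝ) ^ ((4 / 3 + τ) * K)⌉₊ : ℝ) + 1) * (4 * (⌈2 * (2 : ℝ) ^ ((1 - θ) * s)⌉₊ : ℝ) + 1) ^ 2 /
      (⌊((⌈2 * (2 : ℝ) ^ ((1 - θ) * s)⌉₊ : ℝ) * (2 : ℝ) ^ (-(τ * K))) ^ (4 / 3 : ℝ)⌋₊ : ℝ)) / 4 ^ K ≤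
    450 * (2 : ℝ) ^ ((7 / 3 * τ - 2 / 3 * θ) * K) := by
  obtain ⟨x, hx⟩ : ∃ x : ℝ, x = (2 : ℝ) ^ ((1 - θ) * s) := ⟨_, rfl⟩
  rw [← hx] at hz ⊢
  have hK0 : (0 : ℝ) ≤ K := Nat.cast_nonneg _
  have hs0 : (0 : ℝ) ≤ s := Nat.cast_nonneg _
  have hx1 : 1 ≤ x := by
    rw [hx]
    exact Real.one_le_rpow (by norm_num) (mul_nonneg (by linarith) hs0)
  obtain ⟨D, hD⟩ : ∃ D : ℝ, D = (⌈2 * x⌉₊ : ℝ) := ⟨_, rfl⟩
  rw [← hD] at hz ⊢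
  have hD1 : 2 * x ≤ D := by rw [hD]; exact Nat.le_ceil _
  have hD2 : D ≤ 3 * x := by
    rw [hD]
    have := Nat.ceil_lt_add_one (show 0 ≤ 2 * x by linarith)
    linarith
  have hD0 : 0 < D := by linarith
  obtain ⟨T, hT⟩ : ∃ T : ℝ, T = (2 : ℝ) ^ ((4 / 3 + τ) * K) := ⟨_, rfl⟩
  rw [← hT]
  have hT1 : 1 ≤ T := by
    rw [hT]
    exact Real.one_le_rpow (by norm_num) (mul_nonneg (by linarith) hK0)
  have hTc : (⌈T⌉₊ : ℝ) + 1 ≤ 3 * T := by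
    have := Nat.ceil_lt_add_one (show 0 ≤ T by linarith)
    linarith
  obtain ⟨w, hw⟩ : ∃ w : ℝ, w = (2 : ℝ) ^ (-(τ * K)) := ⟨_, rfl⟩
  rw [← hw] at hz ⊢
  have hw0 : 0 < w := by rw [hw]; positivity
  obtain ⟨z, hzz⟩ : ∃ z : ℝ, z = (D * w) ^ (4 / 3 : ℝ) := ⟨_, rfl⟩
  rw [← hzz] at hz ⊢
  have hzf := half_floor hz
  have hz0 : 0 < z := by linarith
  have e1 : z = D ^ (4 / 3 : ℝ) * w ^ (4 / 3 : ℝ) := by rw [hzz, Real.mul_rpow hD0.le hw0.le]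
  have e2 : D ^ 2 = D ^ (4 / 3 : ℝ) * D ^ (2 / 3 : ℝ) := by
    rw [← Real.rpow_add hD0]
    norm_num
  have e3 : D ^ (2 / 3 : ℝ) ≤ 3 * x ^ (2 / 3 : ℝ) := by
    calc D ^ (2 / 3 : ℝ) ≤ (3 * x) ^ (2 / 3 : ℝ) := Real.rpow_le_rpow hD0.le hD2 (by norm_num)
      _ = 3 ^ (2 / 3 : ℝ) * x ^ (2 / 3 : ℝ) := Real.mul_rpow (by norm_num) (by linarith)
      _ ≤ 3 ^ (1 : ℝ) * x ^ (2 / 3 : ℝ) :=
          mul_le_mul_of_nonneg_right (Real.rpow_le_rpow_of_exponent_le (by norm_num) (by norm_num)) (by positivity)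
      _ = _ := by rw [Real.rpow_one]
  have h4 : (4 * D + 1) ^ 2 ≤ 25 * D ^ 2 := by nlinarith
  have h5 : ((⌈T⌉₊ : ℝ) + 1) * (4 * D + 1) ^ 2 / (⌊z⌋₊ : ℝ) ≤ 450 * (T * x ^ (2 / 3 : ℝ) / w ^ (4 / 3 : ℝ)) := by
    rw [div_le_iff₀ (by linarith)]
    have hw43 : 0 < w ^ (4 / 3 : ℝ) := by positivity
    have hx23 : 0 < x ^ (2 / 3 : ℝ) := by positivity
    calc ((⌈T⌉₊ : ℝ) + 1) * (4 * D + 1) ^ 2 ≤ (3 * T) * (25 * D ^ 2) := mul_le_mul hTc h4 (by positivity) (by positivity)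
      _ = 75 * T * (D ^ (4 / 3 : ℝ) * D ^ (2 / 3 : ℝ)) := by rw [← e2]; ring
      _ ≤ 75 * T * (D ^ (4 / 3 : ℝ) * (3 * x ^ (2 / 3 : ℝ))) := by gcongr
      _ = 450 * (T * x ^ (2 / 3 : ℝ) / w ^ (4 / 3 : ℝ)) * (z / 2) := by
          rw [e1]
          field_simp
          ring
      _ ≤ _ := mul_le_mul_of_nonneg_left hzf (by positivity)
  refine (div_le_div_of_nonneg_right h5 (by positivity)).trans (le_of_eq_of_le (b := 450 * (2 : ℝ) ^ ((4 / 3 + τ) * K + 2 / 3 * ((1 - θ) * s) +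
    4 / 3 * (τ * K) - 2 * K)) ?_ ?_)
  · have f1 : x ^ (2 / 3 : ℝ) = (2 : ℝ) ^ (2 / 3 * ((1 - θ) * s)) := by
      rw [hx, ← Real.rpow_mul (by norm_num), mul_comm]
    have f2 : w ^ (4 / 3 : ℝ) = ((2 : ℝ) ^ (4 / 3 * (τ * K)))⁻¹ := by
      rw [hw, ← Real.rpow_mul (by norm_num), ← Real.rpow_neg (by norm_num)]
      congr 1
      ring
    have f3 : (4 : ℝ) ^ K = (2 : ℝ) ^ (2 * (K : ℝ)) := by
      rw [show (4 : ℝ) = 2 ^ (2 : ℝ) by norm_num, ← Real.rpow_natCast, ← Real.rpow_mul (by norm_num)]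
    rw [f1, f2, f3, hT, Real.rpow_sub (by norm_num), Real.rpow_add (by norm_num), Real.rpow_add (by norm_num)]
    have : (0 : ℝ) < (2 : ℝ) ^ (4 / 3 * (τ * K)) := by positivity
    field_simp
  · refine mul_le_mul_of_nonneg_left (Real.rpow_le_rpow_of_exponent_le (by norm_num) ?_) (by norm_num)
    have h6 : (s : ℝ) ≤ K := by exact_mod_cast hsK
    have h7 : (1 - θ) * (s : ℝ) ≤ (1 - θ) * K := mul_le_mul_of_nonneg_left h6 (by linarith)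
    nlinarith

end ATR

end HexObs
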