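import Pool.Agent.ATR.GeoR
import Pool.Agent.ATR.RetNum
import Pool.Agent.NTA.TbM
import Pool.Agent.SIM.FinAllS
import Pool.Agent.SIM.RegAll

/-!
# ATR, row E: the words that come back near their start have little mass (helper59)
-/

set_option autoImplicit false

namespace HexObs

namespace ATR

open Finset TS SDN NTA NTW TIP HexObs.SIM

open scoped ENNReal

open NTF (JJ)

lemma five_sum {K : ℕ} {S B1 B2 B3 B4 B5 : Set (List Bool)} {y : ℝ} (hy : 0 ≤ y)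
    (hsub : S ⊆ B1 ∪ B2 ∪ B3 ∪ B4 ∪ B5)
    (h1 : gf B1 ≤ ENNReal.ofReal (y / 5 * Ub K) * Xb K ^ 2) (h2 : gf B2 ≤ ENNReal.ofReal (y / 5 * Ub K) * Xb K ^ 2)
    (h3 : gf B3 ≤ ENNReal.ofReal (y / 5 * Ub K) * Xb K ^ 2) (h4 : gf B4 ≤ ENNReal.ofReal (y / 5 * Ub K) * Xb K ^ 2)
    (h5 : gf B5 ≤ ENNReal.ofReal (y / 5 * Ub K) * Xb K ^ 2) : gf S ≤ ENNReal.ofReal (y * Ub K) * Xb K ^ 2 := by
  have hU := TS.Ub_pos K
  refine (gf_mono hsub).trans ((gf_union_le _ _).trans ?_)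
  refine (add_le_add ((gf_union_le _ _).trans (add_le_add ((gf_union_le _ _).trans (add_le_add ((gf_union_le _ _).trans
    (add_le_add h1 h2)) h3)) h4)) h5).trans (le_of_eq ?_)
  have e : y * Ub K = y / 5 * Ub K + y / 5 * Ub K + y / 5 * Ub K + y / 5 * Ub K + y / 5 * Ub K := by ring
  rw [e, ENNReal.ofReal_add (by positivity) (by positivity), ENNReal.ofReal_add (by positivity) (by positivity),
    ENNReal.ofReal_add (by positivity) (by positivity), ENNReal.ofReal_add (by positivity) (by positivity)]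
  ring

lemma le_scale {K : ℕ} {S : Set (List Bool)} {x y : ℝ} (h : gf S ≤ ENNReal.ofReal (x * Ub K) * Xb K ^ 2) (hxy : x ≤ y) :
    gf S ≤ ENNReal.ofReal (y * Ub K) * Xb K ^ 2 :=
  h.trans (mul_le_mul_left (ENNReal.ofReal_le_ofReal (mul_le_mul_of_nonneg_right hxy (TS.Ub_pos K).le)) _)

/-- constants are powers of 2 -/
lemma exists_pow2 (C : ℝ) : ∃ a : ℕ, 1 ≤ a ∧ C ≤ 2 ^ a := by
  obtain ⟨a, ha⟩ := pow_unbounded_of_one_lt C (show (1 : ℝ) < 2 by norm_num)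
  exact ⟨a + 1, by omega, ha.le.trans (pow_le_pow_right₀ (by norm_num) (by omega))⟩

/-- **row E**: the words that come back near their start have little mass -/
theorem retM_of (hQ : CutQ) (hF : FastM) : RetM := by
  intro θ₀ hθ₀
  obtain ⟨θ, hθ, hθle, hθ2⟩ : ∃ θ : ℝ, 0 < θ ∧ θ ≤ θ₀ ∧ θ ≤ 1 / 2 :=
    ⟨min θ₀ (1 / 2), lt_min hθ₀ (by norm_num), min_le_left _ _, min_le_right _ _⟩
  obtain ⟨τ, hτ⟩ : ∃ τ : ℝ, τ = θ / 12 := ⟨_, rfl⟩
  have hτ0 : 0 < τ := by rw [hτ]; positivity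
  -- the rows
  obtain ⟨Λ, k1, dd, hΛ, hd0, hd4, hdi, hcut⟩ := hQ
  obtain ⟨CM, kM, hCM, hmass⟩ := mass_R
  obtain ⟨Cr, cr, kr, Jr, nr, hCr, hcr, hreg⟩ := reg (A := 6) (by norm_num) 8
  obtain ⟨KF, hfast⟩ := hF τ hτ0
  obtain ⟨AT, hAT, htail⟩ := ta_M 1
  obtain ⟨CZ₀, hCZ₀⟩ := mupZ
  obtain ⟨CZ, hCZ1, hCZ⟩ : ∃ C : ℝ, 1 ≤ C ∧ ∀ k : ℕ, PW.mZ (2 ^ k) ≤ C * (2 : ℝ) ^ (4 / 3 * (k : ℝ)) :=
    ⟨max 1 CZ₀, le_max_left _ _, fun k => (hCZ₀ k).trans (mul_le_mul_of_nonneg_right (le_max_right _ _) (by positivity))⟩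
  obtain ⟨a, ha1, ha⟩ := exists_pow2 CM
  obtain ⟨b, hb1, hb⟩ := exists_pow2 Cr
  have ha1' : (1 : ℝ) ≤ a := by exact_mod_cast ha1
  have hΛ' : (1 : ℝ) ≤ Λ := by exact_mod_cast hΛ
  -- the parameters
  obtain ⟨ε, hε⟩ : ∃ ε : ℝ, ε = θ / (12 * a * (1 + Λ)) := ⟨_, rfl⟩
  have hden : (24 : ℝ) ≤ 12 * a * (1 + Λ) := by nlinarith
  have hε0 : 0 < ε := by rw [hε]; positivity
  have hε1 : ε ≤ θ / 24 := by
    rw [hε]
    exact div_le_div_of_nonneg_left hθ.le (by norm_num) hden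
  have hε2 : (a : ℝ) * ((1 + Λ) * ε) = θ / 12 := by
    rw [hε]
    field_simp
  have hε3 : (1 + Λ) * ε ≤ 1 / 24 := by
    have h1 : (1 : ℝ) * ((1 + Λ) * ε) ≤ a * ((1 + Λ) * ε) := mul_le_mul_of_nonneg_right ha1' (by positivity)
    linarith
  obtain ⟨K1, hK1⟩ := lin_exp (show 0 < ε / 4 by positivity) ((b + 1) / cr) (3 / cr)
  obtain ⟨K2, hK2⟩ := const_exp (show 0 < ε / 4 by positivity) (nr + 10)
  obtain ⟨K3, hK3⟩ := const_exp (show 0 < τ / 2 by positivity) (5 * (AT * CZ))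
  obtain ⟨K4, hK4⟩ := const_exp (show 0 < θ / 12 by positivity) 2250
  obtain ⟨K5, hK5⟩ := const_exp hτ0 CZ
  obtain ⟨K6, hK6⟩ := exists_nat_gt ((Jr + 50) / ε)
  refine ⟨ε / 8, ε / 4, 2 * (K1 + K2 + K3 + K4 + K5 + K6 + KF + kr + kM + k1 + 20), by positivity, by positivity,
    fun s K hs0 hsK hKs d hd => ?_⟩
  have hsr : (s : ℝ) ≤ K := by exact_mod_cast hsK
  have hK0 : (0 : ℝ) ≤ K := Nat.cast_nonneg _
  have hs0' : (0 : ℝ) ≤ s := Nat.cast_nonneg _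
  have hgap : (K : ℝ) - s ≤ ε * K / 8 := by
    have : ε / 8 * (s : ℝ) ≤ ε / 8 * K := mul_le_mul_of_nonneg_left hsr (by positivity)
    nlinarith
  have hεK : (Jr : ℝ) + 50 < ε * K := by
    have h1 : (K6 : ℝ) ≤ K := by exact_mod_cast (show K6 ≤ K by omega)
    have h2 := hK6.trans_le h1
    rw [div_lt_iff₀ hε0] at h2
    linarith
  -- the scales
  obtain ⟨J, hJ⟩ : ∃ J : ℕ, J = ⌊ε * K⌋₊ := ⟨_, rfl⟩
  have hJ1 : (J : ℝ) ≤ ε * K := by rw [hJ]; exact Nat.floor_le (by positivity)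
  have hJ2 : ε * K < J + 1 := by rw [hJ]; exact Nat.lt_floor_add_one _
  have hJbig : Jr + 49 ≤ J := by
    have : (Jr : ℝ) + 49 < J := by linarith
    exact_mod_cast this.le
  have hJK : 24 * ((1 + Λ) * J) ≤ K := by
    have h1 : (24 : ℝ) * ((1 + Λ) * J) ≤ K := by
      have h2 : (1 + (Λ : ℝ)) * J ≤ (1 + Λ) * (ε * K) := mul_le_mul_of_nonneg_left hJ1 (by positivity)
      nlinarith
    exact_mod_cast h1
  have hΛJ : (1 + Λ) * J = J + Λ * J := by ring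
  have hJK' : J ≤ K := by
    rw [hΛJ] at hJK
    omega
  obtain ⟨kc, hkc⟩ : ∃ kc : ℕ, K = kc + J := ⟨K - J, by omega⟩
  have hd4J : dd 4 * J ≤ Λ * J := Nat.mul_le_mul_right _ hd4
  have hdJ : kM + k1 + kr + dd 4 * J ≤ kc ∧ k1 + Λ * J ≤ kc := by
    rw [hΛJ] at hJK
    constructor <;> omega
  have hKJ : (K : ℝ) = kc + J := by rw [hkc]; push_cast; rfl
  obtain ⟨q, hq⟩ : ∃ q : ℕ, s = kc + 5 + 2 + q := by
    refine ⟨s - (kc + 7), ?_⟩
    have h1 : (kc : ℝ) + 7 ≤ s := by linarith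
    have h2 : kc + 7 ≤ s := by exact_mod_cast h1
    omega
  have hqr : (s : ℝ) = kc + 7 + q := by rw [hq]; push_cast; ring
  have hq1 : ε / 4 * K ≤ (q : ℝ) - 2 := by linarith
  obtain ⟨ν, hν⟩ : ∃ ν : ℕ, ν = 2 ^ q := ⟨_, rfl⟩
  have hνr : (ν : ℝ) = 2 ^ (q : ℝ) := by rw [hν]; push_cast; rw [Real.rpow_natCast]
  have hν1 : (2 : ℝ) ^ (ε / 4 * K) ≤ ν := by
    rw [hνr]
    exact Real.rpow_le_rpow_of_exponent_le (by norm_num) (by linarith)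
  have hνn : nr + 10 ≤ ν := by
    have h1 : ((nr + 10 : ℕ) : ℝ) ≤ ν := by
      push_cast
      exact (hK2 K (by omega)).trans hν1
    exact_mod_cast h1
  -- the radius
  obtain ⟨x, hx⟩ : ∃ x : ℝ, x = (2 : ℝ) ^ ((1 - θ) * s) := ⟨_, rfl⟩
  have hdx : d ≤ x := hd.trans (by
    rw [hx]
    exact Real.rpow_le_rpow_of_exponent_le (by norm_num) (mul_le_mul_of_nonneg_right (by linarith) hs0'))
  obtain ⟨Dd, hDd⟩ : ∃ Dd : ℕ, Dd = ⌈2 * x⌉₊ := ⟨_, rfl⟩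
  have hx1 : 1 ≤ x := by
    rw [hx]
    exact Real.one_le_rpow (by norm_num) (mul_nonneg (by linarith) hs0')
  have hD1 : 2 * x ≤ Dd := by rw [hDd]; exact Nat.le_ceil _
  have hD2 : (Dd : ℝ) ≤ 3 * x := by
    rw [hDd]
    have := Nat.ceil_lt_add_one (show 0 ≤ 2 * x by linarith)
    linarith
  have hDr : Dd < 2 ^ (kc + 5) := by
    have h1 : (Dd : ℝ) < 2 ^ (kc + 5) := by
      have h2 : (4 : ℝ) * x ≤ 2 ^ (kc + 5) := by
        rw [hx, show (4 : ℝ) = 2 ^ (2 : ℝ) by norm_num, ← Real.rpow_add (by norm_num), ← Real.rpow_natCast]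
        refine Real.rpow_le_rpow_of_exponent_le (by norm_num) ?_
        push_cast
        have h3 : θ / 24 * K ≤ θ / 12 * s := by
          have h4 : (K : ℝ) ≤ 2 * s := by nlinarith
          nlinarith
        nlinarith
      linarith
    exact_mod_cast h1
  -- the speed
  obtain ⟨z, hz⟩ : ∃ z : ℝ, z = ((Dd : ℝ) * (2 : ℝ) ^ (-(τ * K))) ^ (4 / 3 : ℝ) := ⟨_, rfl⟩
  have hz1 : 1 ≤ z := by
    rw [hz]
    refine Real.one_le_rpow ?_ (by norm_num)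
    have h1 : (2 : ℝ) ^ (τ * K) ≤ x := by
      rw [hx]
      refine Real.rpow_le_rpow_of_exponent_le (by norm_num) ?_
      have h4 : (K : ℝ) ≤ 2 * s := by nlinarith
      have h5 : τ * K ≤ 1 / 24 * (2 * s) := mul_le_mul (by linarith) h4 hK0 (by norm_num)
      nlinarith
    have h2 : (2 : ℝ) ^ (-(τ * K)) = ((2 : ℝ) ^ (τ * K))⁻¹ := Real.rpow_neg (by norm_num) _
    rw [h2, ← div_eq_mul_inv, one_le_div (by positivity)]
    linarith
  obtain ⟨m, hm⟩ : ∃ m : ℕ, m = ⌊z⌋₊ := ⟨_, rfl⟩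
  have hm1 : 1 ≤ m := by rw [hm]; exact Nat.le_floor (by simpa using hz1)
  have hmz : (m : ℝ) ≤ z := by rw [hm]; exact Nat.floor_le (by linarith)
  have hfm : (2 : ℝ) ^ (τ * K) * (m : ℝ) ^ (3 / 4 : ℝ) ≤ Dd := by
    have h1 : (m : ℝ) ^ (3 / 4 : ℝ) ≤ (Dd : ℝ) * (2 : ℝ) ^ (-(τ * K)) := by
      calc (m : ℝ) ^ (3 / 4 : ℝ) ≤ z ^ (3 / 4 : ℝ) := Real.rpow_le_rpow (by positivity) hmz (by norm_num)
        _ = _ := by
            rw [hz, ← Real.rpow_mul (by positivity)]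
            norm_num
    calc (2 : ℝ) ^ (τ * K) * (m : ℝ) ^ (3 / 4 : ℝ) ≤ (2 : ℝ) ^ (τ * K) * ((Dd : ℝ) * (2 : ℝ) ^ (-(τ * K))) := by gcongr
      _ = Dd * ((2 : ℝ) ^ (τ * K) * (2 : ℝ) ^ (-(τ * K))) := by ring
      _ = Dd := by
          rw [← Real.rpow_add (by norm_num), add_neg_cancel, Real.rpow_zero, mul_one]
  -- the length
  obtain ⟨T, hT⟩ : ∃ T : ℕ, T = ⌈(2 : ℝ) ^ ((4 / 3 + τ) * K)⌉₊ := ⟨_, rfl⟩
  obtain ⟨lam, hlam⟩ : ∃ lam : ℝ, lam = (2 : ℝ) ^ (τ * K) / CZ := ⟨_, rfl⟩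
  have hlam1 : 1 ≤ lam := by
    rw [hlam, one_le_div (by linarith)]
    exact hK5 K (by omega)
  have hlT : lam * PW.mZ (2 ^ K) ≤ T := by
    calc lam * PW.mZ (2 ^ K) ≤ lam * (CZ * (2 : ℝ) ^ (4 / 3 * (K : ℝ))) := mul_le_mul_of_nonneg_left (hCZ K) (by linarith)
      _ = (2 : ℝ) ^ (τ * K) * (2 : ℝ) ^ (4 / 3 * (K : ℝ)) := by
          rw [hlam]
          field_simp
      _ = (2 : ℝ) ^ ((4 / 3 + τ) * K) := by
          rw [← Real.rpow_add (by norm_num)]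
          congr 1
          ring
      _ ≤ T := by rw [hT]; exact Nat.le_ceil _
  -- the target
  obtain ⟨y, hy⟩ : ∃ y : ℝ, y = (2 : ℝ) ^ (-(ε / 4 * s)) := ⟨_, rfl⟩
  have hy0 : 0 < y := by rw [hy]; positivity
  have hyK : (2 : ℝ) ^ (-(ε / 4 * K)) ≤ y := by
    rw [hy]
    refine Real.rpow_le_rpow_of_exponent_le (by norm_num) ?_
    have : ε / 4 * (s : ℝ) ≤ ε / 4 * K := mul_le_mul_of_nonneg_left hsr (by positivity)
    linarith
  have h5K : (5 : ℝ) ≤ (2 : ℝ) ^ (ε / 4 * K) := by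
    have h1 := hK2 K (by omega)
    have h2 : (0 : ℝ) ≤ nr := Nat.cast_nonneg _
    linarith
  have hyK2 : ∀ u : ℝ, u ≤ -(ε / 2 * K) → (2 : ℝ) ^ u ≤ y / 5 := by
    intro u hu
    have h1 : (2 : ℝ) ^ u ≤ (2 : ℝ) ^ (-(ε / 4 * K) + -(ε / 4 * K)) :=
      Real.rpow_le_rpow_of_exponent_le (by norm_num) (by linarith)
    have h2 : (2 : ℝ) ^ (-(ε / 4 * K)) ≤ 1 / 5 := by
      rw [Real.rpow_neg (by norm_num), ← one_div]
      exact one_div_le_one_div_of_le (by norm_num) h5K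
    rw [Real.rpow_add (by norm_num)] at h1
    have h3 : (0 : ℝ) < (2 : ℝ) ^ (-(ε / 4 * K)) := by positivity
    calc (2 : ℝ) ^ u ≤ (2 : ℝ) ^ (-(ε / 4 * K)) * (2 : ℝ) ^ (-(ε / 4 * K)) := h1
      _ ≤ y * (1 / 5) := mul_le_mul hyK h2 h3.le hy0.le
      _ = y / 5 := by ring
  rw [← hy]
  refine five_sum (B1 := {t | t ∈ WL K ∧ Irg 6 8 (kc + 5) ν t}) (B2 := EQ2 kc J (SV kc J dd)) (B3 := WL K ∩ Fast m Dd)
    (B4 := {t | t ∈ WL K ∧ lam * PW.mZ (2 ^ K) ≤ (t.length : ℝ)})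
    (B5 := {t | (t ∈ WL K ∧ t.length ≤ T ∧ t ∉ Fast m Dd) ∧ Cut3 (NearR Dd Dd) (TopE (kc + 3) K)
      (BotS (kc - dd 4 * J) (K + 1)) (2 ^ (kc - (dd 3 * J + 1))) (2 ^ kc) t}) hy0.le ?_ ?_ ?_ ?_ ?_ ?_
  · rintro t ⟨ht, i, j, hij, hj, hfar, hnear, -⟩
    by_contra hc
    simp only [Set.mem_union, not_or] at hc
    obtain ⟨⟨⟨⟨c1, c2⟩, c3⟩, c4⟩, c5⟩ := hc
    have c1' : ¬ Irg 6 8 (kc + 5) ν t := fun h => c1 ⟨ht, h⟩
    have c3' : t ∉ Fast m Dd := fun h => c3 ⟨ht, h⟩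
    have c4' : t.length ≤ T := by
      by_contra h
      refine c4 ⟨ht, hlT.trans ?_⟩
      exact_mod_cast (not_le.1 h).le
    refine c5 ⟨⟨ht, c4', c3'⟩, ?_⟩
    rw [hkc]
    refine geo_ret (s := s) (i := i) (j := j) (x := x) hd0 hdi (by omega) (by omega) (by rw [← hkc]; exact ht) c2 c1'
      (by omega) ?_ hDr hD1 hij hj hfar (hnear.trans hdx)
    rw [hν, hq]
    push_cast
    have e1 : (2 : ℝ) ^ (kc + 5 + 2 + q) = 4 * (2 ^ q * 2 ^ (kc + 5)) := by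
      rw [pow_add _ _ q, pow_add _ _ 2]
      ring
    rw [e1]
    have : (0 : ℝ) < 2 ^ q * 2 ^ (kc + 5) := by positivity
    linarith
  · -- the irregular words
    have h1 := hreg (kc + 5) (J - 5) ν (by omega) (by omega) (by omega)
    rw [show kc + 5 + (J - 5) = K by omega] at h1
    refine le_scale h1 ?_
    have h2 : Cr ^ (J - 5) ≤ (2 : ℝ) ^ ((b : ℝ) * K) := by
      calc Cr ^ (J - 5) ≤ (2 ^ b) ^ (J - 5) := pow_le_pow_left₀ (by linarith) hb _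
        _ ≤ (2 ^ b) ^ K := pow_le_pow_right₀ (one_le_pow₀ (by norm_num)) (by omega)
        _ = (2 : ℝ) ^ ((b : ℝ) * K) := by
            rw [← pow_mul, ← Real.rpow_natCast]
            push_cast
            rfl
    have h3 : (b + 1) / cr * K + 3 / cr ≤ (ν : ℝ) := (hK1 K (by omega)).trans hν1
    have h4 : (b + 1) * (K : ℝ) + 3 ≤ cr * ν := by
      have h5 : cr * ((b + 1) / cr * K + 3 / cr) = (b + 1) * (K : ℝ) + 3 := by field_simp
      rw [← h5]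
      exact mul_le_mul_of_nonneg_left h3 hcr.le
    calc Cr ^ (J - 5) * (2 : ℝ) ^ (-(cr * ν)) ≤ (2 : ℝ) ^ ((b : ℝ) * K) * (2 : ℝ) ^ (-(cr * ν)) :=
          mul_le_mul_of_nonneg_right h2 (by positivity)
      _ = (2 : ℝ) ^ ((b : ℝ) * K + -(cr * ν)) := (Real.rpow_add (by norm_num) _ _).symm
      _ ≤ y / 5 := by
          refine hyK2 _ ?_
          have h6 : ε / 2 * K ≤ 1 * K := mul_le_mul_of_nonneg_right (by linarith) hK0
          linarith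
  · -- the leaves without cuts
    have h1 := hcut kc J (by omega) hdJ.2
    rw [← hkc] at h1
    refine le_scale h1 ?_
    have h2 : ((1 : ℝ) / 2) ^ J = (2 : ℝ) ^ (-(J : ℝ)) := by
      rw [Real.rpow_neg (by norm_num), Real.rpow_natCast, one_div, inv_pow]
    rw [h2]
    exact hyK2 _ (by linarith)
  · -- the fast factors
    refine le_scale (hfast K m Dd (by omega) hfm) (hyK2 _ ?_)
    have h6 : ε / 2 * K ≤ 1 * K := mul_le_mul_of_nonneg_right (by linarith) hK0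
    linarith
  · -- the long words
    refine le_scale (htail K lam hlam1) ?_
    rw [pow_one]
    have h1 : AT / lam = AT * CZ * (2 : ℝ) ^ (-(τ * K)) := by
      rw [hlam, Real.rpow_neg (by norm_num)]
      field_simp
    have h2 := hK3 K (by omega)
    have h3 : (2 : ℝ) ^ (-(τ * K)) = (2 : ℝ) ^ (-(τ / 2 * K)) * (2 : ℝ) ^ (-(τ / 2 * K)) := by
      rw [← Real.rpow_add (by norm_num)]
      congr 1
      ring
    have h4 : (2 : ℝ) ^ (-(τ / 2 * K)) * (2 : ℝ) ^ (τ / 2 * K) = 1 := by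
      rw [← Real.rpow_add (by norm_num), neg_add_cancel, Real.rpow_zero]
    have h5 : (0 : ℝ) < (2 : ℝ) ^ (-(τ / 2 * K)) := by positivity
    have h6 : (2 : ℝ) ^ (-(τ / 2 * K)) ≤ y := by
      refine le_trans (Real.rpow_le_rpow_of_exponent_le (by norm_num) ?_) hyK
      have : ε / 4 * (K : ℝ) ≤ τ / 2 * K := mul_le_mul_of_nonneg_right (by rw [hτ]; linarith) hK0
      linarith
    rw [h1, h3]
    have h7 : 5 * (AT * CZ) * (2 : ℝ) ^ (-(τ / 2 * K)) ≤ 1 := by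
      calc 5 * (AT * CZ) * (2 : ℝ) ^ (-(τ / 2 * K)) ≤ (2 : ℝ) ^ (τ / 2 * K) * (2 : ℝ) ^ (-(τ / 2 * K)) :=
            mul_le_mul_of_nonneg_right h2 h5.le
        _ = 1 := by rw [mul_comm]; exact h4
    calc AT * CZ * ((2 : ℝ) ^ (-(τ / 2 * K)) * (2 : ℝ) ^ (-(τ / 2 * K))) =
          (5 * (AT * CZ) * (2 : ℝ) ^ (-(τ / 2 * K))) * (2 : ℝ) ^ (-(τ / 2 * K)) / 5 := by ring
      _ ≤ 1 * y / 5 := by gcongr
      _ = y / 5 := by ring
  · -- the three nested bridges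
    have h1 := hmass kc J (dd 3 * J + 1) (dd 4 * J) T m Dd Dd
      {t | (t ∈ WL K ∧ t.length ≤ T ∧ t ∉ Fast m Dd) ∧ Cut3 (NearR Dd Dd) (TopE (kc + 3) K)
        (BotS (kc - dd 4 * J) (K + 1)) (2 ^ (kc - (dd 3 * J + 1))) (2 ^ kc) t} (by omega) ?_ (by omega) hm1 le_rfl
      (fun t ht => by rw [← hkc]; exact ht.1) (fun t ht => by rw [← hkc]; exact ht.2)
    swap
    · have h2 := hdi 3 (by norm_num)
      simp only [Nat.reduceAdd] at h2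
      have h3 : dd 3 * J + 4 * J ≤ dd 4 * J := by rw [← add_mul]; exact Nat.mul_le_mul_right _ h2
      omega
    rw [← hkc] at h1
    refine le_scale h1 ?_
    have h2 : CM ^ (J + dd 4 * J) ≤ (2 : ℝ) ^ (θ / 12 * K) := by
      calc CM ^ (J + dd 4 * J) ≤ (2 ^ a) ^ (J + dd 4 * J) := pow_le_pow_left₀ (by linarith) ha _
        _ ≤ (2 ^ a) ^ ((1 + Λ) * J) := pow_le_pow_right₀ (one_le_pow₀ (by norm_num)) (by rw [hΛJ]; omega)
        _ = (2 : ℝ) ^ ((a : ℝ) * ((1 + Λ) * J)) := by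
            rw [← pow_mul, ← Real.rpow_natCast]
            push_cast
            rfl
        _ ≤ (2 : ℝ) ^ (θ / 12 * K) := by
            refine Real.rpow_le_rpow_of_exponent_le (by norm_num) ?_
            calc (a : ℝ) * ((1 + Λ) * J) ≤ a * ((1 + Λ) * (ε * K)) := by gcongr
              _ = (a * ((1 + Λ) * ε)) * K := by ring
              _ = _ := by rw [hε2]
    have h3 : (((T : ℝ) + 1) * (4 * Dd + 1) ^ 2 / m) / 4 ^ K ≤ 450 * (2 : ℝ) ^ ((7 / 3 * τ - 2 / 3 * θ) * K) := by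
      have h4 := num_M5 (θ := θ) (τ := τ) (s := s) (K := K) hθ2 hτ0.le hsK (by rw [← hx, ← hDd, ← hz]; exact hz1)
      rw [← hx, ← hDd, ← hz, ← hT, ← hm] at h4
      exact h4
    have h4 := hK4 K (by omega)
    have h5 : (2 : ℝ) ^ ((7 / 3 * τ - 2 / 3 * θ) * K) ≤ (2 : ℝ) ^ (-(θ / 12 * K) + -(θ / 12 * K) + -(ε / 4 * K)) := by
      refine Real.rpow_le_rpow_of_exponent_le (by norm_num) ?_
      have h6 : (7 / 3 * τ - 2 / 3 * θ) * (K : ℝ) ≤ (-(θ / 12) + -(θ / 12) + -(ε / 4)) * K :=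
        mul_le_mul_of_nonneg_right (by rw [hτ]; linarith) hK0
      linarith
    rw [Real.rpow_add (by norm_num), Real.rpow_add (by norm_num)] at h5
    have h7 : (2 : ℝ) ^ (θ / 12 * K) * (2 : ℝ) ^ (-(θ / 12 * K)) = 1 := by
      rw [← Real.rpow_add (by norm_num), add_neg_cancel, Real.rpow_zero]
    obtain ⟨p, hp⟩ : ∃ p : ℝ, p = (2 : ℝ) ^ (θ / 12 * K) := ⟨_, rfl⟩
    obtain ⟨p', hp'⟩ : ∃ p' : ℝ, p' = (2 : ℝ) ^ (-(θ / 12 * K)) := ⟨_, rfl⟩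
    rw [← hp] at h2 h4 h7
    rw [← hp'] at h5 h7
    have hp0 : 0 < p := by rw [hp]; positivity
    have hp0' : 0 < p' := by rw [hp']; positivity
    calc CM ^ (J + dd 4 * J) * ((((T : ℝ) + 1) * (4 * Dd + 1) ^ 2 / m) / 4 ^ K)
        ≤ p * (450 * (p' * p' * (2 : ℝ) ^ (-(ε / 4 * K)))) :=
          mul_le_mul h2 (h3.trans (mul_le_mul_of_nonneg_left h5 (by norm_num))) (by positivity) hp0.le
      _ = (2250 * p') * (p * p') * (2 : ℝ) ^ (-(ε / 4 * K)) / 5 := by ring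
      _ ≤ (p * p') * (p * p') * y / 5 := by gcongr
      _ = y / 5 := by rw [h7]; ring

end ATR

end HexObs
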