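import Pool.Agent.ATR.CutQ
import Pool.Agent.ATR.Fast
import Pool.Agent.ATR.Ret

/-!
# ATR, row E without a hypothesis (helper59)
-/

set_option autoImplicit false

namespace HexObs

namespace ATR

/-- **row E**: the words that come back near their start have little mass -/
theorem retM : RetM := retM_of cutQ fastM

end ATR

end HexObs
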