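import Pool.Agent.ATR.Defs2

/-!
ATR, row F1 (helper57): the long walks seldom come back near their start, from the comparison `Cmp` and the mass `RetM`.
-/

set_option autoImplicit false

namespace HexObs

namespace ATR

open Finset TS SDN NTA NTW TIP

open scoped ENNReal

namespace RetPB

lemma Pn_le_one (n : ℕ) (Q : Set (List Bool)) : TOG.Pn n Q ≤ 1 := by
  unfold TOG.Pn
  have h0 : (0 : ℝ) < cS n := by exact_mod_cast TOG.cS_pos n
  rw [div_le_one h0]
  have h1 : {t | t ∈ SawN n ∧ t ∈ Q} ⊆ SawN n := fun t ht => ht.1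
  have h2 : (SawN n).Finite := (List.finite_length_eq Bool n).subset fun _ h => h.1
  exact_mod_cast Set.ncard_le_ncard h1 h2

/-- the floor of a multiple -/
lemma floor_bd {x : ℝ} (hx : 0 ≤ x) : ((⌊x⌋₊ : ℕ) : ℝ) ≤ x ∧ x - 1 ≤ ((⌊x⌋₊ : ℕ) : ℝ) := by
  refine ⟨Nat.floor_le hx, ?_⟩
  have := Nat.lt_floor_add_one x
  linarith

end RetPB

open RetPB

/-- **row F1** -/
theorem retP_of (hC : Cmp) (hR : RetM) : RetP := by
  intro θ hθ
  obtain ⟨C, lam, m0, j0, b0, hC1, hlam, hC⟩ := hC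
  obtain ⟨δ, c, s0, hδ, hc, hR⟩ := hR θ hθ
  obtain ⟨Λ, hΛ1, hΛ⟩ : ∃ Λ : ℕ, 1 ≤ Λ ∧ C ≤ 2 ^ Λ := by
    obtain ⟨k, hk⟩ := pow_unbounded_of_one_lt C (one_lt_two (α := ℝ))
    exact ⟨k + 1, by omega, hk.le.trans (pow_le_pow_right₀ (by norm_num) (by omega))⟩
  have hΛ0 : (1 : ℝ) ≤ Λ := by exact_mod_cast hΛ1
  obtain ⟨κ, hκd⟩ : ∃ κ : ℝ, κ = Real.logb 2 lam := ⟨_, rfl⟩
  have hκ : 0 < κ := by
    rw [hκd]
    exact Real.logb_pos (by norm_num) hlam
  have hκ2 : (2 : ℝ) ^ κ = lam := by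
    rw [hκd]
    exact Real.rpow_logb (by norm_num) (by norm_num) (by linarith)
  obtain ⟨γ, hγd⟩ : ∃ γ : ℝ, γ = min (1 / 2) (c / (4 * Λ)) := ⟨_, rfl⟩
  have hγ : 0 < γ := by
    rw [hγd]
    exact lt_min (by norm_num) (by positivity)
  have hγ1 : γ ≤ 1 / 2 := by rw [hγd]; exact min_le_left _ _
  have hγ2 : Λ * γ ≤ c / 4 := by
    have : γ ≤ c / (4 * Λ) := by rw [hγd]; exact min_le_right _ _
    calc Λ * γ ≤ Λ * (c / (4 * Λ)) := mul_le_mul_of_nonneg_left this (by positivity)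
      _ = c / 4 := by field_simp
  obtain ⟨μ, hμd⟩ : ∃ μ : ℝ, μ = min (δ / 2) (min (γ * κ / (2 * Λ)) (c / (4 * Λ))) := ⟨_, rfl⟩
  have hμ : 0 < μ := by
    rw [hμd]
    exact lt_min (by positivity) (lt_min (by positivity) (by positivity))
  have hμ1 : μ ≤ δ / 2 := by rw [hμd]; exact min_le_left _ _
  have hμ2 : Λ * μ ≤ γ * κ / 2 := by
    have : μ ≤ γ * κ / (2 * Λ) := by rw [hμd]; exact (min_le_right _ _).trans (min_le_left _ _)
    calc Λ * μ ≤ Λ * (γ * κ / (2 * Λ)) := mul_le_mul_of_nonneg_left this (by positivity)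
      _ = γ * κ / 2 := by field_simp
  have hμ3 : Λ * μ ≤ c / 4 := by
    have : μ ≤ c / (4 * Λ) := by rw [hμd]; exact (min_le_right _ _).trans (min_le_right _ _)
    calc Λ * μ ≤ Λ * (c / (4 * Λ)) := mul_le_mul_of_nonneg_left this (by positivity)
      _ = c / 4 := by field_simp
  -- the smallest scale
  obtain ⟨s1, hs1⟩ : ∃ s1 : ℕ, ∀ s : ℕ, s1 ≤ s → s0 ≤ s ∧ b0 ≤ s ∧ (m0 : ℝ) + 1 ≤ μ * s ∧ 2 ≤ γ * s ∧
      (j0 : ℝ) ≤ s / 2 ∧ 10 ≤ δ / 2 * s := by
    obtain ⟨n1, hn1⟩ := exists_nat_ge (((m0 : ℝ) + 1) / μ)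
    obtain ⟨n2, hn2⟩ := exists_nat_ge (2 / γ)
    obtain ⟨n3, hn3⟩ := exists_nat_ge (10 / (δ / 2))
    refine ⟨max (max s0 b0) (max (max n1 n2) (max n3 (2 * j0))), fun s hs => ?_⟩
    have a1 : s0 ≤ s := ((le_max_left _ _).trans (le_max_left _ _)).trans hs
    have a2 : b0 ≤ s := ((le_max_right _ _).trans (le_max_left _ _)).trans hs
    have a3 : n1 ≤ s := (((le_max_left _ _).trans (le_max_left _ _)).trans (le_max_right _ _)).trans hs
    have a4 : n2 ≤ s := (((le_max_right _ _).trans (le_max_left _ _)).trans (le_max_right _ _)).trans hs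
    have a5 : n3 ≤ s := (((le_max_left _ _).trans (le_max_right _ _)).trans (le_max_right _ _)).trans hs
    have a6 : 2 * j0 ≤ s := (((le_max_right _ _).trans (le_max_right _ _)).trans (le_max_right _ _)).trans hs
    have r3 : (n1 : ℝ) ≤ s := by exact_mod_cast a3
    have r4 : (n2 : ℝ) ≤ s := by exact_mod_cast a4
    have r5 : (n3 : ℝ) ≤ s := by exact_mod_cast a5
    have r6 : 2 * (j0 : ℝ) ≤ s := by exact_mod_cast a6
    refine ⟨a1, a2, ?_, ?_, by linarith, ?_⟩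
    · have := hn1.trans r3
      rw [div_le_iff₀ hμ] at this
      linarith
    · have := hn2.trans r4
      rw [div_le_iff₀ hγ] at this
      linarith
    · have := hn3.trans r5
      rw [div_le_iff₀ (by positivity)] at this
      linarith
  -- the constants
  obtain ⟨c', hcd⟩ : ∃ c' : ℝ, c' = min μ (min (γ * κ / 2) (c / 2)) := ⟨_, rfl⟩
  have hc' : 0 < c' := by
    rw [hcd]
    exact lt_min hμ (lt_min (by positivity) (by positivity))
  have hc1 : c' ≤ μ := by rw [hcd]; exact min_le_left _ _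
  have hc2 : c' ≤ γ * κ / 2 := by rw [hcd]; exact (min_le_right _ _).trans (min_le_left _ _)
  have hc3 : c' ≤ c / 2 := by rw [hcd]; exact (min_le_right _ _).trans (min_le_right _ _)
  have hlam0 : 0 < lam := by linarith
  have hCpos : 0 < C := by linarith
  refine ⟨max (C * (3 + lam)) ((2 : ℝ) ^ (c' * s1)), c', lt_max_of_lt_left (by positivity), hc',
    fun s d hd e he => ?_⟩
  rcases Nat.lt_or_ge s s1 with hs | hs
  · -- small scales
    refine ⟨0, fun n _ => (Pn_le_one n _).trans ?_⟩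
    have h1 : (1 : ℝ) ≤ (2 : ℝ) ^ (c' * s1) * (2 : ℝ) ^ (-(c' * s)) := by
      rw [← Real.rpow_add (by norm_num)]
      refine Real.one_le_rpow (by norm_num) ?_
      have : (s : ℝ) ≤ s1 := by exact_mod_cast hs.le
      nlinarith
    have h2 : (2 : ℝ) ^ (c' * s1) * (2 : ℝ) ^ (-(c' * s)) ≤
        max (C * (3 + lam)) ((2 : ℝ) ^ (c' * s1)) * (2 : ℝ) ^ (-(c' * s)) :=
      mul_le_mul_of_nonneg_right (le_max_right _ _) (by positivity)
    linarith
  · obtain ⟨a1, a2, a3, a4, a5, a6⟩ := hs1 s hs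
    have hs0' : (0 : ℝ) ≤ s := Nat.cast_nonneg _
    obtain ⟨m, hmd⟩ : ∃ m : ℕ, m = ⌊μ * s⌋₊ := ⟨_, rfl⟩
    obtain ⟨j, hjd⟩ : ∃ j : ℕ, j = ⌊γ * s⌋₊ := ⟨_, rfl⟩
    obtain ⟨m1, m2⟩ := floor_bd (x := μ * s) (by positivity)
    obtain ⟨j1, j2⟩ := floor_bd (x := γ * s) (by positivity)
    rw [← hmd] at m1 m2
    rw [← hjd] at j1 j2
    have q1 : m0 ≤ m := by
      have : (m0 : ℝ) ≤ m := by linarith
      exact_mod_cast this
    have q2 : 1 ≤ j := by
      have : (1 : ℝ) ≤ j := by linarith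
      exact_mod_cast this
    have q3 : j + j0 ≤ s + 4 := by
      have : (j : ℝ) + j0 ≤ s + 4 := by nlinarith
      exact_mod_cast this
    have q4 : ((s + 4 + m + 6 : ℕ) : ℝ) ≤ (1 + δ) * s := by
      push_cast
      nlinarith
    have q5 : 2 * ((2 : ℝ) ^ (s + 1) + 1) < 2 ^ (s + 4) := by
      have h1 : (1 : ℝ) ≤ 2 ^ s := one_le_pow₀ (by norm_num)
      rw [pow_add, pow_add]
      nlinarith
    have hmass := hR s (s + 4 + m + 6) a1 (by omega) q4 d hd
    obtain ⟨n0, hn0⟩ := hC (s + 4) m j (2 ^ (s + 1)) ((2 : ℝ) ^ (-(c * s))) (Ret s d) (stC_ret s d) (by omega) q1 q2 q3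
      (by positivity) q5 (by positivity) hmass e he
    refine ⟨n0, fun n hn => (hn0 n hn).trans ?_⟩
    refine add_le_add ?_ le_rfl
    refine le_trans ?_ (mul_le_mul_of_nonneg_right (le_max_left _ _) (by positivity))
    rw [mul_assoc]
    refine mul_le_mul_of_nonneg_left ?_ hCpos.le
    -- the powers
    have e1 : (1 / 2 : ℝ) ^ m ≤ 2 * (2 : ℝ) ^ (-(c' * s)) := by
      have h1 : (1 / 2 : ℝ) ^ m = (2 : ℝ) ^ (-(m : ℝ)) := by
        rw [Real.rpow_neg (by norm_num), Real.rpow_natCast, one_div, inv_pow]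
      rw [h1]
      have h2 : (2 : ℝ) * (2 : ℝ) ^ (-(c' * s)) = (2 : ℝ) ^ (1 + -(c' * s)) := by
        rw [Real.rpow_add (by norm_num), Real.rpow_one]
      rw [h2]
      refine Real.rpow_le_rpow_of_exponent_le (by norm_num) ?_
      nlinarith
    have hCm : C ^ m ≤ (2 : ℝ) ^ (Λ * μ * s) := by
      calc C ^ m ≤ ((2 : ℝ) ^ Λ) ^ m := pow_le_pow_left₀ hCpos.le hΛ m
        _ = (2 : ℝ) ^ ((Λ : ℝ) * m) := by
            rw [← pow_mul, ← Real.rpow_natCast]
            push_cast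
            rfl
        _ ≤ (2 : ℝ) ^ (Λ * μ * s) := by
            refine Real.rpow_le_rpow_of_exponent_le (by norm_num) ?_
            nlinarith
    have hCj : C ^ j ≤ (2 : ℝ) ^ (Λ * γ * s) := by
      calc C ^ j ≤ ((2 : ℝ) ^ Λ) ^ j := pow_le_pow_left₀ hCpos.le hΛ j
        _ = (2 : ℝ) ^ ((Λ : ℝ) * j) := by
            rw [← pow_mul, ← Real.rpow_natCast]
            push_cast
            rfl
        _ ≤ (2 : ℝ) ^ (Λ * γ * s) := by
            refine Real.rpow_le_rpow_of_exponent_le (by norm_num) ?_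
            nlinarith
    have hlj : (lam ^ j)⁻¹ ≤ lam * (2 : ℝ) ^ (-(κ * γ * s)) := by
      have h1 : (lam ^ j)⁻¹ = (2 : ℝ) ^ (-(κ * j)) := by
        rw [Real.rpow_neg (by norm_num), Real.rpow_mul (by norm_num), hκ2, Real.rpow_natCast]
      have h2 : lam * (2 : ℝ) ^ (-(κ * γ * s)) = (2 : ℝ) ^ (κ + -(κ * γ * s)) := by
        rw [Real.rpow_add (by norm_num), hκ2]
      rw [h1, h2]
      refine Real.rpow_le_rpow_of_exponent_le (by norm_num) ?_
      nlinarith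
    have e2 : C ^ m * (lam ^ j)⁻¹ ≤ lam * (2 : ℝ) ^ (-(c' * s)) := by
      calc C ^ m * (lam ^ j)⁻¹ ≤ (2 : ℝ) ^ (Λ * μ * s) * (lam * (2 : ℝ) ^ (-(κ * γ * s))) :=
            mul_le_mul hCm hlj (by positivity) (by positivity)
        _ = lam * (2 : ℝ) ^ (Λ * μ * s + -(κ * γ * s)) := by
            rw [Real.rpow_add (by norm_num)]
            ring
        _ ≤ lam * (2 : ℝ) ^ (-(c' * s)) := by
            refine mul_le_mul_of_nonneg_left (Real.rpow_le_rpow_of_exponent_le (by norm_num) ?_) hlam0.le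
            nlinarith
    have e3 : C ^ m * (C ^ j * (2 : ℝ) ^ (-(c * s))) ≤ (2 : ℝ) ^ (-(c' * s)) := by
      calc C ^ m * (C ^ j * (2 : ℝ) ^ (-(c * s)))
          ≤ (2 : ℝ) ^ (Λ * μ * s) * ((2 : ℝ) ^ (Λ * γ * s) * (2 : ℝ) ^ (-(c * s))) :=
            mul_le_mul hCm (mul_le_mul_of_nonneg_right hCj (by positivity)) (by positivity) (by positivity)
        _ = (2 : ℝ) ^ (Λ * μ * s + (Λ * γ * s + -(c * s))) := by
            rw [Real.rpow_add (by norm_num), Real.rpow_add (by norm_num)]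
        _ ≤ (2 : ℝ) ^ (-(c' * s)) := by
            refine Real.rpow_le_rpow_of_exponent_le (by norm_num) ?_
            nlinarith
    have e4 : C ^ m * ((lam ^ j)⁻¹ + C ^ j * (2 : ℝ) ^ (-(c * s))) =
        C ^ m * (lam ^ j)⁻¹ + C ^ m * (C ^ j * (2 : ℝ) ^ (-(c * s))) := by ring
    rw [e4]
    have e5 : (3 + lam) * (2 : ℝ) ^ (-(c' * s)) =
        2 * (2 : ℝ) ^ (-(c' * s)) + (lam * (2 : ℝ) ^ (-(c' * s)) + (2 : ℝ) ^ (-(c' * s))) := by ring
    rw [e5]
    exact add_le_add e1 (add_le_add e2 e3)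

end ATR

end HexObs
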