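import Pool.Agent.ATR.AsTr
import Pool.Agent.ATR.Bad
import Pool.Agent.ATR.Cmp
import Pool.Agent.ATR.Dom
import Pool.Agent.ATR.Loc
import Pool.Agent.ATR.RetAll
import Pool.Agent.ATR.RetP

/-!
# ATR: almost sure transience of the infinite self-avoiding walk with the exponent 3 / 4, no hypothesis
-/

set_option autoImplicit false

namespace HexObs

namespace ATR

theorem cmp : Cmp := cmp_of dom loc tipC bdC decC

theorem retP : RetP := retP_of cmp retM

/-- **almost surely |v_k| = k ^ (3 / 4 + o(1))** -/
theorem asTr : AsTr := asTr_of retP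

end ATR

end HexObs
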