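import Pool.Agent.ATR.Defs2
import Pool.Agent.TIP.NfM

/-!
ATR, row F2 (helper86): almost sure transience of the infinite walk with the exponent 3 / 4, from the bound for the returns.
-/

set_option autoImplicit false

namespace HexObs

namespace ATR

open Finset TS SDN NTA NTW Filter Topology MeasureTheory

open Pool.Agent.IW (law law_lim law_Pn law_prob ipos_loc ipos_sw norm_ipos_rot)

open Pool.Agent.IW.Res (ipos begins)

open NTF (JJ)

/-- the infinite walk reaches the distance 2 ^ s and comes back to the distance d, within its first k steps -/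
def RetK (s : ℕ) (d : ℝ) (k : ℕ) : Set (ℕ → Fin 3) :=
  {w | ∃ i j : ℕ, i ≤ j ∧ j ≤ k ∧ (2 : ℝ) ^ s ≤ ‖ipos w i‖ ∧ ‖ipos w j‖ ≤ d ∧ ∀ l, l ≤ j → ‖ipos w l‖ ≤ 2 ^ (s + 1)}

lemma retK_loc (s : ℕ) (d : ℝ) (k : ℕ) : Pool.Agent.IW.Loc k (RetK s d k) := by
  rintro w w' e ⟨i, j, h1, h2, h3, h4, h5⟩
  refine ⟨i, j, h1, h2, ?_, ?_, fun l hl => ?_⟩
  · rwa [← ipos_loc (h1.trans h2) e]
  · rwa [← ipos_loc h2 e]
  · rw [← ipos_loc (hl.trans h2) e]
    exact h5 l hl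

lemma retK_mono (s : ℕ) (d : ℝ) : Monotone (RetK s d) := by
  rintro k k' hk w ⟨i, j, h1, h2, h3⟩
  exact ⟨i, j, h1, h2.trans hk, h3⟩

lemma law_retK {n k : ℕ} (hk : k ≤ n) (hn : 0 < n) (s : ℕ) (d : ℝ) : (law n).real (RetK s d k) ≤ TOG.Pn n (Ret s d) := by
  rw [law_Pn (retK_loc s d k) hk hn (fun w => by unfold RetK; simp only [Set.mem_setOf_eq, norm_ipos_rot])]
  refine TIP.Nf.Pn_mono ?_
  rintro t ht ⟨i, j, h1, h2, h3, h4, h5⟩
  have hl : t.length = n := ht.1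
  rw [ipos_sw (by omega)] at h3
  rw [ipos_sw (by omega)] at h4
  refine ⟨i, j, h1, by omega, h3, h4, fun l hlj => ?_⟩
  have := h5 l hlj
  rwa [ipos_sw (by omega)] at this

/-- the returns of the infinite walk -/
theorem prob_ret {P : Measure (ℕ → Fin 3)} [IsProbabilityMeasure P]
    (hP : ∀ (η : ℕ → Fin 3) (m : ℕ), Tendsto (fun n => begins n m η) atTop (𝓝 (P.real {w | ∀ i, i < m → w i = η i})))
    {s : ℕ} {d y : ℝ} (h : ∀ e : ℝ, 0 < e → ∃ n0 : ℕ, ∀ n, n0 ≤ n → TOG.Pn n (Ret s d) ≤ y + e) :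
    P (⋃ k, RetK s d k) ≤ ENNReal.ofReal y := by
  rw [(retK_mono s d).measure_iUnion]
  refine iSup_le fun k => ?_
  rw [← ofReal_measureReal (μ := P) (s := RetK s d k)]
  refine ENNReal.ofReal_le_ofReal (le_of_forall_pos_le_add fun e he => ?_)
  obtain ⟨n0, hn0⟩ := h e he
  refine le_of_tendsto (law_lim hP (retK_loc s d k)) ?_
  filter_upwards [eventually_ge_atTop (max (max n0 k) 1)] with n hn
  have h1 : n0 ≤ n := ((le_max_left _ _).trans (le_max_left _ _)).trans hn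
  have h2 : k ≤ n := ((le_max_right _ _).trans (le_max_left _ _)).trans hn
  have h3 : 1 ≤ n := (le_max_right _ _).trans hn
  exact (law_retK h2 (by omega) s d).trans (hn0 n h1)

/-- the deterministic step -/
lemma tr_det {w : ℕ → Fin 3} {δ θ : ℝ} (hδ : 0 < δ) (hδ1 : δ ≤ 1 / 2) (hθ : 0 < θ) (hθ1 : θ ≤ δ / 4)
    (hA : ∀ᶠ k : ℕ in atTop, ∃ l : ℕ, l ≤ k ∧ (k : ℝ) ^ (3 / 4 - δ / 4) ≤ ‖ipos w l‖)
    (hB : ∀ᶠ s : ℕ in atTop, w ∉ ⋃ k, RetK s ((2 : ℝ) ^ ((1 - θ) * s)) k) :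
    ∀ᶠ k : ℕ in atTop, (k : ℝ) ^ (3 / 4 - δ) ≤ ‖ipos w k‖ := by
  obtain ⟨s0, hs0⟩ := eventually_atTop.1 hB
  have t1 : ∀ᶠ k : ℕ in atTop, (2 : ℝ) ^ (s0 + 1) ≤ (k : ℝ) ^ (3 / 4 - δ / 4) :=
    ((tendsto_rpow_atTop (by linarith)).comp tendsto_natCast_atTop_atTop).eventually_ge_atTop _
  have t2 : ∀ᶠ k : ℕ in atTop, (2 : ℝ) ≤ (k : ℝ) ^ (δ / 2) :=
    ((tendsto_rpow_atTop (by linarith)).comp tendsto_natCast_atTop_atTop).eventually_ge_atTop _
  filter_upwards [hA, t1, t2, eventually_ge_atTop 1] with k hk h1 h2 hk1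
  have hk1' : (1 : ℝ) ≤ k := by exact_mod_cast hk1
  have hk0 : (0 : ℝ) < k := by linarith
  obtain ⟨l, hl, hlk⟩ := hk
  obtain ⟨i, hi, him⟩ := (Finset.range (k + 1)).exists_max_image (fun q => ‖ipos w q‖) ⟨0, by simp⟩
  rw [Finset.mem_range] at hi
  have hr : (k : ℝ) ^ (3 / 4 - δ / 4) ≤ ‖ipos w i‖ := hlk.trans (him l (by rw [Finset.mem_range]; omega))
  have hr1 : 1 ≤ ‖ipos w i‖ := (Real.one_le_rpow hk1' (by linarith)).trans hr
  obtain ⟨s, g1, g2⟩ := exists_nat_pow_near hr1 (by norm_num : (1 : ℝ) < 2)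
  have hs : s0 ≤ s := by
    by_contra hc
    have h3 : (2 : ℝ) ^ (s + 1) ≤ 2 ^ (s0 + 1) := pow_le_pow_right₀ (by norm_num) (by omega)
    linarith
  by_contra hc
  rw [not_le] at hc
  refine hs0 s hs (Set.mem_iUnion.2 ⟨k, i, k, by omega, le_rfl, g1, ?_, fun q hq => ?_⟩)
  · refine hc.le.trans ?_
    have h3 : (k : ℝ) ^ (3 / 4 - δ / 4) / 2 ≤ 2 ^ s := by
      rw [pow_succ] at g2
      linarith
    have h4 : ((k : ℝ) ^ (3 / 4 - δ / 4) / 2) ^ (1 - θ) ≤ (2 : ℝ) ^ ((1 - θ) * s) := by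
      rw [mul_comm (1 - θ), Real.rpow_mul (by norm_num), Real.rpow_natCast]
      exact Real.rpow_le_rpow (by positivity) h3 (by linarith)
    refine le_trans ?_ h4
    rw [Real.div_rpow (by positivity) (by norm_num), ← Real.rpow_mul hk0.le]
    have h5 : (2 : ℝ) ^ (1 - θ) ≤ 2 := by
      conv_rhs => rw [← Real.rpow_one 2]
      exact Real.rpow_le_rpow_of_exponent_le (by norm_num) (by linarith)
    have h6 : (0 : ℝ) < 2 ^ (1 - θ) := by positivity
    rw [le_div_iff₀ h6]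
    have h7 : (k : ℝ) ^ (3 / 4 - δ) * 2 ≤ (k : ℝ) ^ ((3 / 4 - δ / 4) * (1 - θ)) := by
      refine (mul_le_mul_of_nonneg_left h2 (by positivity)).trans ?_
      rw [← Real.rpow_add hk0]
      refine Real.rpow_le_rpow_of_exponent_le hk1' ?_
      nlinarith
    exact (mul_le_mul_of_nonneg_left h5 (by positivity)).trans h7
  · exact (him q (by rw [Finset.mem_range]; omega)).trans g2.le

/-- **row F2** -/
theorem asTr_of (hR : RetP) : AsTr := by
  intro P _ hP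
  -- the returns
  have h1 : ∀ q : ℕ, ∀ᵐ w ∂P, ∀ᶠ s : ℕ in atTop, w ∉ ⋃ k, RetK s ((2 : ℝ) ^ ((1 - 1 / ((q : ℝ) + 1)) * s)) k := by
    intro q
    obtain ⟨C, c, hC, hc, h⟩ := hR (1 / ((q : ℝ) + 1)) (by positivity)
    refine ae_eventually_notMem ?_
    have hs : Summable fun s : ℕ => C * (2 : ℝ) ^ (-(c * s)) := by
      refine Summable.mul_left C ?_
      have h2 : ∀ s : ℕ, (2 : ℝ) ^ (-(c * s)) = ((2 : ℝ) ^ (-c)) ^ s := fun s => by
        rw [← neg_mul, Real.rpow_mul (by norm_num), Real.rpow_natCast]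
      simp_rw [h2]
      exact summable_geometric_of_lt_one (by positivity) (Real.rpow_lt_one_of_one_lt_of_neg (by norm_num) (by linarith))
    exact ne_top_of_le_ne_top hs.tsum_ofReal_ne_top (ENNReal.tsum_le_tsum fun s => prob_ret hP (h s _ le_rfl))
  filter_upwards [ae_all_iff.2 h1, Pool.Agent.IW.as_size hP] with w hw hsz δ hδ
  have h0 : ipos w 0 = 0 := by
    unfold ipos
    simp
  -- the lower bound
  have hlow : ∀ᶠ k : ℕ in atTop, (k : ℝ) ^ (3 / 4 - min δ (1 / 2)) ≤ ‖ipos w k‖ := by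
    have hm0 : 0 < min δ (1 / 2) := lt_min hδ (by norm_num)
    obtain ⟨q, hq⟩ := exists_nat_one_div_lt (show 0 < min δ (1 / 2) / 4 by positivity)
    refine tr_det hm0 (min_le_right _ _) (by positivity) hq.le ?_ (hw q)
    filter_upwards [hsz (min δ (1 / 2) / 4) (by positivity), eventually_ge_atTop 1] with k hk hk1
    obtain ⟨-, l, -, hl, hlk⟩ := hk 0 k (by omega) le_rfl
    refine ⟨l, hl, ?_⟩
    have hk0 : (0 : ℝ) < k := by exact_mod_cast hk1
    rw [h0, sub_zero, Nat.cast_zero, sub_zero, ← Real.rpow_add hk0] at hlk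
    rw [show (3 : ℝ) / 4 - min δ (1 / 2) / 4 = -(min δ (1 / 2) / 4) + 3 / 4 by ring]
    exact hlk
  filter_upwards [hlow, hsz δ hδ, eventually_ge_atTop 1] with k g1 g2 hk1
  have hk1' : (1 : ℝ) ≤ k := by exact_mod_cast hk1
  have hk0 : (0 : ℝ) < k := by linarith
  constructor
  · exact (Real.rpow_le_rpow_of_exponent_le hk1' (by linarith [min_le_left δ (1 / 2)])).trans g1
  · have h2 := (g2 0 k (by omega) le_rfl).1
    rw [h0, sub_zero, Nat.cast_zero, sub_zero, ← Real.rpow_add hk0] at h2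
    rw [add_comm]
    exact h2

end ATR

end HexObs
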