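import Pool.Agent.ATR.Defs
import Pool.Agent.SIM.NoCutEv

/-!
# ATR, row E1 (helper47): cuts in four windows below the top of every leaf, explicit depths

* **`cutQ : CutQ`**: the windows have the depths `d i * J`; off an event of mass `(1 / 2) ^ J` every leaf has cuts in the four
  windows.
-/

set_option autoImplicit false

namespace HexObs

namespace ATR

open Finset TS SDN NTA NTW TIP HexObs.SIM

open scoped ENNReal

/-- the depths of the windows -/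
lemma depth_q {B c : ℝ} (hB : 0 < B) (hc : 0 < c) : ∃ d : ℕ → ℕ, d 0 = 0 ∧
    ∀ i, d i + 4 ≤ d (i + 1) ∧ B * (4 ^ d i * (2 : ℝ) ^ (-(c * ((d (i + 1) - d i : ℕ) : ℝ)))) ≤ 1 / 2 := by
  have key : ∀ x : ℕ, ∃ y : ℕ, x + 4 ≤ y ∧ B * (4 ^ x * (2 : ℝ) ^ (-(c * ((y - x : ℕ) : ℝ)))) ≤ 1 / 2 := by
    intro x
    have h0 : (2 : ℝ) ^ (-c) < 1 := Real.rpow_lt_one_of_one_lt_of_neg (by norm_num) (by linarith)
    obtain ⟨n, hn⟩ := exists_pow_lt_of_lt_one (show (0 : ℝ) < 1 / 2 / (B * 4 ^ x) by positivity) h0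
    refine ⟨x + (n + 4), by omega, ?_⟩
    rw [show x + (n + 4) - x = n + 4 by omega]
    have h1 : (2 : ℝ) ^ (-(c * ((n + 4 : ℕ) : ℝ))) ≤ ((2 : ℝ) ^ (-c)) ^ n := by
      rw [← Real.rpow_natCast, ← Real.rpow_mul (by norm_num)]
      refine Real.rpow_le_rpow_of_exponent_le (by norm_num) ?_
      push_cast
      nlinarith
    rw [lt_div_iff₀ (by positivity)] at hn
    calc B * (4 ^ x * (2 : ℝ) ^ (-(c * ((n + 4 : ℕ) : ℝ)))) ≤ B * (4 ^ x * ((2 : ℝ) ^ (-c)) ^ n) := by gcongr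
      _ = ((2 : ℝ) ^ (-c)) ^ n * (B * 4 ^ x) := by ring
      _ ≤ 1 / 2 := hn.le
  choose f hf using key
  refine ⟨fun i => f^[i] 0, rfl, fun i => ?_⟩
  simp only [Function.iterate_succ', Function.comp_apply]
  exact hf _

/-- **row E1** -/
theorem cutQ : CutQ := by
  obtain ⟨C, k1, hC, hE⟩ := leafIn_le
  obtain ⟨K, c, hK, hc, hW⟩ := tail_win
  have hC0 : 0 < C := by linarith
  have hK0 : 0 < K := by linarith
  have h2c : (1 : ℝ) ≤ 2 ^ c := Real.one_le_rpow (by norm_num) hc.le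
  obtain ⟨K1, hK1⟩ : ∃ K1 : ℝ, K1 = 1024 * K * 2 ^ c := ⟨_, rfl⟩
  have hK11 : 1 ≤ K1 := by
    rw [hK1]
    nlinarith [mul_le_mul hK h2c (by norm_num) hK0.le]
  obtain ⟨d, h0, hd⟩ := depth_q (B := K1 * (4 * C)) (by positivity) hc
  have hmon : ∀ i j, i ≤ j → d i ≤ d j := by
    intro i j hij
    induction j, hij using Nat.le_induction with
    | base => exact le_rfl
    | succ j _ ih =>
      have := (hd j).1
      omega
  refine ⟨max 1 (d 4), k1, d, le_max_left _ _, h0, le_max_right _ _, fun i _ => (hd i).1, fun kc J hJ hk => ?_⟩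
  have hkM : d 4 * J ≤ kc := by
    have h1 : d 4 * J ≤ max 1 (d 4) * J := Nat.mul_le_mul_right J (le_max_right _ _)
    omega
  have hk1 : k1 ≤ kc := by omega
  have hUk : 0 < Ub kc := Num2Aux.UU_pos _
  have hUN : UU (2 ^ (kc + J + 2)) / Ub kc ≤ 2 ^ (J + 2) := by
    rw [div_le_iff₀ hUk, show kc + J + 2 = kc + (J + 2) by omega]
    exact Ub_add kc (J + 2)
  have hUN0 : 0 ≤ UU (2 ^ (kc + J + 2)) / Ub kc := div_nonneg (Num2Aux.UU_pos _).le hUk.le
  obtain ⟨δ, hδd⟩ : ∃ δ : ℝ, δ = ((1 / 2) ^ J) / (4 * C ^ J) := ⟨_, rfl⟩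
  have hδ : 0 < δ := by
    rw [hδd]
    positivity
  have hone : ∀ i, i < 4 → SmD DmJ kc
      {g | g ∈ BrR (2 ^ (kc + 4)) (2 ^ (kc + J + 2)) ∧ g ∈ NoCut (kc - d (i + 1) * J) (d (i + 1) * J - d i * J - 1)} δ := by
    intro i hi
    have h1 := (hd i).1
    have h2 := hmon (i + 1) 4 (by omega)
    have h3 : d (i + 1) * J ≤ d 4 * J := Nat.mul_le_mul_right J h2
    have h4 : (d i + 4) * J ≤ d (i + 1) * J := Nat.mul_le_mul_right J h1
    have h5 : (d i + 4) * J = d i * J + 4 * J := by ring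
    have h6 : kc - d (i + 1) * J + (d (i + 1) * J - d i * J - 1) = kc - d i * J - 1 := by omega
    refine LQ.SmD_le ?_ (QF.SmD_mono ?_ (hW kc (2 ^ (kc + J + 2)) (kc - d (i + 1) * J) (d (i + 1) * J - d i * J - 1)
      (by omega) (by omega)))
    · rw [h6, show kc - (kc - d i * J - 1) = d i * J + 1 by omega]
      -- the three factors
      have a1 : (1 + UU (2 ^ (kc + J + 2)) / Ub kc) ^ 2 ≤ 64 * 4 ^ J := by
        have b1 : 1 + UU (2 ^ (kc + J + 2)) / Ub kc ≤ 8 * 2 ^ J := by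
          have : (1 : ℝ) ≤ 2 ^ J := one_le_pow₀ (by norm_num)
          have e : (2 : ℝ) ^ (J + 2) = 4 * 2 ^ J := by ring
          rw [e] at hUN
          linarith
        calc (1 + UU (2 ^ (kc + J + 2)) / Ub kc) ^ 2 ≤ (8 * 2 ^ J) ^ 2 := by gcongr
          _ = 64 * (2 ^ 2) ^ J := by rw [← pow_mul, mul_comm 2 J, pow_mul]; ring
          _ = 64 * 4 ^ J := by norm_num
      have a2 : (4 : ℝ) ^ (d i * J + 1) = 4 * (4 ^ d i) ^ J := by
        rw [pow_succ, pow_mul]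
        ring
      have a3 : (2 : ℝ) ^ (-(c * ((d (i + 1) * J - d i * J - 1 : ℕ) : ℝ))) =
          2 ^ c * ((2 : ℝ) ^ (-(c * ((d (i + 1) - d i : ℕ) : ℝ)))) ^ J := by
        rw [← Real.rpow_natCast _ J, ← Real.rpow_mul (by norm_num), ← Real.rpow_add (by norm_num)]
        congr 1
        have b1 : d (i + 1) * J - d i * J - 1 = (d (i + 1) - d i) * J - 1 := by rw [Nat.sub_mul]
        have b2 : 1 ≤ (d (i + 1) - d i) * J := by
          rw [Nat.sub_mul]
          omega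
        rw [b1, Nat.cast_sub b2, Nat.cast_mul, Nat.cast_one]
        ring
      have a4 := (hd i).2
      have a5 : (K1 * (4 * C) * (4 ^ d i * (2 : ℝ) ^ (-(c * ((d (i + 1) - d i : ℕ) : ℝ))))) ^ J ≤ (1 / 2) ^ J :=
        pow_le_pow_left₀ (by positivity) a4 J
      have a6 : K1 ≤ K1 ^ J := le_self_pow₀ hK11 (by omega)
      rw [a2, a3, hδd, le_div_iff₀ (by positivity)]
      have hw : 0 < (2 : ℝ) ^ (-(c * ((d (i + 1) - d i : ℕ) : ℝ))) := by positivity
      generalize (2 : ℝ) ^ (-(c * ((d (i + 1) - d i : ℕ) : ℝ))) = w at a5 hw ⊢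
      calc K * (1 + UU (2 ^ (kc + J + 2)) / Ub kc) ^ 2 * (4 * (4 ^ d i) ^ J * (2 ^ c * w ^ J)) * (4 * C ^ J)
          ≤ K * (64 * 4 ^ J) * (4 * (4 ^ d i) ^ J * (2 ^ c * w ^ J)) * (4 * C ^ J) := by gcongr
        _ = K1 * ((4 * C) * (4 ^ d i * w)) ^ J := by
            rw [hK1, mul_pow, mul_pow, mul_pow]
            ring
        _ ≤ K1 ^ J * ((4 * C) * (4 ^ d i * w)) ^ J := by
            refine mul_le_mul_of_nonneg_right a6 ?_
            rw [mul_pow, mul_pow]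
            positivity
        _ = (K1 * (4 * C) * (4 ^ d i * w)) ^ J := by rw [← mul_pow]; ring
        _ ≤ (1 / 2) ^ J := a5
    · rintro g ⟨hg, hn⟩
      exact ⟨hg, Or.inl (noCut_sub hn)⟩
  have hall := LQ.SmD_sum 4 (fun i => {g | g ∈ BrR (2 ^ (kc + 4)) (2 ^ (kc + J + 2)) ∧
    g ∈ NoCut (kc - d (i + 1) * J) (d (i + 1) * J - d i * J - 1)}) (fun _ => δ) (fun i _ => hδ.le) hone
  rw [Finset.sum_const, Finset.card_range, nsmul_eq_mul] at hall
  refine (hE kc J {g | ∃ i, i < 4 ∧ g ∈ NoCut (kc - d (i + 1) * J) (d (i + 1) * J - d i * J - 1)} ((4 : ℕ) * δ) hk1 hJ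
    (by positivity) (QF.SmD_mono ?_ hall)).trans (le_of_eq ?_)
  · rintro g ⟨hg, i, hi, hn⟩
    exact ⟨i, hi, hg, hn⟩
  · congr 3
    rw [hδd]
    push_cast
    field_simp

end ATR

end HexObs
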