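import Pool.Agent.IW.Bad
import Pool.Agent.IW.NEndQ
import Pool.Agent.TIW.Lit

/-!
ATR (almost sure transience of the infinite walk with the exponent 3 / 4, doc nu34/ATR_59, helper59): literals.

The tip is the END of the word; the walk seen from its start is `rvw t`. Classes `Q` of starts are decided when the word
leaves the ball of radius `ρ` about its start.
-/

set_option autoImplicit false

namespace HexObs

namespace ATR

open Finset TS SDN NTA NTW TIP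

open scoped ENNReal

open NTF (JJ)

/-- classes of words that are decided when the word leaves the ball of radius ρ about its start -/
structure StC (ρ : ℝ) (Q : Set (List Bool)) : Prop where
  app : ∀ L x : List Bool, L ∈ Q → L ++ x ∈ Q
  dec : ∀ (L x : List Bool) (i : ℕ), i ≤ L.length → ρ < ‖JJ (vx oo up L i)‖ → L ++ x ∈ Q → L ∈ Q

/-- the class, with or without the first letter -/
def Bd (Q : Set (List Bool)) : Set (List Bool) := {t | t ∈ Q ∨ t.drop 1 ∈ Q}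

/-- the word reaches the distance 2 ^ s from its start and then comes back to the distance d, before it leaves the ball of
radius 2 ^ (s + 1) -/
def Ret (s : ℕ) (d : ℝ) : Set (List Bool) :=
  {t | ∃ i j : ℕ, i ≤ j ∧ j ≤ t.length ∧ (2 : ℝ) ^ s ≤ ‖JJ (vx oo up t i)‖ ∧ ‖JJ (vx oo up t j)‖ ≤ d ∧
    ∀ l, l ≤ j → ‖JJ (vx oo up t l)‖ ≤ 2 ^ (s + 1)}

lemma stC_ret (s : ℕ) (d : ℝ) : StC (2 ^ (s + 1)) (Ret s d) := by
  constructor
  · rintro L x ⟨i, j, h1, h2, h3, h4, h5⟩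
    refine ⟨i, j, h1, by rw [List.length_append]; omega, ?_, ?_, fun l hl => ?_⟩
    · rwa [vx_append (by omega)]
    · rwa [vx_append (by omega)]
    · rw [vx_append (by omega)]
      exact h5 l hl
  · rintro L x q hq hρ ⟨i, j, h1, h2, h3, h4, h5⟩
    have hj : j < q := by
      by_contra hc
      have h6 := h5 q (not_lt.1 hc)
      rw [vx_append (by omega)] at h6
      exact absurd h6 (not_le.2 hρ)
    refine ⟨i, j, h1, by omega, ?_, ?_, fun l hl => ?_⟩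
    · rwa [vx_append (by omega)] at h3
    · rwa [vx_append (by omega)] at h4
    · have := h5 l hl
      rwa [vx_append (by omega)] at this

/-- **row A** (DOM): the infinite walk is dominated by the words of large boxes -/
def Dom : Prop := ∃ C : ℝ, 0 < C ∧ ∀ (Q : Set (List Bool)) (y : ℝ) (l0 : ℕ), (∃ r0, ∀ r, r0 ≤ r → TIW.Inside r Q) →
  0 ≤ y → (∀ l, l0 ≤ l → gf (WL l ∩ Q) ≤ ENNReal.ofReal (y * Ub l) * Xb l ^ 2) →
  ∀ e : ℝ, 0 < e → ∃ n0 : ℕ, ∀ n, n0 ≤ n → TOG.Pn n Q ≤ C * y + e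

/-- **row B** (LOC): in a large box near the tip there is a good decomposition of the scale b with an end outside of Q -/
def Loc : Prop := ∃ (η C : ℝ) (m0 b0 : ℕ), 0 < η ∧ 0 < C ∧ ∀ (b m : ℕ) (y : ℝ) (Q : Set (List Bool)), b0 ≤ b → m0 ≤ m →
  0 ≤ y → gf {Y | Y ∈ SA ∧ rev Y ∈ GT b η ∧ In (2 ^ (b + m)) Y ∧ Y ∈ Q} ≤ ENNReal.ofReal (y * Ub b) * Xb b →
  ∃ l0 : ℕ, ∀ l, l0 ≤ l → gf {t | t ∈ WL l ∧ t ∉ NQ.DecQ b (2 ^ (b + m)) η Q} ≤
    ENNReal.ofReal (C * (y + (1 / 2) ^ m) * Ub l) * Xb l ^ 2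

/-- **row D1**: the tip lemma for the classes of starts -/
def TipC : Prop := ∀ η : ℝ, 0 < η → ∃ (C lam : ℝ) (j0 : ℕ), 1 ≤ C ∧ 1 < lam ∧
  ∀ (b j K : ℕ) (ρ : ℝ) (Q : Set (List Bool)), StC ρ Q → 1 ≤ j → j + j0 ≤ b → b ≤ K → 0 ≤ ρ → 2 * (ρ + 1) < 2 ^ b →
    gf ((WL K ∩ Bd Q) ∩ GT b η) * Xb b ≤ ENNReal.ofReal (C * (lam ^ j)⁻¹ * Ub K) * Xb K ^ 2 +
      ENNReal.ofReal (C ^ j) * gf (WL (K + 3) ∩ Bd Q)

/-- **row D2**: the first letter -/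
def BdC : Prop := ∀ (K : ℕ) (Q : Set (List Bool)), gf (WL K ∩ Bd Q) ≤ 4 * gf (WL (K + 3) ∩ Q)

/-- **row D3**: the end of a word with a good decomposition -/
def DecC : Prop := ∀ (b D : ℕ) (η ρ : ℝ) (Q : Set (List Bool)) (t : List Bool), StC ρ Q → 0 < η → 2 * (ρ + 1) < 2 ^ b →
  t ∈ NQ.DecQ b D η {Y | (rev Y).drop 1 ∈ Q} → Pool.Agent.IW.rvw t ∉ Q

/-- **row C** (comparison): the start of the walk with n steps, n → ∞, against the words of the box -/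
def Cmp : Prop := ∃ (C lam : ℝ) (m0 j0 b0 : ℕ), 1 ≤ C ∧ 1 < lam ∧ ∀ (b m j : ℕ) (ρ q : ℝ) (Q : Set (List Bool)),
  StC ρ Q → b0 ≤ b → m0 ≤ m → 1 ≤ j → j + j0 ≤ b → 0 ≤ ρ → 2 * (ρ + 1) < 2 ^ b → 0 ≤ q →
  gf (WL (b + m + 6) ∩ Q) ≤ ENNReal.ofReal (q * Ub (b + m + 6)) * Xb (b + m + 6) ^ 2 →
  ∀ e : ℝ, 0 < e → ∃ n0 : ℕ, ∀ n, n0 ≤ n → TOG.Pn n Q ≤ C * ((1 / 2) ^ m + C ^ m * ((lam ^ j)⁻¹ + C ^ j * q)) + e

/-- **row E** (RET): the words that come back near their start have little mass -/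
def RetM : Prop := ∀ θ : ℝ, 0 < θ → ∃ (δ c : ℝ) (s0 : ℕ), 0 < δ ∧ 0 < c ∧ ∀ s K : ℕ, s0 ≤ s → s ≤ K →
  (K : ℝ) ≤ (1 + δ) * s → ∀ d : ℝ, d ≤ (2 : ℝ) ^ ((1 - θ) * s) →
  gf (WL K ∩ Ret s d) ≤ ENNReal.ofReal ((2 : ℝ) ^ (-(c * s)) * Ub K) * Xb K ^ 2

/-! ### rows of RET -/

/-- a factor of at most m letters leaves the box of radius d (coordinates) about its first vertex -/
def Fast (m d : ℕ) : Set (List Bool) := {t | ∃ i j : ℕ, i ≤ j ∧ j ≤ t.length ∧ j ≤ i + m ∧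
  vx oo up t j ∉ SIM.Bl (vx oo up t i) d}

/-- **row E4**: fast factors have little mass -/
def FastM : Prop := ∀ δ : ℝ, 0 < δ → ∃ K0 : ℕ, ∀ K m d : ℕ, K0 ≤ K → (2 : ℝ) ^ (δ * K) * (m : ℝ) ^ (3 / 4 : ℝ) ≤ d →
  gf (WL K ∩ Fast m d) ≤ ENNReal.ofReal ((2 : ℝ) ^ (-(K : ℝ)) * Ub K) * Xb K ^ 2

/-- **row E1**: cuts in four windows below the top of every leaf, explicit depths -/
def CutQ : Prop := ∃ (Λ k1 : ℕ) (d : ℕ → ℕ), 1 ≤ Λ ∧ d 0 = 0 ∧ d 4 ≤ Λ ∧ (∀ i, i < 4 → d i + 4 ≤ d (i + 1)) ∧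
  ∀ kc J : ℕ, 6 ≤ J → k1 + Λ * J ≤ kc →
    gf (SIM.LeafIn kc J {g | ∃ i, i < 4 ∧ g ∈ SIM.NoCut (kc - d (i + 1) * J) (d (i + 1) * J - d i * J - 1)}) ≤
      ENNReal.ofReal ((1 / 2) ^ J * Ub (kc + J)) * Xb (kc + J) ^ 2

end ATR

end HexObs
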