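import Pool.Agent.ATR.Defs
import Pool.Agent.IW.AsZ

/-!
ATR, literals of the last two rows (helper59).
-/

set_option autoImplicit false

namespace HexObs

namespace ATR

open Finset TS SDN NTA NTW TIP Filter Topology MeasureTheory

open Pool.Agent.IW.Res (ipos begins)

/-- **row F1**: the long walks seldom come back near their start -/
def RetP : Prop := ∀ θ : ℝ, 0 < θ → ∃ C c : ℝ, 0 < C ∧ 0 < c ∧ ∀ (s : ℕ) (d : ℝ), d ≤ (2 : ℝ) ^ ((1 - θ) * s) →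
  ∀ e : ℝ, 0 < e → ∃ n0 : ℕ, ∀ n, n0 ≤ n → TOG.Pn n (Ret s d) ≤ C * (2 : ℝ) ^ (-(c * s)) + e

/-- **row F2**: almost sure transience with the exponent 3 / 4 -/
def AsTr : Prop := ∀ (P : Measure (ℕ → Fin 3)) [IsProbabilityMeasure P],
  (∀ (η : ℕ → Fin 3) (m : ℕ), Tendsto (fun n => begins n m η) atTop (𝓝 (P.real {w | ∀ i, i < m → w i = η i}))) →
  ∀ᵐ w ∂P, ∀ δ : ℝ, 0 < δ → ∀ᶠ k : ℕ in atTop, (k : ℝ) ^ (3 / 4 - δ) ≤ ‖ipos w k‖ ∧ ‖ipos w k‖ ≤ (k : ℝ) ^ (3 / 4 + δ)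

end ATR

end HexObs
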