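import Pool.Agent.ATR.Mass

/-!
# ATR, row E2: from a return to three nested bridges (helper59)
-/

set_option autoImplicit false

namespace HexObs

namespace ATR

open Finset TS SDN NTA NTW TIP HexObs.SIM

open scoped ENNReal

open NTF (JJ)

/-- the class of the leaves without a cut in one of the windows -/
def SV (kc J : ℕ) (d : ℕ → ℕ) : Set (List Bool) :=
  {g | ∃ i, i < 4 ∧ g ∈ NoCut (kc - d (i + 1) * J) (d (i + 1) * J - d i * J - 1)}

/-- **the geometry of a return**: three nested bridges in front of it -/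
theorem geo_ret {kc J s ν Dd i j : ℕ} {d : ℕ → ℕ} {x : ℝ} {t : List Bool} (h0 : d 0 = 0)
    (hd : ∀ i, i < 4 → d i + 4 ≤ d (i + 1)) (hJ : 6 ≤ J) (hdJ : d 4 * J ≤ kc) (ht : t ∈ WL (kc + J))
    (hE : t ∉ EQ2 kc J (SV kc J d)) (hI : ¬ Irg 6 8 (kc + 5) ν t) (hν : 2 ≤ ν)
    (hνs : (3 : ℝ) * (ν * 2 ^ (kc + 5)) ≤ 2 ^ s) (hDr : Dd < 2 ^ (kc + 5)) (hx : 2 * x ≤ Dd)
    (hij : i ≤ j) (hj : j ≤ t.length) (hfar : (2 : ℝ) ^ s ≤ ‖JJ (vx oo up t i)‖) (hnear : ‖JJ (vx oo up t j)‖ ≤ x) :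
    Cut3 (NearR Dd Dd) (TopE (kc + 3) (kc + J)) (BotS (kc - d 4 * J) (kc + J + 1)) (2 ^ (kc - (d 3 * J + 1))) (2 ^ kc) t := by
  have d0 := hd 0 (by norm_num)
  have d1 := hd 1 (by norm_num)
  have d2 := hd 2 (by norm_num)
  have d3 := hd 3 (by norm_num)
  simp only [Nat.zero_add, Nat.reduceAdd] at d0 d1 d2 d3
  have m1 : d 0 * J + 4 * J ≤ d 1 * J := by rw [← add_mul]; exact Nat.mul_le_mul_right _ d0
  have m2 : d 1 * J + 4 * J ≤ d 2 * J := by rw [← add_mul]; exact Nat.mul_le_mul_right _ d1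
  have m3 : d 2 * J + 4 * J ≤ d 3 * J := by rw [← add_mul]; exact Nat.mul_le_mul_right _ d2
  have m4 : d 3 * J + 4 * J ≤ d 4 * J := by rw [← add_mul]; exact Nat.mul_le_mul_right _ d3
  have m0 : d 0 * J = 0 := by rw [h0, zero_mul]
  obtain ⟨r, hr⟩ : ∃ r, r = kc + 5 := ⟨_, rfl⟩
  rw [← hr] at hI hνs hDr
  have e0 : vx oo up t 0 = oo := rfl
  have eoo : ∀ dir : Bool, lvl dir oo = 0 := fun dir => by cases dir <;> decide
  -- the far point
  obtain ⟨dir, hdir⟩ := NTF.exists_dir (v := vx oo up t i) (by positivity) hfar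
  have hil : i ≤ t.length := hij.trans hj
  have hbig : 3 * ((ν : ℤ) * 2 ^ r) ≤ |lp dir t i - lp dir t 0| := by
    have h1 : lp dir t i - lp dir t 0 = lvl dir (vx oo up t i) := by
      unfold HexObs.SIM.lp
      rw [e0, eoo, sub_zero]
    rw [h1]
    have h2 := hνs.trans hdir
    have h3 : ((3 * ((ν : ℤ) * 2 ^ r) : ℤ) : ℝ) ≤ ((|lvl dir (vx oo up t i)| : ℤ) : ℝ) := by
      push_cast
      push_cast at h2
      exact h2
    exact_mod_cast h3
  have hp : (0 : ℤ) < 2 ^ r := by positivity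
  have hnr : (5 : ℤ) * 2 ^ r ≤ 3 * ((ν : ℤ) * 2 ^ r) := by
    have : (2 : ℤ) ≤ ν := by exact_mod_cast hν
    nlinarith
  obtain ⟨l', -, hl', hhump⟩ := hump_false hI (Nat.zero_le i) hil ⟨dir, hbig⟩ hnr
  obtain ⟨s', hs'⟩ := sg_exists (lev t l') (lev t 0)
  rw [hs'] at hhump
  -- the near point
  have hlj : ∀ dir, |lvl dir (vx oo up t j) - lvl dir (vx oo up t 0)| ≤ (Dd : ℤ) := by
    intro dir'
    rw [e0, eoo, sub_zero]
    have h1 := NTSF.lvl_le_norm dir' (vx oo up t j)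
    have h2 : ((|lvl dir' (vx oo up t j)| : ℤ) : ℝ) ≤ ((Dd : ℤ) : ℝ) := by
      push_cast
      push_cast at h1
      linarith
    exact_mod_cast h2
  have hDr' : (Dd : ℤ) < 2 ^ r := by exact_mod_cast hDr
  have hji : |Tight.sg s' (lev t j) - Tight.sg s' (lev t 0)| ≤ 2 ^ r := by
    rw [sg_abs]
    exact (hlj false).trans hDr'.le
  have hji2 := abs_le.1 hji
  have hRRb : RR (kc + 5) ≤ 4 * 2 ^ r := by
    unfold RR
    rw [hr]
    have : (0 : ℤ) < 2 ^ (kc + 5) := by positivity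
    linarith
  have key := top_cut (kc := kc) (J := J) (c := fun k => kc - d (4 - k) * J) (r := fun k => d (4 - k) * J - d (3 - k) * J - 1)
    (S := SV kc J d)
    (fun k hk => by
      rcases (by omega : k = 0 ∨ k = 1 ∨ k = 2) with rfl | rfl | rfl
      · simp only [Nat.sub_zero, Nat.zero_add, Nat.reduceSub]
        omega
      · simp only [Nat.reduceAdd, Nat.reduceSub]
        omega
      · simp only [Nat.reduceAdd, Nat.reduceSub]
        omega)
    (by
      simp only [Nat.reduceSub]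
      omega)
    (fun k hk g hg => by
      refine ⟨3 - k, by omega, ?_⟩
      rw [show 3 - k + 1 = 4 - k by omega]
      exact hg)
    ht hE (Y := 4 * 2 ^ r) hRRb (i := 0) (x := l') (j := j) (s := s') (Nat.zero_le _) (hl'.trans hij) hj (by linarith)
    (by linarith [hji2.1, hji2.2])
  obtain ⟨X0, H1, H2, H3, X1, n1, n2, n3, e1, e2, e3, e4, e5, e6, e7, e8, e9, e10, e11, e12⟩ := key
  simp only [Nat.sub_zero, Nat.reduceSub] at e5 e6 e8
  rw [show kc - d 4 * J + (d 4 * J - d 3 * J - 1) = kc - (d 3 * J + 1) by omega] at e5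
  have e6'' : 2 ^ (kc - d 1 * J + (d 1 * J - d 0 * J - 1)) ≤ 2 ^ kc := Nat.pow_le_pow_right (by norm_num) (by omega)
  have hlen : (X0 ++ (H1 ++ (H2 ++ H3))).length = X0.length + H1.length + H2.length + H3.length := by
    simp only [List.length_append]
    ring
  refine ⟨X0, H1, H2, H3, X1, n1, n2, n3, e1, e2, e3, e4, e5.1, e5.2.1, e5.2.2, e6.1.trans e6'', e6.2.1.trans e6'',
    e6.2.2.trans e6'', e7, e8, (X0 ++ (H1 ++ (H2 ++ H3))).length, j, by rw [hlen], e10, hj, ?_, ?_⟩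
  · refine mem_Bl_of_lvl (fun dir' => ?_)
    have h1 := hlj dir'
    rw [e0] at h1
    rw [abs_sub_comm]
    exact h1
  · refine notMem_Bl_of_lvl ?_
    have hk3 : (3 : ℤ) * 2 ^ (kc + 3) + 2 ≤ 2 ^ r := by
      have h2 : (2 : ℤ) ^ r = 4 * 2 ^ (kc + 3) := by
        rw [hr, show kc + 5 = (kc + 3) + 2 by ring, pow_add]
        ring
      have h3 : (8 : ℤ) ≤ 2 ^ (kc + 3) := by
        calc (8 : ℤ) = 2 ^ 3 := by norm_num
          _ ≤ 2 ^ (kc + 3) := pow_le_pow_right₀ (by norm_num) (by omega)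
      omega
    have h4 : 3 * 2 ^ r ≤ |lev t (X0 ++ (H1 ++ (H2 ++ H3))).length - lev t j| := by
      rw [← sg_abs s']
      refine le_trans ?_ (le_abs_self _)
      linarith
    have h5 : 3 * (Dd : ℤ) < |lev t (X0 ++ (H1 ++ (H2 ++ H3))).length - lev t j| := by linarith
    exact h5

end ATR

end HexObs
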