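import Pool.Agent.ATR.XRet

/-!
# ATR, row E: the mass of the words with three nested bridges in front of a return to the start (helper59)
-/

set_option autoImplicit false

namespace HexObs

namespace ATR

open Finset TS SDN NTA NTW TIP HexObs.SIM

open scoped ENNReal

/-- the mass of the words with three nested bridges and a return, exponential constants -/
theorem mass_R : ∃ (C : ℝ) (k0 : ℕ), 1 ≤ C ∧ ∀ (kc J D D' T m Dd R : ℕ) (E : Set (List Bool)),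
    k0 + D' ≤ kc → D < D' → 6 ≤ J → 1 ≤ m → Dd ≤ R →
    (∀ t ∈ E, t ∈ WL (kc + J) ∧ t.length ≤ T ∧ t ∉ Fast m Dd) →
    (∀ t ∈ E, Cut3 (NearR Dd R) (TopE (kc + 3) (kc + J)) (BotS (kc - D') (kc + J + 1)) (2 ^ (kc - D)) (2 ^ kc) t) →
    gf E ≤ ENNReal.ofReal (C ^ (J + D') * ((((T : ℝ) + 1) * (4 * Dd + 1) ^ 2 / m) / 4 ^ (kc + J)) * Ub (kc + J)) *
      Xb (kc + J) ^ 2 := by
  obtain ⟨C1, hC1, hx⟩ := xret
  obtain ⟨C3, hC3, hcut⟩ := cut3_sum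
  obtain ⟨C4, k4, hC4, hlast⟩ := half_last
  obtain ⟨C5, k5, hC5, hfirst⟩ := half_first
  obtain ⟨Cx, hCx, hX⟩ := xDbl
  obtain ⟨Cb, hCb⟩ : ∃ Cb : ℝ, Cb = max 1 (C3 * C4 ^ 2 * C5 ^ 6 * 2 * Cx * C1) := ⟨_, rfl⟩
  have hCb1 : 1 ≤ Cb := by rw [hCb]; exact le_max_left _ _
  have hCb2 : C3 * C4 ^ 2 * C5 ^ 6 * 2 * Cx * C1 ≤ Cb := by rw [hCb]; exact le_max_right _ _
  refine ⟨Cb * (16 * C4 * C5), k4 + k5 + 7, ?_, fun kc J D D' T m Dd R E hkc hDD hJ hm hDR hE hcutE => ?_⟩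
  · have h1 : (1 : ℝ) ≤ 16 * C4 * C5 := by nlinarith
    nlinarith
  have hU := TS.Ub_pos (kc + J)
  have hUc := TS.Ub_pos kc
  obtain ⟨N, hN⟩ : ∃ N : ℝ, N = ((T : ℝ) + 1) * (4 * Dd + 1) ^ 2 / m := ⟨_, rfl⟩
  have hN0 : 0 ≤ N := by rw [hN]; positivity
  rw [← hN]
  obtain ⟨n, hn⟩ : ∃ n : ℕ, n = 2 ^ (kc - D) := ⟨_, rfl⟩
  have hn1 : 1 ≤ n := by rw [hn]; exact Nat.one_le_two_pow
  have h1 := hcut (NearR Dd R) (TopE (kc + 3) (kc + J)) (BotS (kc - D') (kc + J + 1)) E n kc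
    (ENNReal.ofReal (C1 * N * (UU n / n ^ 2))) nearR_mono hn1 (by rw [hn]; exact hcutE) ?_
  swap
  · intro P Q
    rw [hN]
    refine (gf_mono ?_).trans (hx P Q n (kc + J) T m Dd R E hn1 hm hDR hE)
    rintro Z ⟨⟨z1, z2, -⟩, z3, z4⟩
    exact ⟨⟨z1, z2⟩, z3, z4⟩
  -- the two ends
  have hT : gf (TopE (kc + 3) (kc + J)) ≤ ENNReal.ofReal (C4 ^ (J + 2) * Ub (kc + J)) * Xb (kc + J) := by
    have h2 := hlast (kc - 2) (J + 2) (by omega) (by omega)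
    rw [show kc - 2 + 5 = kc + 3 by omega, show kc - 2 + (J + 2) = kc + J by omega] at h2
    exact (gf_mono (topE_sub (by omega))).trans h2
  have hB : gf (BotS (kc - D') (kc + J + 1)) ≤
      ENNReal.ofReal (C5 ^ (J + D' + 6) * (2 * Ub (kc + J)) * Cx) * Xb (kc + J) := by
    have h2 := hfirst (kc - D' - 5) (J + D' + 6) (by omega) (by omega)
    rw [show kc - D' - 5 + 5 = kc - D' by omega, show kc - D' - 5 + (J + D' + 6) = kc + J + 1 by omega] at h2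
    refine (gf_mono (botS_sub (by omega))).trans (h2.trans ?_)
    calc ENNReal.ofReal (C5 ^ (J + D' + 6) * Ub (kc + J + 1)) * Xb (kc + J + 1)
        ≤ ENNReal.ofReal (C5 ^ (J + D' + 6) * (2 * Ub (kc + J))) * (ENNReal.ofReal Cx * Xb (kc + J)) := by
          refine mul_le_mul' (ENNReal.ofReal_le_ofReal ?_) (hX _)
          exact mul_le_mul_of_nonneg_left (TS.Ub_succ _) (by positivity)
      _ = _ := by
          rw [← mul_assoc, ← ENNReal.ofReal_mul (by positivity)]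
  refine h1.trans ((mul_le_mul' le_rfl (mul_le_mul' (mul_le_mul' hT hB) le_rfl)).trans ?_)
  obtain ⟨X, hXX⟩ : ∃ X, X = Xb (kc + J) := ⟨_, rfl⟩
  rw [← hXX]
  have e1 : ENNReal.ofReal (C3 * (2 ^ kc / (n * Ub kc)) ^ 2) *
      (ENNReal.ofReal (C4 ^ (J + 2) * Ub (kc + J)) * X * (ENNReal.ofReal (C5 ^ (J + D' + 6) * (2 * Ub (kc + J)) * Cx) * X) *
        ENNReal.ofReal (C1 * N * (UU n / n ^ 2))) =
      ENNReal.ofReal ((C3 * (2 ^ kc / (n * Ub kc)) ^ 2) * (C4 ^ (J + 2) * Ub (kc + J)) *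
        (C5 ^ (J + D' + 6) * (2 * Ub (kc + J)) * Cx) * (C1 * N * (UU n / n ^ 2))) * X ^ 2 := by
    have key : ∀ x y z w : ℝ, 0 ≤ x → 0 ≤ y → 0 ≤ z → ENNReal.ofReal x * (ENNReal.ofReal y * X * (ENNReal.ofReal z * X) *
        ENNReal.ofReal w) = ENNReal.ofReal (x * y * z * w) * X ^ 2 := by
      intro x y z w hx0 hy0 hz0
      rw [ENNReal.ofReal_mul (mul_nonneg (mul_nonneg hx0 hy0) hz0), ENNReal.ofReal_mul (mul_nonneg hx0 hy0),
        ENNReal.ofReal_mul hx0]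
      ring
    exact key _ _ _ _ (by positivity) (by positivity) (by positivity)
  rw [e1]
  refine mul_le_mul_left (ENNReal.ofReal_le_ofReal ?_) _
  -- the numbers
  have hDkc : D ≤ kc := by omega
  have hnr : (n : ℝ) = 2 ^ (kc - D) := by rw [hn]; push_cast; rfl
  have hn2 : (2 : ℝ) ^ kc = n * 2 ^ D := by
    rw [hnr, ← pow_add]
    congr 1
    omega
  have hn4 : (4 : ℝ) ^ (kc + J) = n ^ 2 * 4 ^ (J + D) := by
    have h2 : (4 : ℝ) ^ (kc + J) = ((2 : ℝ) ^ kc) ^ 2 * 4 ^ J := by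
      rw [pow_add, ← pow_mul, mul_comm kc 2, pow_mul]
      norm_num
    rw [h2, hn2, mul_pow, ← pow_mul, mul_comm D 2, pow_mul, pow_add]
    norm_num
    ring
  have hn0 : (0 : ℝ) < n := by exact_mod_cast hn1
  have hUn : UU n ≤ Ub (kc + J) := by
    rw [hn]
    exact Num2Aux.UU_mono (Nat.pow_le_pow_right (by norm_num) (by omega))
  have hUn0 := Num2Aux.UU_pos n
  have hUr : Ub (kc + J) ≤ 2 ^ J * Ub kc := DL.Ub_add kc J
  have f1 : (2 ^ kc / (n * Ub kc) : ℝ) ^ 2 ≤ 4 ^ D * 4 ^ J / Ub (kc + J) ^ 2 := by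
    have h2 : (2 ^ kc / (n * Ub kc) : ℝ) = 2 ^ D / Ub kc := by
      rw [hn2]
      field_simp
    rw [h2, div_pow, div_le_div_iff₀ (by positivity) (by positivity)]
    have h3 : Ub (kc + J) ^ 2 ≤ (2 ^ J * Ub kc) ^ 2 := pow_le_pow_left₀ hU.le hUr 2
    have h4 : ((2 : ℝ) ^ D) ^ 2 = 4 ^ D := by rw [← pow_mul, mul_comm D 2, pow_mul]; norm_num
    have h5 : ((2 : ℝ) ^ J) ^ 2 = 4 ^ J := by rw [← pow_mul, mul_comm J 2, pow_mul]; norm_num
    rw [mul_pow, h5] at h3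
    rw [h4]
    calc (4 : ℝ) ^ D * Ub (kc + J) ^ 2 ≤ 4 ^ D * (4 ^ J * Ub kc ^ 2) := mul_le_mul_of_nonneg_left h3 (by positivity)
      _ = _ := by ring
  have f2 : C1 * N * (UU n / n ^ 2) ≤ C1 * (N / 4 ^ (kc + J)) * 4 ^ (J + D) * Ub (kc + J) := by
    rw [hn4]
    calc C1 * N * (UU n / n ^ 2) ≤ C1 * N * (Ub (kc + J) / n ^ 2) :=
          mul_le_mul_of_nonneg_left (div_le_div_of_nonneg_right hUn (by positivity)) (by positivity)
      _ = _ := by field_simp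
  have f3 : (4 : ℝ) ^ D * 4 ^ J * (C4 ^ J * C5 ^ (J + D')) * 4 ^ (J + D) ≤ (16 * C4 * C5) ^ (J + D') := by
    have g1 : (4 : ℝ) ^ D * 4 ^ J * 4 ^ (J + D) = 16 ^ (J + D) := by
      rw [show (16 : ℝ) = 4 * 4 by norm_num, mul_pow, pow_add]
      ring
    have g2 : (16 : ℝ) ^ (J + D) ≤ 16 ^ (J + D') := pow_le_pow_right₀ (by norm_num) (by omega)
    have g3 : C4 ^ J ≤ C4 ^ (J + D') := pow_le_pow_right₀ hC4 (by omega)
    calc (4 : ℝ) ^ D * 4 ^ J * (C4 ^ J * C5 ^ (J + D')) * 4 ^ (J + D) = 16 ^ (J + D) * (C4 ^ J * C5 ^ (J + D')) := by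
          rw [← g1]; ring
      _ ≤ 16 ^ (J + D') * (C4 ^ (J + D') * C5 ^ (J + D')) :=
          mul_le_mul g2 (mul_le_mul_of_nonneg_right g3 (by positivity)) (by positivity) (by positivity)
      _ = _ := by rw [mul_pow, mul_pow]; ring
  have hNK : 0 ≤ N / 4 ^ (kc + J) := by positivity
  calc (C3 * (2 ^ kc / (n * Ub kc)) ^ 2) * (C4 ^ (J + 2) * Ub (kc + J)) *
        (C5 ^ (J + D' + 6) * (2 * Ub (kc + J)) * Cx) * (C1 * N * (UU n / n ^ 2))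
      ≤ (C3 * (4 ^ D * 4 ^ J / Ub (kc + J) ^ 2)) * (C4 ^ (J + 2) * Ub (kc + J)) *
        (C5 ^ (J + D' + 6) * (2 * Ub (kc + J)) * Cx) * (C1 * (N / 4 ^ (kc + J)) * 4 ^ (J + D) * Ub (kc + J)) := by
        have g1 : C3 * (2 ^ kc / (n * Ub kc)) ^ 2 ≤ C3 * (4 ^ D * 4 ^ J / Ub (kc + J) ^ 2) :=
          mul_le_mul_of_nonneg_left f1 (by positivity)
        have g2 : 0 ≤ C4 ^ (J + 2) * Ub (kc + J) := by positivity
        have g3 : 0 ≤ C5 ^ (J + D' + 6) * (2 * Ub (kc + J)) * Cx := by positivity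
        have g4 : 0 ≤ C1 * N * (UU n / n ^ 2) := by positivity
        have g5 : 0 ≤ C3 * (4 ^ D * 4 ^ J / Ub (kc + J) ^ 2) := by positivity
        exact mul_le_mul (mul_le_mul_of_nonneg_right (mul_le_mul_of_nonneg_right g1 g2) g3) f2 g4 (by positivity)
    _ = (C3 * C4 ^ 2 * C5 ^ 6 * 2 * Cx * C1) * ((4 : ℝ) ^ D * 4 ^ J * (C4 ^ J * C5 ^ (J + D')) * 4 ^ (J + D)) *
        (N / 4 ^ (kc + J)) * Ub (kc + J) := by
        rw [pow_add C4 J 2, pow_add C5 (J + D') 6]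
        have key2 : ∀ a b c d f g U : ℝ, U ≠ 0 → (C3 * (a * b / U ^ 2)) * (c * C4 ^ 2 * U) * (d * C5 ^ 6 * (2 * U) * Cx) *
            (C1 * f * g * U) = (C3 * C4 ^ 2 * C5 ^ 6 * 2 * Cx * C1) * (a * b * (c * d) * g) * f * U := by
          intro a b c d f g U hU0
          have e2 : a * b / U ^ 2 = a * b * (U⁻¹) ^ 2 := by rw [inv_pow]; rfl
          have e3 : U⁻¹ * U = 1 := inv_mul_cancel₀ hU0
          rw [e2]
          linear_combination (C3 * a * b * c * C4 ^ 2 * d * C5 ^ 6 * 2 * Cx * C1 * f * g * U) * (U⁻¹ * U + 1) * e3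
        exact key2 _ _ _ _ _ _ _ hU.ne'
    _ ≤ Cb ^ (J + D') * (16 * C4 * C5) ^ (J + D') * (N / 4 ^ (kc + J)) * Ub (kc + J) := by
        refine mul_le_mul_of_nonneg_right (mul_le_mul_of_nonneg_right ?_ hNK) hU.le
        refine mul_le_mul (hCb2.trans (le_self_pow₀ hCb1 (by omega))) f3 (by positivity) (by positivity)
    _ = _ := by rw [mul_pow Cb]

end ATR

end HexObs
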