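import Pool.Agent.ATR.Defs

/-!
# ATR, row E3: the sum over the free bridge in front of a return to the start (helper59)

* `NearR`: the word comes back to the box of radius `D` about its start behind the index `n2`, after a long way;
* **`xret`**: for fixed `A`, `B` the weight of the bridges `Z` with `A ++ (Z ++ B)` in `NearR` is at most
  `C (T + 1) (4 D + 1) ^ 2 / m * UU n / n ^ 2`.
-/

set_option autoImplicit false

namespace HexObs

namespace ATR

open Finset TS SDN NTA NTW TIP HexObs.SIM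

open scoped ENNReal

/-- a return to the start behind the index n2, after a way of size R -/
def NearR (D R : ℕ) (_n1 n2 : ℕ) (t : List Bool) : Prop :=
  ∃ e j, n2 ≤ e ∧ e ≤ j ∧ j ≤ t.length ∧ vx oo up t j ∈ Bl oo D ∧ vx oo up t e ∉ Bl (vx oo up t j) R

lemma nearR_mono {D R : ℕ} : MonQ (NearR D R) := by
  rintro t n1 n2 n1' n2' - h2 ⟨e, j, a1, a2⟩
  exact ⟨e, j, h2.trans a1, a2⟩

/-- a slow word stays near its points -/
lemma slow_win {m D R : ℕ} {t : List Bool} (hf : t ∉ Fast m D) (hDR : D ≤ R) {e j : ℕ} (hej : e ≤ j) (hj : j ≤ t.length)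
    (hn : vx oo up t j ∈ Bl oo D) (hfar : vx oo up t e ∉ Bl (vx oo up t j) R) :
    e + m < j ∧ ∀ k, j ≤ k + m → k ≤ j → vx oo up t k ∈ Bl oo (2 * D) := by
  have hs : ∀ i k, i ≤ k → k ≤ t.length → k ≤ i + m → vx oo up t k ∈ Bl (vx oo up t i) D := by
    intro i k h1 h2 h3
    by_contra hc
    exact hf ⟨i, k, h1, h2, h3, hc⟩
  constructor
  · by_contra hc
    have h1 := hs e j hej hj (by omega)
    apply hfar
    rw [mem_Bl] at h1 ⊢
    have hDR' : (D : ℤ) ≤ R := by exact_mod_cast hDR
    refine ⟨⟨?_, ?_⟩, ?_, ?_⟩ <;> omega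
  · intro k h1 h2
    have h3 := hs k j h2 hj (by omega)
    rw [mem_Bl] at h3 hn ⊢
    push_cast
    refine ⟨⟨?_, ?_⟩, ?_, ?_⟩ <;> omega

open Classical in
/-- **the sum over the free bridge** -/
theorem xret : ∃ C : ℝ, 0 < C ∧ ∀ (A B : List Bool) (n K T m D R : ℕ) (F : Set (List Bool)), 1 ≤ n → 1 ≤ m → D ≤ R →
    (∀ t ∈ F, t ∈ WL K ∧ t.length ≤ T ∧ t ∉ Fast m D) →
    gf {Z | (Z ∈ BU ∧ n ≤ hgt Z) ∧ A ++ (Z ++ B) ∈ F ∧ NearR D R A.length (A.length + Z.length) (A ++ (Z ++ B))} ≤
      ENNReal.ofReal (C * (((T : ℝ) + 1) * (4 * D + 1) ^ 2 / m) * (UU n / n ^ 2)) := by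
  obtain ⟨C, hC, hanti⟩ := anti_end
  refine ⟨C, hC, fun A B n K T m D R F hn hm hDR hF => ?_⟩
  obtain ⟨E, hE⟩ : ∃ E : Set (List Bool), E = {Z | (Z ∈ BU ∧ n ≤ hgt Z) ∧ A ++ (Z ++ B) ∈ F ∧
    NearR D R A.length (A.length + Z.length) (A ++ (Z ++ B))} := ⟨_, rfl⟩
  rw [← hE]
  obtain ⟨V, hV⟩ : ∃ V : Finset Pt, V = (SIM.bl 0 (2 ^ (K + 4))).filter (fun v => ∃ Z ∈ E, dsp A Z = v) := ⟨_, rfl⟩
  have hBU : ∀ Z ∈ BU, dx up Z Z.length = up := fun Z ⟨h, hZ⟩ => (mem_Brd.1 hZ).2.2.1
  have hbox : ∀ Z ∈ E, dsp A Z ∈ Bl 0 (2 ^ (K + 4)) := by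
    intro Z hZ
    rw [hE] at hZ
    obtain ⟨⟨z1, z2⟩, z3, z4⟩ := hZ
    obtain ⟨z3, -, -⟩ := hF _ z3
    have h1 := WL_bd z3 (i := A.length) (by simp)
    have h2 := WL_bd z3 (i := A.length + Z.length) (by rw [List.length_append, List.length_append]; omega)
    have h3 := vx_behind (A := A) (B := B) (hBU Z z1) 0
    rw [add_zero, add_zero] at h3
    have h4 : vx oo up (A ++ (Z ++ B)) A.length = vx oo up (A ++ B) A.length := by
      rw [vx_append (by omega), vx_append (by omega)]
    rw [h3] at h2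
    rw [h4] at h1
    rw [mem_Bl] at h1 h2 ⊢
    push_cast at h1 h2 ⊢
    rw [show (2 : ℤ) ^ (K + 4) = 2 * 2 ^ (K + 3) by ring]
    simp only [Prod.fst_zero, Prod.snd_zero, Prod.fst_add, Prod.snd_add] at h1 h2 ⊢
    refine ⟨⟨?_, ?_⟩, ?_, ?_⟩ <;> omega
  -- the number of the translations
  have hm0 : (0 : ℝ) < m := by exact_mod_cast hm
  have hcount : (V.card : ℝ) * m ≤ ((T : ℝ) + 1) * (4 * D + 1) ^ 2 := by
    rcases V.eq_empty_or_nonempty with h0 | ⟨v0, hv0⟩
    · rw [h0, card_empty, Nat.cast_zero, zero_mul]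
      positivity
    have hBT : B.length ≤ T := by
      rw [hV, mem_filter] at hv0
      obtain ⟨-, Z, hZ, -⟩ := hv0
      rw [hE] at hZ
      have := (hF _ hZ.2.1).2.1
      rw [List.length_append, List.length_append] at this
      omega
    obtain ⟨P, hP⟩ : ∃ P : Finset (Pt × ℕ), P = (V ×ˢ range (B.length + 1)).filter fun p =>
      vx oo up (A ++ B) (A.length + p.2) + p.1 ∈ Bl oo (2 * D) := ⟨_, rfl⟩
    -- from below
    have hlow : V.card * m ≤ P.card := by
      have h1 : ∀ v ∈ V, m ≤ (P.filter fun p => p.1 = v).card := by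
        intro v hv
        have hv' := hv
        rw [hV, mem_filter] at hv
        obtain ⟨-, Z, hZ, hvZ⟩ := hv
        rw [hE] at hZ
        obtain ⟨⟨z1, z2⟩, z3, e, j, q1, q2, q3, q4, q5⟩ := hZ
        obtain ⟨z5, z6, z7⟩ := hF _ z3
        obtain ⟨w1, w2⟩ := slow_win z7 hDR q2 q3 q4 q5
        rw [List.length_append, List.length_append] at q3
        have hinj : Function.Injective fun k : ℕ => ((v, j - (A.length + Z.length) - m + k) : Pt × ℕ) := by
          intro a b hab
          have := congrArg Prod.snd hab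
          simp only at this
          omega
        rw [← card_range m, ← card_image_of_injective _ hinj]
        refine card_le_card fun p hp => ?_
        obtain ⟨k, hk, rfl⟩ := mem_image.1 hp
        rw [mem_range] at hk
        rw [mem_filter, hP, mem_filter, mem_product, mem_range]
        refine ⟨⟨⟨hv', by show j - (A.length + Z.length) - m + k < B.length + 1; omega⟩, ?_⟩, rfl⟩
        show vx oo up (A ++ B) (A.length + (j - (A.length + Z.length) - m + k)) + v ∈ Bl oo (2 * D)
        rw [← hvZ, ← vx_behind (hBU Z z1), show A.length + Z.length + (j - (A.length + Z.length) - m + k) = j - m + k by omega]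
        exact w2 _ (by omega) (by omega)
      have h2 : P.card = ∑ v ∈ V, (P.filter fun p => p.1 = v).card := by
        refine card_eq_sum_card_fiberwise fun p hp => ?_
        have hp' : p ∈ P := hp
        rw [hP, mem_filter, mem_product] at hp'
        exact hp'.1.1
      rw [h2]
      calc V.card * m = ∑ _v ∈ V, m := by rw [sum_const, smul_eq_mul]
        _ ≤ _ := sum_le_sum h1
    -- from above
    have hup : P.card ≤ (B.length + 1) * (4 * D + 1) ^ 2 := by
      have h1 : ∀ k ∈ range (B.length + 1), (P.filter fun p => p.2 = k).card ≤ (4 * D + 1) ^ 2 := by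
        intro k _
        have h3 : (P.filter fun p => p.2 = k).card ≤ (SIM.bl oo (2 * D)).card := by
          refine card_le_card_of_injOn (fun p => vx oo up (A ++ B) (A.length + k) + p.1) ?_ ?_
          · intro p hp
            have hp' := mem_filter.1 hp
            rw [hP, mem_filter] at hp'
            obtain ⟨⟨-, h4⟩, h5⟩ := hp'
            rw [h5] at h4
            exact mem_coe.2 (SIM.mem_bl.2 h4)
          · intro p hp q hq hpq
            have hp' := (mem_filter.1 hp).2
            have hq' := (mem_filter.1 hq).2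
            exact Prod.ext (add_left_cancel hpq) (hp'.trans hq'.symm)
        refine h3.trans (le_of_eq ?_)
        unfold SIM.bl
        rw [card_product, Int.card_Icc, Int.card_Icc, sq]
        congr 1 <;> push_cast <;> omega
      have h2 : P.card = ∑ k ∈ range (B.length + 1), (P.filter fun p => p.2 = k).card := by
        refine card_eq_sum_card_fiberwise fun p hp => ?_
        have hp' : p ∈ P := hp
        rw [hP, mem_filter, mem_product] at hp'
        exact hp'.1.2
      rw [h2]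
      calc _ ≤ ∑ _k ∈ range (B.length + 1), (4 * D + 1) ^ 2 := sum_le_sum h1
        _ = (B.length + 1) * (4 * D + 1) ^ 2 := by rw [sum_const, card_range, smul_eq_mul]
    have h3 : V.card * m ≤ (T + 1) * (4 * D + 1) ^ 2 :=
      (hlow.trans hup).trans (Nat.mul_le_mul_right _ (by omega))
    exact_mod_cast h3
  -- one translation
  have hone : ∀ v, gf {Z | Z ∈ E ∧ dsp A Z = v} ≤ ENNReal.ofReal (C * (UU n / n ^ 2)) := by
    intro v
    by_cases hex : ∃ Z0, Z0 ∈ E ∧ dsp A Z0 = v
    · obtain ⟨Z0, hZ0, hv0⟩ := hex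
      have hZ0' := hZ0
      rw [hE] at hZ0'
      obtain ⟨⟨⟨h, hh⟩, z2⟩, -, -⟩ := hZ0'
      have hlev := (mem_Brd.1 hh).2.2.2
      have hg0 : hgt Z0 = h := by
        unfold hgt
        rw [hlev]
        omega
      rw [hg0] at z2
      refine (gf_mono (Q := {t | t ∈ Brd h ∧ latE t = latE Z0}) ?_).trans ((hanti h (by omega) _).trans ?_)
      · rintro Z ⟨hZ, hZv⟩
        rw [hE] at hZ
        obtain ⟨⟨⟨h', hh'⟩, -⟩, -, -⟩ := hZ
        have h3 : vx oo up Z Z.length = vx oo up Z0 Z0.length := dsp_inj (A := A) (by rw [hZv, hv0])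
        have h4 := (mem_Brd.1 hh').2.2.2
        have h5 : lev Z Z.length = lev Z0 Z0.length := by
          unfold lev
          rw [h3]
        have h6 : h' = h := by omega
        refine ⟨h6 ▸ hh', ?_⟩
        unfold latE lat
        rw [h3]
      · apply ENNReal.ofReal_le_ofReal
        have hn0 : (0 : ℝ) < n := by exact_mod_cast hn
        have hnh : (n : ℝ) ≤ h := by exact_mod_cast z2
        have h7 : uu h ≤ uu n := Num2Aux.anti z2
        have h8 := Num2Aux.mul_le_UU n
        have h9 := Num2Aux.nonneg n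
        refine mul_le_mul_of_nonneg_left ?_ hC.le
        calc uu h / h ≤ uu n / n := div_le_div₀ h9 h7 hn0 hnh
          _ ≤ UU n / n ^ 2 := by
            rw [div_le_div_iff₀ hn0 (by positivity)]
            nlinarith
    · have : {Z | Z ∈ E ∧ dsp A Z = v} = ∅ := Set.eq_empty_of_forall_notMem fun Z hZ => hex ⟨Z, hZ⟩
      rw [this]
      simp [gf]
  have hsub : E ⊆ ⋃ v ∈ V, {Z | Z ∈ E ∧ dsp A Z = v} := by
    intro Z hZ
    rw [Set.mem_iUnion₂]
    refine ⟨dsp A Z, ?_, hZ, rfl⟩
    rw [hV, Finset.mem_filter, SIM.mem_bl]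
    exact ⟨hbox Z hZ, Z, hZ, rfl⟩
  refine (gf_mono hsub).trans ((ENNReal.tsum_biUnion_le wE V _).trans ((Finset.sum_le_sum fun v _ => hone v).trans ?_))
  rw [Finset.sum_const, ← ENNReal.ofReal_nsmul]
  apply ENNReal.ofReal_le_ofReal
  rw [nsmul_eq_mul]
  have hx : 0 ≤ C * (UU n / n ^ 2) := by
    have := (Num2Aux.UU_pos n).le
    positivity
  have h4 : (V.card : ℝ) ≤ ((T : ℝ) + 1) * (4 * D + 1) ^ 2 / m := by
    rw [le_div_iff₀ hm0]
    exact hcount
  calc (V.card : ℝ) * (C * (UU n / n ^ 2)) ≤ (((T : ℝ) + 1) * (4 * D + 1) ^ 2 / m) * (C * (UU n / n ^ 2)) :=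
        mul_le_mul_of_nonneg_right h4 hx
    _ = _ := by ring

end ATR

end HexObs
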